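import Mathlib

set_option autoImplicit false

namespace Pool.Agent.Lib.MP_e532e2_pr

section
variable {E : Type*} [AddCommGroup E] [Module ℝ E]

theorem cs (B : E →ₗ[ℝ] E →ₗ[ℝ] ℝ) (hs : ∀ u v, B u v = B v u) (hp : ∀ u, 0 ≤ B u u)
    (u v : E) : (B u v) ^ 2 ≤ B u u * B v v := by
  have h : ∀ t : ℝ, 0 ≤ B v v * (t * t) + 2 * B u v * t + B u u := by
    intro t
    have := hp (u + t • v)
    simp only [map_add, map_smul, LinearMap.add_apply, LinearMap.smul_apply, smul_eq_mul] at this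
    rw [hs v u] at this
    nlinarith
  have := discrim_le_zero h
  unfold discrim at this
  nlinarith

theorem pow_bound (B : E →ₗ[ℝ] E →ₗ[ℝ] ℝ) (hs : ∀ u v, B u v = B v u) (hp : ∀ u, 0 ≤ B u u)
    (Q : E →ₗ[ℝ] E) (hQ : ∀ u v, B (Q u) v = B u (Q v)) (hQp : ∀ u, 0 ≤ B u (Q u))
    (S : E → Prop) (hS : ∀ u, S u → S (Q u)) (r : ℝ) (hr : 0 ≤ r)
    (h : ∀ u, S u → B u (Q u) ≤ r * B u u) (g : E) (hg : S g) (k : ℕ) :
    S ((Q ^ k) g) ∧ B ((Q ^ k) g) ((Q ^ k) g) ≤ r ^ (2 * k) * B g g := by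
  have step : ∀ u, S u → B (Q u) (Q u) ≤ r ^ 2 * B u u := by
    intro u hu
    have h1 := cs (B.compl₂ Q) (fun a b => by
      simp only [LinearMap.compl₂_apply]; rw [← hQ, hs]) (fun a => by
      simpa only [LinearMap.compl₂_apply] using hQp a) (Q u) u
    simp only [LinearMap.compl₂_apply] at h1
    have h2 := h u hu
    have h3 := h (Q u) (hS u hu)
    have h4 : B (Q u) (Q (Q u)) * B u (Q u) ≤ (r * B (Q u) (Q u)) * (r * B u u) :=
      mul_le_mul h3 h2 (hQp u) (mul_nonneg hr (hp _))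
    rcases (hp (Q u)).eq_or_lt with h0 | h0
    · rw [← h0]; exact mul_nonneg (by positivity) (hp u)
    · have : B (Q u) (Q u) * B (Q u) (Q u) ≤ B (Q u) (Q u) * (r ^ 2 * B u u) := by nlinarith
      exact le_of_mul_le_mul_left this h0
  induction k with
  | zero => simpa using hg
  | succ k ih =>
    rw [pow_succ', Module.End.mul_apply]
    refine ⟨hS _ ih.1, (step _ ih.1).trans ?_⟩
    have := mul_le_mul_of_nonneg_left ih.2 (by positivity : 0 ≤ r ^ 2)
    calc r ^ 2 * B ((Q ^ k) g) ((Q ^ k) g) ≤ r ^ 2 * (r ^ (2 * k) * B g g) := this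
      _ = r ^ (2 * (k + 1)) * B g g := by ring

theorem of_pow_bound (B : E →ₗ[ℝ] E →ₗ[ℝ] ℝ) (hs : ∀ u v, B u v = B v u) (hp : ∀ u, 0 ≤ B u u)
    (Q : E →ₗ[ℝ] E) (hQ : ∀ u v, B (Q u) v = B u (Q v)) (r : ℝ) (hr : 0 ≤ r) (f : E) (C : ℝ)
    (h : ∀ k : ℕ, B ((Q ^ k) f) ((Q ^ k) f) ≤ C * r ^ (2 * k)) :
    B f (Q f) ≤ r * B f f := by
  set b : ℕ → ℝ := fun k => B ((Q ^ k) f) ((Q ^ k) f) with hb
  have b0 : ∀ k, 0 ≤ b k := fun k => hp _
  have lc : ∀ k, b (k + 1) ^ 2 ≤ b k * b (k + 2) := by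
    intro k
    have h1 := cs B hs hp ((Q ^ k) f) ((Q ^ (k + 2)) f)
    have h2 : b (k + 1) = B ((Q ^ k) f) ((Q ^ (k + 2)) f) := by
      simp only [hb]
      rw [pow_succ' Q (k + 1), pow_succ' Q k, Module.End.mul_apply, Module.End.mul_apply,
        Module.End.mul_apply, hQ]
    rw [h2]; exact h1
  have l1 : ∀ k, b 1 * b k ≤ b 0 * b (k + 1) := by
    intro k
    induction k with
    | zero => simp [mul_comm]
    | succ k ih =>
      rcases (b0 k).eq_or_lt with h0 | h0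
      · have := lc k
        rw [← h0, zero_mul] at this
        have h1 : b (k + 1) = 0 := by nlinarith [b0 (k + 1)]
        rw [h1, mul_zero]; exact mul_nonneg (b0 _) (b0 _)
      · have h1 : b k * (b 1 * b (k + 1)) ≤ b k * (b 0 * b (k + 1 + 1)) := by
          have h2 := mul_le_mul_of_nonneg_right ih (b0 (k + 1))
          have h3 := mul_le_mul_of_nonneg_left (lc k) (b0 0)
          nlinarith
        exact le_of_mul_le_mul_left h1 h0
  have l2 : ∀ k, b 1 ^ (k + 1) ≤ b 0 ^ k * b (k + 1) := by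
    intro k
    induction k with
    | zero => simp
    | succ k ih =>
      have h1 := mul_le_mul_of_nonneg_left ih (b0 1)
      have h2 := mul_le_mul_of_nonneg_left (l1 (k + 1)) (pow_nonneg (b0 0) k)
      calc b 1 ^ (k + 1 + 1) = b 1 * b 1 ^ (k + 1) := by ring
        _ ≤ b 1 * (b 0 ^ k * b (k + 1)) := h1
        _ = b 0 ^ k * (b 1 * b (k + 1)) := by ring
        _ ≤ b 0 ^ k * (b 0 * b (k + 1 + 1)) := h2
        _ = _ := by ring
  have key : b 1 ≤ r ^ 2 * b 0 := by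
    by_contra hc
    push Not at hc
    have hy : 0 ≤ r ^ 2 * b 0 := mul_nonneg (by positivity) (b0 0)
    have hb1 : 0 < b 1 := lt_of_le_of_lt hy hc
    have h3 : ∀ k : ℕ, b 1 ≤ C * r ^ 2 * (r ^ 2 * b 0 / b 1) ^ k := by
      intro k
      have h4 := (l2 k).trans (mul_le_mul_of_nonneg_left (h (k + 1)) (pow_nonneg (b0 0) k))
      rw [div_pow, ← mul_div_assoc, le_div_iff₀ (pow_pos hb1 k)]
      calc b 1 * b 1 ^ k = b 1 ^ (k + 1) := by ring
        _ ≤ _ := h4
        _ = _ := by ring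
    have ht : Filter.Tendsto (fun k : ℕ => C * r ^ 2 * (r ^ 2 * b 0 / b 1) ^ k) Filter.atTop
        (nhds (C * r ^ 2 * 0)) :=
      (tendsto_pow_atTop_nhds_zero_of_lt_one (div_nonneg hy hb1.le)
        ((div_lt_one hb1).2 hc)).const_mul _
    have := ge_of_tendsto' ht h3
    linarith
  have h5 := cs B hs hp f (Q f)
  have e0 : b 0 = B f f := by simp [hb]
  have e1 : b 1 = B (Q f) (Q f) := by simp [hb]
  rw [e0, e1] at key
  have h6 : (B f (Q f)) ^ 2 ≤ (r * B f f) ^ 2 := by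
    have := mul_le_mul_of_nonneg_left key (hp f)
    nlinarith
  exact (abs_le_of_sq_le_sq' h6 (mul_nonneg hr (hp f))).2

end

end Pool.Agent.Lib.MP_e532e2_pr
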