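import Mathlib
import Pool.Agent.Lib.MP_e532e2_pr.Abstract

set_option autoImplicit false

namespace Pool.Agent.Lib.MP_e532e2_pr

open Function Finset

variable {V : Type} [Fintype V] [DecidableEq V]

/-- global spin flip -/
def neg (σ : V → Bool) : V → Bool := fun x => !σ x

omit [Fintype V] [DecidableEq V] in
theorem neg_neg' (σ : V → Bool) : neg (neg σ) = σ := by funext x; simp [neg]

omit [Fintype V] in
theorem neg_update (σ : V → Bool) (x : V) (b : Bool) :
    neg (update σ x b) = update (neg σ) x (!b) := by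
  funext y; by_cases h : y = x
  · subst h; simp [neg]
  · simp [neg, h]

theorem sum_neg' (F : (V → Bool) → ℝ) : ∑ σ, F (neg σ) = ∑ σ, F σ :=
  Equiv.sum_comp (Function.Involutive.toPerm neg neg_neg') F

theorem sum_pair (x : V) (F : (V → Bool) → ℝ) :
    2 * ∑ σ, F σ = ∑ σ, (F (update σ x true) + F (update σ x false)) := by
  have hi : Function.Involutive (fun σ : V → Bool => update σ x (!σ x)) := by
    intro σ; simp
  have h1 : ∑ σ, F (update σ x (!σ x)) = ∑ σ, F σ := Equiv.sum_comp hi.toPerm F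
  rw [two_mul]
  nth_rewrite 2 [← h1]
  rw [← Finset.sum_add_distrib]
  refine Finset.sum_congr rfl fun σ _ => ?_
  cases h : σ x
  · have : update σ x false = σ := by rw [← h]; simp
    simp [this, add_comm]
  · have : update σ x true = σ := by rw [← h]; simp
    simp [this]

theorem sum_pair_eq (x : V) (F G : (V → Bool) → ℝ)
    (h : ∀ σ, F (update σ x true) + F (update σ x false) =
      G (update σ x true) + G (update σ x false)) : ∑ σ, F σ = ∑ σ, G σ := by
  have h1 := sum_pair x F
  have h2 := sum_pair x G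
  have : ∑ σ, (F (update σ x true) + F (update σ x false)) =
    ∑ σ, (G (update σ x true) + G (update σ x false)) := Finset.sum_congr rfl fun σ _ => h σ
  linarith

theorem sum_pair_le (x : V) (F G : (V → Bool) → ℝ)
    (h : ∀ σ, F (update σ x true) + F (update σ x false) ≤
      G (update σ x true) + G (update σ x false)) : ∑ σ, F σ ≤ ∑ σ, G σ := by
  have h1 := sum_pair x F
  have h2 := sum_pair x G
  have : ∑ σ, (F (update σ x true) + F (update σ x false)) ≤
    ∑ σ, (G (update σ x true) + G (update σ x false)) := Finset.sum_le_sum fun σ _ => h σ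
  linarith

/-- heat-bath update at `x` -/
noncomputable def Px (w : (V → Bool) → ℝ) (x : V) : ((V → Bool) → ℝ) →ₗ[ℝ] ((V → Bool) → ℝ) where
  toFun f σ := (w (update σ x true) * f (update σ x true) +
    w (update σ x false) * f (update σ x false)) / (w (update σ x true) + w (update σ x false))
  map_add' f g := by funext σ; simp only [Pi.add_apply]; ring
  map_smul' a f := by funext σ; simp only [Pi.smul_apply, smul_eq_mul, RingHom.id_apply]; ring

omit [Fintype V] in
theorem Px_apply (w : (V → Bool) → ℝ) (x : V) (f : (V → Bool) → ℝ) (σ : V → Bool) :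
    Px w x f σ = (w (update σ x true) * f (update σ x true) +
    w (update σ x false) * f (update σ x false)) / (w (update σ x true) + w (update σ x false)) :=
  rfl

omit [Fintype V] in
theorem Px_update (w : (V → Bool) → ℝ) (x : V) (f : (V → Bool) → ℝ) (σ : V → Bool) (b : Bool) :
    Px w x f (update σ x b) = Px w x f σ := by
  simp [Px_apply]

/-- weighted inner product -/
noncomputable def ip (w : (V → Bool) → ℝ) :
    ((V → Bool) → ℝ) →ₗ[ℝ] ((V → Bool) → ℝ) →ₗ[ℝ] ℝ :=
  LinearMap.mk₂ ℝ (fun f g => ∑ σ, w σ * (f σ * g σ))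
    (fun f f' g => by simp only [Pi.add_apply, ← Finset.sum_add_distrib]; congr 1; funext σ; ring)
    (fun a f g => by
      simp only [Pi.smul_apply, smul_eq_mul, Finset.mul_sum]; congr 1; funext σ; ring)
    (fun f g g' => by simp only [Pi.add_apply, ← Finset.sum_add_distrib]; congr 1; funext σ; ring)
    (fun a f g => by
      simp only [Pi.smul_apply, smul_eq_mul, Finset.mul_sum]; congr 1; funext σ; ring)

theorem ip_apply (w f g : (V → Bool) → ℝ) : ip w f g = ∑ σ, w σ * (f σ * g σ) := rfl

theorem ip_symm (w f g : (V → Bool) → ℝ) : ip w f g = ip w g f := by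
  simp only [ip_apply, mul_comm]

theorem ip_nonneg (w : (V → Bool) → ℝ) (hw : ∀ σ, 0 < w σ) (f : (V → Bool) → ℝ) :
    0 ≤ ip w f f :=
  Finset.sum_nonneg fun σ _ => mul_nonneg (hw σ).le (mul_self_nonneg _)

theorem ip_Px (w : (V → Bool) → ℝ) (hw : ∀ σ, 0 < w σ) (x : V) (f g : (V → Bool) → ℝ) :
    ip w f (Px w x g) = ip w (Px w x f) (Px w x g) := by
  simp only [ip_apply]
  refine sum_pair_eq x _ _ fun σ => ?_
  simp only [Px_update]
  rw [Px_apply w x f]
  have := hw (update σ x true)
  have := hw (update σ x false)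
  field_simp

theorem Px_selfadj (w : (V → Bool) → ℝ) (hw : ∀ σ, 0 < w σ) (x : V) (f g : (V → Bool) → ℝ) :
    ip w (Px w x f) g = ip w f (Px w x g) := by
  rw [ip_symm, ip_Px w hw, ip_Px w hw x f, ip_symm]

theorem team (w : (V → Bool) → ℝ) (hw : ∀ σ, 0 < w σ) (x : V) (f d : (V → Bool) → ℝ)
    (hd : ∀ σ b, d (update σ x b) = d σ) :
    ∑ σ, w σ * (f σ - Px w x f σ) ^ 2 ≤ ∑ σ, w σ * (f σ - d σ) ^ 2 := by
  refine sum_pair_le x _ _ fun σ => ?_
  simp only [Px_update, hd]
  have h1 := hw (update σ x true)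
  have h2 := hw (update σ x false)
  have h3 : (w (update σ x true) + w (update σ x false)) * Px w x f σ =
      w (update σ x true) * f (update σ x true) + w (update σ x false) * f (update σ x false) := by
    rw [Px_apply]; field_simp
  have h4 : 0 ≤ (w (update σ x true) + w (update σ x false)) * (Px w x f σ - d σ) ^ 2 := by
    positivity
  generalize Px w x f σ = p at *
  generalize d σ = q at *
  generalize w (update σ x true) = a at *
  generalize w (update σ x false) = b at *
  generalize f (update σ x true) = s at *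
  generalize f (update σ x false) = t at *
  have : a * (s - q) ^ 2 + b * (t - q) ^ 2 - (a * (s - p) ^ 2 + b * (t - p) ^ 2) =
      (a + b) * (p - q) ^ 2 + 2 * (p - q) * (a * s + b * t - (a + b) * p) := by ring
  rw [← h3] at this
  linarith

theorem sq_Px (w : (V → Bool) → ℝ) (hw : ∀ σ, 0 < w σ) (x : V) (f : (V → Bool) → ℝ) :
    ∑ σ, w σ * (f σ - Px w x f σ) ^ 2 = ip w f f - ip w f (Px w x f) := by
  have h1 := ip_Px w hw x f f
  have h2 : ∑ σ, w σ * (f σ - Px w x f σ) ^ 2 =
      ip w f f - 2 * ip w f (Px w x f) + ip w (Px w x f) (Px w x f) := by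
    simp only [ip_apply, Finset.mul_sum, ← Finset.sum_sub_distrib, ← Finset.sum_add_distrib]
    refine Finset.sum_congr rfl fun σ _ => by ring
  linarith

theorem dir_eq (w : (V → Bool) → ℝ) (hw : ∀ σ, 0 < w σ) (x : V) (f : (V → Bool) → ℝ) :
    ∑ σ, w σ * ∑ b : Bool, w (update σ x b) / (w (update σ x true) + w (update σ x false)) *
      (f σ - f (update σ x b)) ^ 2 = 2 * ∑ σ, w σ * (f σ - Px w x f σ) ^ 2 := by
  rw [Finset.mul_sum]
  refine sum_pair_eq x _ _ fun σ => ?_
  simp only [Px_update, update_idem, Fintype.sum_bool]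
  rw [Px_apply]
  have := hw (update σ x true)
  have := hw (update σ x false)
  field_simp
  ring

/-- Poincare inequality for odd functions, in variational form -/
def OP (w : (V → Bool) → ℝ) (c : ℝ) : Prop :=
  ∀ f : (V → Bool) → ℝ, (∀ σ, f (neg σ) = - f σ) → ∀ d : V → (V → Bool) → ℝ,
    (∀ x σ b, d x (update σ x b) = d x σ) →
    c * ∑ σ, w σ * f σ ^ 2 ≤ ∑ x, ∑ σ, w σ * (f σ - d x σ) ^ 2

theorem OP.cone {w₁ w₂ : (V → Bool) → ℝ} {c : ℝ} (h₁ : OP w₁ c) (h₂ : OP w₂ c) (a b : ℝ)
    (ha : 0 ≤ a) (hb : 0 ≤ b) : OP (fun σ => a * w₁ σ + b * w₂ σ) c := by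
  intro f hf d hd
  have e1 := mul_le_mul_of_nonneg_left (h₁ f hf d hd) ha
  have e2 := mul_le_mul_of_nonneg_left (h₂ f hf d hd) hb
  have l : c * ∑ σ, (a * w₁ σ + b * w₂ σ) * f σ ^ 2 =
      a * (c * ∑ σ, w₁ σ * f σ ^ 2) + b * (c * ∑ σ, w₂ σ * f σ ^ 2) := by
    simp only [Finset.mul_sum, ← Finset.sum_add_distrib]
    refine Finset.sum_congr rfl fun σ _ => by ring
  have r : ∑ x, ∑ σ, (a * w₁ σ + b * w₂ σ) * (f σ - d x σ) ^ 2 =
      a * ∑ x, ∑ σ, w₁ σ * (f σ - d x σ) ^ 2 + b * ∑ x, ∑ σ, w₂ σ * (f σ - d x σ) ^ 2 := by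
    simp only [Finset.mul_sum, ← Finset.sum_add_distrib]
    refine Finset.sum_congr rfl fun x _ => Finset.sum_congr rfl fun σ _ => by ring
  rw [l, r]; linarith

/-- gauge transformation -/
def gauge (ε σ : V → Bool) : V → Bool := fun x => xor (ε x) (σ x)

omit [Fintype V] [DecidableEq V] in
theorem gauge_gauge (ε σ : V → Bool) : gauge ε (gauge ε σ) = σ := by
  funext x; simp [gauge]

theorem OP.gauge {w : (V → Bool) → ℝ} {c : ℝ} (h : OP w c) (ε : V → Bool) :
    OP (fun σ => w (gauge ε σ)) c := by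
  intro f hf d hd
  have hs : ∀ F : (V → Bool) → ℝ, ∑ σ, F (Lib.MP_e532e2_pr.gauge ε σ) = ∑ σ, F σ := fun F =>
    Equiv.sum_comp (Function.Involutive.toPerm _ (gauge_gauge ε)) F
  have := h (fun σ => f (Lib.MP_e532e2_pr.gauge ε σ)) (fun σ => by
      rw [← hf]; congr 1; funext x; simp [Lib.MP_e532e2_pr.gauge, neg])
    (fun x σ => d x (Lib.MP_e532e2_pr.gauge ε σ)) (fun x σ b => by
      have : Lib.MP_e532e2_pr.gauge ε (update σ x b) =
          update (Lib.MP_e532e2_pr.gauge ε σ) x (xor (ε x) b) := by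
        funext y; by_cases hy : y = x
        · subst hy; simp [Lib.MP_e532e2_pr.gauge]
        · simp [Lib.MP_e532e2_pr.gauge, hy]
      simp only [this, hd])
  rw [← hs] at this
  simp only [gauge_gauge] at this
  refine this.trans (le_of_eq (Finset.sum_congr rfl fun x _ => ?_))
  rw [← hs]
  simp only [gauge_gauge]

theorem OP_of_poincare (w : (V → Bool) → ℝ) (hw : ∀ σ, 0 < w σ) (hs : ∀ σ, w (neg σ) = w σ)
    (c : ℝ) (h : ∀ f : (V → Bool) → ℝ, c * ∑ σ, w σ * (f σ - ∑ τ, w τ * f τ) ^ 2 ≤
      ∑ x, ∑ σ, w σ * (f σ - Px w x f σ) ^ 2) : OP w c := by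
  intro f hf d hd
  have h0 : ∑ τ, w τ * f τ = 0 := by
    have := sum_neg' (fun τ => w τ * f τ)
    simp only [hs, hf, mul_neg, Finset.sum_neg_distrib] at this
    linarith
  have := h f
  simp only [h0, sub_zero] at this
  exact this.trans (Finset.sum_le_sum fun x _ => team w hw x f (d x) (hd x))

omit [Fintype V] in
theorem Px_mono (w : (V → Bool) → ℝ) (hw : ∀ σ, 0 < w σ)
    (hm : ∀ x σ τ, σ ≤ τ → w (update σ x true) * w (update τ x false) ≤
      w (update τ x true) * w (update σ x false)) (x : V) (f : (V → Bool) → ℝ)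
    (hf : Monotone f) : Monotone (Px w x f) := by
  intro σ τ hστ
  have h1 := hf (update_le_update_iff.2 ⟨le_rfl, fun j _ => hστ j⟩ :
    update σ x true ≤ update τ x true)
  have h2 := hf (update_le_update_iff.2 ⟨le_rfl, fun j _ => hστ j⟩ :
    update σ x false ≤ update τ x false)
  have h3 := hf (update_le_update_iff.2 ⟨by simp, fun j _ => le_rfl⟩ :
    update σ x false ≤ update σ x true)
  have h4 := hm x σ τ hστ
  have p1 := hw (update σ x true)
  have p2 := hw (update σ x false)
  have p3 := hw (update τ x true)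
  have p4 := hw (update τ x false)
  rw [Px_apply, Px_apply, div_le_div_iff₀ (by linarith) (by linarith)]
  generalize w (update σ x true) = a at *
  generalize w (update σ x false) = b at *
  generalize w (update τ x true) = a' at *
  generalize w (update τ x false) = b' at *
  generalize f (update σ x true) = s at *
  generalize f (update σ x false) = t at *
  generalize f (update τ x true) = s' at *
  generalize f (update τ x false) = t' at *
  have e1 : 0 ≤ (a' * b - a * b') * (s - t) := mul_nonneg (by linarith) (by linarith)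
  have e2 : 0 ≤ a' * (a + b) * (s' - s) := mul_nonneg (by positivity) (by linarith)
  have e3 : 0 ≤ b' * (a + b) * (t' - t) := mul_nonneg (by positivity) (by linarith)
  nlinarith

theorem poincare_of_OP (w : (V → Bool) → ℝ) (hw : ∀ σ, 0 < w σ) (hs : ∀ σ, w (neg σ) = w σ)
    (h1 : ∑ σ, w σ = 1)
    (hm : ∀ x σ τ, σ ≤ τ → w (update σ x true) * w (update τ x false) ≤
      w (update τ x true) * w (update σ x false)) (c : ℝ) (h : OP w c) (f : (V → Bool) → ℝ) :
    c * ∑ σ, w σ * (f σ - ∑ τ, w τ * f τ) ^ 2 ≤ ∑ x, ∑ σ, w σ * (f σ - Px w x f σ) ^ 2 := by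
  rcases isEmpty_or_nonempty V with hV | ⟨⟨x₀⟩⟩
  · simp at h1
    simp [h1]
  set Q : ((V → Bool) → ℝ) →ₗ[ℝ] ((V → Bool) → ℝ) := ∑ x, Px w x with hQdef
  set N : ℝ := (Fintype.card V : ℝ) with hN
  have hQa : ∀ u σ, Q u σ = ∑ x, Px w x u σ := by
    intro u σ; simp [hQdef, LinearMap.sum_apply]
  have hQ : ∀ u v, ip w (Q u) v = ip w u (Q v) := by
    intro u v
    simp only [hQdef, LinearMap.sum_apply, map_sum, Px_selfadj w hw]
  have hQp : ∀ u, 0 ≤ ip w u (Q u) := by
    intro u
    simp only [hQdef, LinearMap.sum_apply, map_sum]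
    exact Finset.sum_nonneg fun x _ => by rw [ip_Px w hw]; exact ip_nonneg w hw _
  have hD : ∀ u, ∑ x, ∑ σ, w σ * (u σ - Px w x u σ) ^ 2 = N * ip w u u - ip w u (Q u) := by
    intro u
    simp only [sq_Px w hw, Finset.sum_sub_distrib, hQdef, LinearMap.sum_apply, map_sum]
    simp [hN]
  have hodd : ∀ u : (V → Bool) → ℝ, (∀ σ, u (neg σ) = - u σ) → ∀ σ, Q u (neg σ) = - Q u σ := by
    intro u hu σ
    rw [hQa, hQa, ← Finset.sum_neg_distrib]
    refine Finset.sum_congr rfl fun x _ => ?_
    have e1 : update (neg σ) x true = neg (update σ x false) := by rw [neg_update]; rfl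
    have e2 : update (neg σ) x false = neg (update σ x true) := by rw [neg_update]; rfl
    rw [Px_apply, Px_apply, e1, e2, hs, hs, hu, hu, add_comm (w (update σ x false))]
    ring
  have hOP : ∀ u : (V → Bool) → ℝ, (∀ σ, u (neg σ) = - u σ) →
      ip w u (Q u) ≤ (N - c) * ip w u u := by
    intro u hu
    have := h u hu (fun x => Px w x u) (fun x σ b => Px_update w x u σ b)
    rw [hD] at this
    have e : ∑ σ, w σ * u σ ^ 2 = ip w u u := by simp only [ip_apply, sq]
    rw [e] at this
    linarith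
  have hr : 0 ≤ N - c := by
    have e1 := hOP (fun σ => if σ x₀ then 1 else -1) (fun σ => by cases h : σ x₀ <;> simp [neg, h])
    have e2 := hQp (fun σ => if σ x₀ then 1 else -1)
    have e3 : ip w (fun σ => if σ x₀ then 1 else -1) (fun σ => if σ x₀ then 1 else -1) = 1 := by
      rw [ip_apply]
      refine Eq.trans (Finset.sum_congr rfl fun σ _ => ?_) h1
      cases σ x₀ <;> simp
    rw [e3] at e1; linarith
  set g : (V → Bool) → ℝ := fun σ => ∑ x, if σ x then (1:ℝ) else -1 with hg
  have godd : ∀ σ, g (neg σ) = - g σ := by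
    intro σ
    simp only [hg, ← Finset.sum_neg_distrib]
    refine Finset.sum_congr rfl fun x _ => by cases h : σ x <;> simp [neg, h]
  have hgk := fun k => (pow_bound (ip w) (ip_symm w) (ip_nonneg w hw) Q hQ hQp
    (fun u => ∀ σ, u (neg σ) = - u σ) hodd (N - c) hr hOP g godd k).2
  have gstep : ∀ σ τ : V → Bool, σ ≤ τ → σ ≠ τ → g σ + 2 ≤ g τ := by
    intro σ τ hle hne
    obtain ⟨y, hy⟩ := Function.ne_iff.1 hne
    have : ∑ x, (if x = y then (2:ℝ) else 0) ≤
        ∑ x, ((if τ x then (1:ℝ) else -1) - (if σ x then (1:ℝ) else -1)) := by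
      refine Finset.sum_le_sum fun x _ => ?_
      have hx := hle x
      by_cases hxy : x = y
      · subst hxy
        revert hx hy
        cases σ x <;> cases τ x <;> simp <;> norm_num
      · revert hx
        cases σ x <;> cases τ x <;> simp [hxy]
    rw [Finset.sum_sub_distrib] at this
    simp only [Finset.sum_ite_eq', Finset.mem_univ, if_true] at this
    simp only [hg]; linarith
  have Qmono : ∀ (k : ℕ) (u : (V → Bool) → ℝ), Monotone u → Monotone ((Q ^ k) u) := by
    intro k u hu
    induction k with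
    | zero => simpa using hu
    | succ k ih =>
      rw [pow_succ', Module.End.mul_apply]
      intro σ τ hστ
      rw [hQa, hQa]
      exact Finset.sum_le_sum fun x _ => Px_mono w hw hm x _ ih hστ
  set m := ∑ τ, w τ * f τ with hm'
  set f₀ : (V → Bool) → ℝ := fun σ => f σ - m with hf₀
  set M : ℝ := ∑ σ, |f₀ σ| with hM
  have hMσ : ∀ σ, |f₀ σ| ≤ M := fun σ =>
    Finset.single_le_sum (f := fun σ => |f₀ σ|) (fun _ _ => abs_nonneg _) (Finset.mem_univ σ)
  have hM0 : 0 ≤ M := Finset.sum_nonneg fun _ _ => abs_nonneg _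
  have mono1 : Monotone (M • g + f₀) := by
    intro σ τ hle
    by_cases he : σ = τ
    · rw [he]
    · have := mul_le_mul_of_nonneg_left (gstep σ τ hle he) hM0
      have a1 := abs_le.1 (hMσ σ)
      have a2 := abs_le.1 (hMσ τ)
      simp only [Pi.add_apply, Pi.smul_apply, smul_eq_mul]
      nlinarith
  have mono2 : Monotone (M • g - f₀) := by
    intro σ τ hle
    by_cases he : σ = τ
    · rw [he]
    · have := mul_le_mul_of_nonneg_left (gstep σ τ hle he) hM0
      have a1 := abs_le.1 (hMσ σ)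
      have a2 := abs_le.1 (hMσ τ)
      simp only [Pi.sub_apply, Pi.smul_apply, smul_eq_mul]
      nlinarith
  have Q1 : Q (fun _ => 1) = N • fun _ => 1 := by
    funext σ
    rw [hQa]
    have : ∀ x, Px w x (fun _ => 1) σ = 1 := by
      intro x
      have := hw (update σ x true)
      have := hw (update σ x false)
      rw [Px_apply]; field_simp
    simp [this, hN]
  have mean0 : ∀ k : ℕ, ip w ((Q ^ k) f₀) (fun _ => 1) = 0 := by
    intro k
    induction k with
    | zero =>
      simp only [pow_zero, Module.End.one_apply, ip_apply, hf₀, mul_one, mul_sub,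
        Finset.sum_sub_distrib, ← Finset.sum_mul, h1]
      simp [hm']
    | succ k ih => rw [pow_succ', Module.End.mul_apply, hQ, Q1, map_smul, ih]; simp
  let top : V → Bool := fun _ => true
  have wt := hw top
  have bound : ∀ k : ℕ, ip w ((Q ^ k) f₀) ((Q ^ k) f₀) ≤
      (M ^ 2 * (2 / w top + 2) * ip w g g) * (N - c) ^ (2 * k) := by
    intro k
    have a1 := Qmono k _ mono1
    have a2 := Qmono k _ mono2
    have a3 := hgk k
    have a4 := mean0 k
    rw [map_add, map_smul] at a1
    rw [map_sub, map_smul] at a2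
    generalize (Q ^ k) f₀ = u at *
    generalize (Q ^ k) g = v at *
    have b1 : ∀ σ, (u top - u σ) ^ 2 ≤ M ^ 2 * (2 * v top ^ 2 + 2 * v σ ^ 2) := by
      intro σ
      have c1 := a1 (show σ ≤ top from fun x => by simp [top])
      have c2 := a2 (show σ ≤ top from fun x => by simp [top])
      simp only [Pi.add_apply, Pi.sub_apply, Pi.smul_apply, smul_eq_mul] at c1 c2
      have c3 : (u top - u σ) ^ 2 ≤ (M * (v top - v σ)) ^ 2 :=
        sq_le_sq' (by linarith) (by linarith)
      have c4 : (v top - v σ) ^ 2 ≤ 2 * v top ^ 2 + 2 * v σ ^ 2 := by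
        nlinarith [sq_nonneg (v top + v σ)]
      have := mul_le_mul_of_nonneg_left c4 (sq_nonneg M)
      nlinarith
    have b2 : ∑ σ, w σ * (u top - u σ) ^ 2 = u top ^ 2 + ip w u u := by
      have : ∑ σ, w σ * (u top - u σ) ^ 2 =
          u top ^ 2 * ∑ σ, w σ - 2 * u top * ip w u (fun _ => 1) + ip w u u := by
        simp only [ip_apply, Finset.mul_sum, ← Finset.sum_sub_distrib, ← Finset.sum_add_distrib]
        refine Finset.sum_congr rfl fun σ _ => by ring
      rw [this, h1, a4]; ring
    have b3 : ∑ σ, w σ * (u top - u σ) ^ 2 ≤ M ^ 2 * (2 * v top ^ 2 + 2 * ip w v v) := by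
      have : M ^ 2 * (2 * v top ^ 2 + 2 * ip w v v) =
          ∑ σ, w σ * (M ^ 2 * (2 * v top ^ 2 + 2 * v σ ^ 2)) := by
        have e : M ^ 2 * (2 * v top ^ 2 + 2 * ip w v v) =
          M ^ 2 * (2 * v top ^ 2 * ∑ σ, w σ + 2 * ip w v v) := by rw [h1, mul_one]
        rw [e]
        simp only [ip_apply, Finset.mul_sum, ← Finset.sum_add_distrib]
        refine Finset.sum_congr rfl fun σ _ => by ring
      rw [this]
      exact Finset.sum_le_sum fun σ _ => mul_le_mul_of_nonneg_left (b1 σ) (hw σ).le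
    have b4 : v top ^ 2 ≤ ip w v v / w top := by
      rw [le_div_iff₀ wt, ip_apply]
      have := Finset.single_le_sum (f := fun σ => w σ * (v σ * v σ))
        (fun σ _ => mul_nonneg (hw σ).le (mul_self_nonneg _)) (Finset.mem_univ top)
      nlinarith
    have b5 : ip w u u ≤ M ^ 2 * (2 / w top + 2) * ip w v v := by
      have e : M ^ 2 * (2 / w top + 2) * ip w v v =
        M ^ 2 * (2 * (ip w v v / w top) + 2 * ip w v v) := by ring
      rw [e]
      have := mul_le_mul_of_nonneg_left
        (show 2 * v top ^ 2 + 2 * ip w v v ≤ 2 * (ip w v v / w top) + 2 * ip w v v by linarith)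
        (sq_nonneg M)
      nlinarith [sq_nonneg (u top)]
    have b6 := mul_le_mul_of_nonneg_left a3 (by positivity : 0 ≤ M ^ 2 * (2 / w top + 2))
    calc ip w u u ≤ _ := b5
      _ ≤ _ := b6
      _ = _ := by ring
  have fin := of_pow_bound (ip w) (ip_symm w) (ip_nonneg w hw) Q hQ (N - c) hr f₀ _ bound
  have e1 : ∑ σ, w σ * (f σ - m) ^ 2 = ip w f₀ f₀ := by simp only [ip_apply, sq, hf₀]
  have e2 : ∑ x, ∑ σ, w σ * (f σ - Px w x f σ) ^ 2 =
      ∑ x, ∑ σ, w σ * (f₀ σ - Px w x f₀ σ) ^ 2 := by
    refine Finset.sum_congr rfl fun x _ => Finset.sum_congr rfl fun σ _ => ?_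
    have := hw (update σ x true)
    have := hw (update σ x false)
    have : Px w x f₀ σ = Px w x f σ - m := by
      simp only [Px_apply, hf₀]; field_simp; ring
    rw [this]; simp only [hf₀]; ring
  rw [e1, e2, hD]
  linarith

end Pool.Agent.Lib.MP_e532e2_pr
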