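import Mathlib
import Pool.Agent.Lib.MP_e532e2_pr.Glauber

set_option autoImplicit false

namespace Pool.Agent.Lib.MP_e532e2_pr

open Function Finset

variable {V : Type} [Fintype V] [DecidableEq V]

/-- Ising energy with couplings `J` -/
noncomputable def H (G : SimpleGraph V) [DecidableRel G.Adj] (J : Sym2 V → ℝ) (σ : V → Bool) : ℝ :=
  1 / 2 * ∑ u, ∑ v, if G.Adj u v then J s(u, v) * (if σ u = σ v then (1:ℝ) else -1) else 0

theorem H_update (G : SimpleGraph V) [DecidableRel G.Adj] (J : Sym2 V → ℝ) (a b : V)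
    (hab : G.Adj a b) (t : ℝ) (σ : V → Bool) :
    H G (update J s(a, b) t) σ =
      H G (update J s(a, b) 0) σ + t * (if σ a = σ b then (1:ℝ) else -1) := by
  have hne := hab.ne
  have key : ∀ u v, (if G.Adj u v then update J s(a, b) t s(u, v) *
        (if σ u = σ v then (1:ℝ) else -1) else 0) =
      (if G.Adj u v then update J s(a, b) 0 s(u, v) * (if σ u = σ v then (1:ℝ) else -1) else 0) +
      ((if v = b then if u = a then t * (if σ a = σ b then (1:ℝ) else -1) else 0 else 0) +
      (if v = a then if u = b then t * (if σ a = σ b then (1:ℝ) else -1) else 0 else 0)) := by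
    intro u v
    by_cases h : s(u, v) = s(a, b)
    · rw [h, update_self, update_self]
      rcases Sym2.eq_iff.1 h with ⟨rfl, rfl⟩ | ⟨rfl, rfl⟩
      · simp [hab, hne.symm]
      · simp [hab.symm, hne, eq_comm]
    · rw [update_of_ne h, update_of_ne h]
      have h1 : ¬ (v = b ∧ u = a) := by rintro ⟨rfl, rfl⟩; exact h rfl
      have h2 : ¬ (v = a ∧ u = b) := by rintro ⟨rfl, rfl⟩; exact h Sym2.eq_swap
      rw [← ite_and, ← ite_and, if_neg h1, if_neg h2]; simp
  unfold H
  simp only [key, Finset.sum_add_distrib, Finset.sum_ite_eq', Finset.mem_univ, if_true]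
  ring

theorem OP_bridge (G : SimpleGraph V) [DecidableRel G.Adj] (J : Sym2 V → ℝ) (e : Sym2 V)
    (he : e ∈ G.edgeSet) (hb : G.IsBridge e) (t : ℝ) (h0 : 0 ≤ t) (ht : t ≤ J e) (c : ℝ)
    (h : OP (fun σ => Real.exp (H G J σ)) c) :
    OP (fun σ => Real.exp (H G (update J e t) σ)) c := by
  classical
  induction e using Sym2.ind with
  | _ a b =>
  have hab : G.Adj a b := he
  rcases ht.eq_or_lt with h1 | h1
  · rw [h1, update_eq_self]; exact h
  set T := J s(a, b) with hT
  have hT0 : 0 < T := lt_of_le_of_lt h0 h1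
  let ε : V → Bool := fun x => decide ((G.deleteEdges {s(a, b)}).Reachable a x)
  have εa : ε a = true := by simp [ε]
  have εb : ε b = false := by
    have := SimpleGraph.isBridge_iff.1 hb
    simp [ε, this]
  have εe : ∀ u v, G.Adj u v → s(u, v) ≠ s(a, b) → ε u = ε v := by
    intro u v huv hne
    have hadj : (G.deleteEdges {s(a, b)}).Adj u v := by
      rw [SimpleGraph.deleteEdges_adj]; exact ⟨huv, by simpa using hne⟩
    simp only [ε, decide_eq_decide]
    exact ⟨fun h => h.trans hadj.reachable, fun h => h.trans hadj.symm.reachable⟩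
  have g0 : ∀ σ, H G (update J s(a, b) 0) (gauge ε σ) = H G (update J s(a, b) 0) σ := by
    intro σ
    unfold H
    congr 1
    refine Finset.sum_congr rfl fun u _ => Finset.sum_congr rfl fun v _ => ?_
    by_cases huv : G.Adj u v
    · simp only [huv, if_true]
      by_cases h : s(u, v) = s(a, b)
      · rw [h, update_self]; simp
      · have := εe u v huv h
        simp only [gauge, this]
        cases ε v <;> simp
    · simp [huv]
  have hJ : ∀ σ, H G J σ = H G (update J s(a, b) 0) σ + T * (if σ a = σ b then (1:ℝ) else -1) := by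
    intro σ
    rw [← H_update G J a b hab T σ, hT, update_eq_self]
  set x := Real.exp T with hx
  set y := Real.exp t with hy
  have y1 : 1 ≤ y := Real.one_le_exp h0
  have xy : y < x := Real.exp_lt_exp.2 h1
  have x1 : 1 < x := lt_of_le_of_lt y1 xy
  have hd : 0 < x ^ 4 - 1 := by
    have := one_lt_pow₀ x1 (n := 4) (by norm_num)
    linarith
  have hA : 0 ≤ x * (x ^ 2 * y ^ 2 - 1) / (y * (x ^ 4 - 1)) := by
    have : 1 ≤ x ^ 2 * y ^ 2 := one_le_mul_of_one_le_of_one_le (one_le_pow₀ x1.le) (one_le_pow₀ y1)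
    exact div_nonneg (mul_nonneg (by linarith) (by linarith)) (by positivity)
  have hB : 0 ≤ x * (x ^ 2 - y ^ 2) / (y * (x ^ 4 - 1)) := by
    have : y ^ 2 ≤ x ^ 2 := pow_le_pow_left₀ (by linarith) xy.le 2
    exact div_nonneg (mul_nonneg (by linarith) (by linarith)) (by positivity)
  have := h.cone (h.gauge ε) _ _ hA hB
  have e : (fun σ => Real.exp (H G (update J s(a, b) t) σ)) =
      fun σ => x * (x ^ 2 * y ^ 2 - 1) / (y * (x ^ 4 - 1)) * Real.exp (H G J σ) +
        x * (x ^ 2 - y ^ 2) / (y * (x ^ 4 - 1)) * Real.exp (H G J (gauge ε σ)) := by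
    funext σ
    rw [H_update G J a b hab, hJ, hJ, g0, Real.exp_add, Real.exp_add, Real.exp_add]
    have hx0 : x ≠ 0 := by linarith
    have hy0 : y ≠ 0 := by linarith
    have hd0 := hd.ne'
    by_cases hσ : σ a = σ b
    · have : ¬ gauge ε σ a = gauge ε σ b := by
        simp only [gauge, εa, εb, hσ]; cases σ b <;> simp
      simp only [hσ, this, if_true, if_false, mul_one, mul_neg, Real.exp_neg, ← hx, ← hy]
      field_simp
      ring
    · have : gauge ε σ a = gauge ε σ b := by
        simp only [gauge, εa, εb]; revert hσ; cases σ a <;> cases σ b <;> simp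
      simp only [hσ, this, if_true, if_false, mul_one, mul_neg, Real.exp_neg, ← hx, ← hy]
      field_simp
      ring
  rw [e]; exact this

theorem OP_bridges (G : SimpleGraph V) [DecidableRel G.Adj] (J J' : Sym2 V → ℝ)
    (h0 : ∀ e, 0 ≤ J e) (hle : ∀ e, J e ≤ J' e)
    (hb : ∀ e ∈ G.edgeSet, ¬ G.IsBridge e → J e = J' e) (c : ℝ)
    (h : OP (fun σ => Real.exp (H G J' σ)) c) : OP (fun σ => Real.exp (H G J σ)) c := by
  classical
  have key : ∀ S : Finset (Sym2 V),
      OP (fun σ => Real.exp (H G (fun e => if e ∈ S then J e else J' e) σ)) c := by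
    intro S
    induction S using Finset.induction_on with
    | empty => simpa using h
    | insert e S heS ih =>
      have e1 : (fun e' => if e' ∈ insert e S then J e' else J' e') =
          update (fun e' => if e' ∈ S then J e' else J' e') e (J e) := by
        funext e'
        by_cases h : e' = e
        · subst h; simp
        · simp [h]
      rw [e1]
      by_cases he : e ∈ G.edgeSet
      · by_cases hbe : G.IsBridge e
        · exact OP_bridge G _ e he hbe _ (h0 e) (by simp [heS, hle e]) c ih
        · have : J e = (fun e' => if e' ∈ S then J e' else J' e') e := by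
            simp [heS, hb e he hbe]
          rw [this, update_eq_self]; exact ih
      · have : ∀ σ, H G (update (fun e' => if e' ∈ S then J e' else J' e') e (J e)) σ =
            H G (fun e' => if e' ∈ S then J e' else J' e') σ := by
          intro σ
          unfold H
          congr 1
          refine Finset.sum_congr rfl fun u _ => Finset.sum_congr rfl fun v _ => ?_
          by_cases huv : G.Adj u v
          · have : s(u, v) ≠ e := by rintro rfl; exact he huv
            rw [update_of_ne this]
          · simp [huv]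
        simp only [this]; exact ih
  simpa using key Finset.univ

omit [DecidableEq V] in
theorem H_neg (G : SimpleGraph V) [DecidableRel G.Adj] (J : Sym2 V → ℝ) (σ : V → Bool) :
    H G J (neg σ) = H G J σ := by
  simp [H, neg]

theorem H_lattice (G : SimpleGraph V) [DecidableRel G.Adj] (J : Sym2 V → ℝ) (h0 : ∀ e, 0 ≤ J e)
    (x : V) (σ τ : V → Bool) (h : σ ≤ τ) :
    H G J (update σ x true) + H G J (update τ x false) ≤
      H G J (update τ x true) + H G J (update σ x false) := by
  unfold H
  rw [← mul_add, ← mul_add]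
  refine mul_le_mul_of_nonneg_left ?_ (by norm_num)
  simp only [← Finset.sum_add_distrib]
  refine Finset.sum_le_sum fun u _ => Finset.sum_le_sum fun v _ => ?_
  by_cases huv : G.Adj u v
  · simp only [huv, if_true, ← mul_add]
    refine mul_le_mul_of_nonneg_left ?_ (h0 _)
    have hu := h u
    have hv := h v
    by_cases h1 : u = x
    · by_cases h2 : v = x
      · subst h1; subst h2; simp
      · subst h1
        simp only [update_self, update_of_ne h2]
        revert hv
        cases σ v <;> cases τ v <;> simp <;> norm_num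
    · by_cases h2 : v = x
      · subst h2
        simp only [update_self, update_of_ne h1]
        revert hu
        cases σ u <;> cases τ u <;> simp <;> norm_num
      · simp only [update_of_ne h1, update_of_ne h2]
        rw [add_comm]
  · simp [huv]

theorem OP.smul {w : (V → Bool) → ℝ} {c : ℝ} (h : OP w c) (a : ℝ) (ha : 0 ≤ a) :
    OP (fun σ => a * w σ) c := by
  simpa using h.cone h a 0 ha le_rfl

/-- Gibbs measure -/
noncomputable def gibbs (G : SimpleGraph V) [DecidableRel G.Adj] (J : Sym2 V → ℝ)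
    (σ : V → Bool) : ℝ := Real.exp (H G J σ) / ∑ τ, Real.exp (H G J τ)

theorem main (G : SimpleGraph V) [DecidableRel G.Adj] (J J' : Sym2 V → ℝ)
    (h0 : ∀ e, 0 ≤ J e) (hle : ∀ e, J e ≤ J' e)
    (hb : ∀ e ∈ G.edgeSet, ¬ G.IsBridge e → J e = J' e) (c : ℝ)
    (h : ∀ f : (V → Bool) → ℝ, c * ∑ σ, gibbs G J' σ * (f σ - ∑ τ, gibbs G J' τ * f τ) ^ 2 ≤
      ∑ x, ∑ σ, gibbs G J' σ * (f σ - Px (gibbs G J') x f σ) ^ 2) (f : (V → Bool) → ℝ) :
    c * ∑ σ, gibbs G J σ * (f σ - ∑ τ, gibbs G J τ * f τ) ^ 2 ≤
      ∑ x, ∑ σ, gibbs G J σ * (f σ - Px (gibbs G J) x f σ) ^ 2 := by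
  have Z : ∀ K, 0 < ∑ τ, Real.exp (H G K τ) := fun K =>
    Finset.sum_pos (fun _ _ => Real.exp_pos _) Finset.univ_nonempty
  have pos : ∀ K σ, 0 < gibbs G K σ := fun K σ => div_pos (Real.exp_pos _) (Z K)
  have sym : ∀ K σ, gibbs G K (neg σ) = gibbs G K σ := fun K σ => by simp only [gibbs, H_neg]
  have h1 := (OP_of_poincare _ (pos J') (sym J') c h).smul _ (Z J').le
  have e1 : (fun σ => (∑ τ, Real.exp (H G J' τ)) * gibbs G J' σ) =
      fun σ => Real.exp (H G J' σ) := by
    funext σ; have := (Z J').ne'; unfold gibbs; field_simp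
  rw [e1] at h1
  have h2 := (OP_bridges G J J' h0 hle hb c h1).smul _ (inv_pos.2 (Z J)).le
  have e2 : (fun σ => (∑ τ, Real.exp (H G J τ))⁻¹ * Real.exp (H G J σ)) = gibbs G J := by
    funext σ; unfold gibbs; rw [div_eq_inv_mul]
  rw [e2] at h2
  refine poincare_of_OP _ (pos J) (sym J) ?_ ?_ c h2 f
  · unfold gibbs; rw [← Finset.sum_div, div_self (Z J).ne']
  · intro x σ τ hστ
    unfold gibbs
    rw [div_mul_div_comm, div_mul_div_comm, ← Real.exp_add, ← Real.exp_add]
    exact div_le_div_of_nonneg_right (Real.exp_le_exp.2 (H_lattice G J h0 x σ τ hστ))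
      (mul_pos (Z J) (Z J)).le

theorem dir_formula (G : SimpleGraph V) [DecidableRel G.Adj] (J : Sym2 V → ℝ) (a : ℝ)
    (f : (V → Bool) → ℝ) :
    (1 / 2 : ℝ) * ∑ σ, gibbs G J σ * ∑ v, a * ∑ b : Bool, gibbs G J (update σ v b) /
      (gibbs G J (update σ v true) + gibbs G J (update σ v false)) *
      (f σ - f (update σ v b)) ^ 2 =
    a * ∑ x, ∑ σ, gibbs G J σ * (f σ - Px (gibbs G J) x f σ) ^ 2 := by
  have pos : ∀ σ, 0 < gibbs G J σ := fun σ => div_pos (Real.exp_pos _)
    (Finset.sum_pos (fun _ _ => Real.exp_pos _) Finset.univ_nonempty)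
  have e : ∀ x, ∑ σ, gibbs G J σ * (f σ - Px (gibbs G J) x f σ) ^ 2 =
      1 / 2 * ∑ σ, gibbs G J σ * ∑ b : Bool, gibbs G J (update σ x b) /
      (gibbs G J (update σ x true) + gibbs G J (update σ x false)) *
      (f σ - f (update σ x b)) ^ 2 := by
    intro x; rw [dir_eq _ pos]; ring
  simp only [e]
  simp only [Finset.mul_sum (s := (Finset.univ : Finset V)),
    Finset.mul_sum (s := (Finset.univ : Finset (V → Bool)))]
  rw [Finset.sum_comm]
  refine Finset.sum_congr rfl fun x _ => Finset.sum_congr rfl fun σ _ => by ring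

end Pool.Agent.Lib.MP_e532e2_pr
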