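import Mathlib

set_option autoImplicit false

namespace Pool.Agent.Lib.MP_e532e2_pr.Hi

theorem mvt_ge (f f' : ℝ → ℝ) (hf : ∀ y, HasDerivAt f (f' y) y) (y z C : ℝ) (hyz : y ≤ z)
    (h : ∀ s, y ≤ s → s ≤ z → C ≤ f' s) : C * (z - y) ≤ f z - f y := by
  rcases hyz.eq_or_lt with rfl | hlt
  · simp
  obtain ⟨s, hs, e⟩ := exists_hasDerivAt_eq_slope f f' hlt
    (fun x _ => (hf x).continuousAt.continuousWithinAt) (fun x _ => hf x)
  have h1 := h s hs.1.le hs.2.le
  rw [e, le_div_iff₀ (by linarith)] at h1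
  exact h1

theorem mvt_le (f f' : ℝ → ℝ) (hf : ∀ y, HasDerivAt f (f' y) y) (y z C : ℝ) (hyz : y ≤ z)
    (h : ∀ s, y ≤ s → s ≤ z → f' s ≤ C) : f z - f y ≤ C * (z - y) := by
  have := mvt_ge (fun x => - f x) (fun x => - f' x) (fun x => (hf x).neg) y z (-C) hyz
    (fun s h1 h2 => by have := h s h1 h2; linarith)
  linarith

/-- probability of spin plus in local field `y` -/
noncomputable def pr (y : ℝ) : ℝ := Real.exp y / (Real.exp y + Real.exp (-y))

theorem pr_pos (y : ℝ) : 0 < pr y := by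
  unfold pr; positivity

theorem pr_lt (y : ℝ) : pr y < 1 := by
  unfold pr
  have := Real.exp_pos y
  have := Real.exp_pos (-y)
  rw [div_lt_one (by positivity)]; linarith

theorem pr_zero : pr 0 = 1 / 2 := by
  unfold pr; simp; norm_num

theorem pr_deriv (y : ℝ) : HasDerivAt pr (2 * (pr y * (1 - pr y))) y := by
  have h1 := Real.hasDerivAt_exp y
  have h2 : HasDerivAt (fun x : ℝ => Real.exp (-x)) (Real.exp (-y) * (-1)) y :=
    (hasDerivAt_neg y).exp
  have p1 := Real.exp_pos y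
  have p2 := Real.exp_pos (-y)
  have h3 := h1.div (h1.add h2) (by simp only [Pi.add_apply]; positivity)
  refine HasDerivAt.congr_deriv (f := pr) h3 ?_
  unfold pr
  simp only [Pi.add_apply]
  field_simp
  ring

theorem pq_le (y : ℝ) : pr y * (1 - pr y) ≤ 1 / 4 := by nlinarith [sq_nonneg (2 * pr y - 1)]

theorem pq_pos (y : ℝ) : 0 < pr y * (1 - pr y) :=
  mul_pos (pr_pos y) (by linarith [pr_lt y])

theorem pr_up (y z : ℝ) (h : y ≤ z) : pr z - pr y ≤ 1 / 2 * (z - y) :=
  mvt_le pr _ pr_deriv y z _ h fun s _ _ => by linarith [pq_le s]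

theorem pr_mono (y z : ℝ) (h : y ≤ z) : pr y ≤ pr z := by
  have := mvt_ge pr _ pr_deriv y z 0 h fun s _ _ => by linarith [pq_pos s]
  linarith

theorem m_abs (y : ℝ) : |2 * pr y - 1| ≤ |y| := by
  rcases le_total 0 y with h | h
  · have h1 := pr_up 0 y h
    have h2 := pr_mono 0 y h
    rw [pr_zero] at h1 h2
    rw [abs_of_nonneg h, abs_le]; constructor <;> linarith
  · have h1 := pr_up y 0 h
    have h2 := pr_mono y 0 h
    rw [pr_zero] at h1 h2
    rw [abs_of_nonpos h, abs_le]; constructor <;> linarith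

theorem m_bd (y : ℝ) (h1 : -(3 / 8) ≤ y) (h2 : y ≤ 3 / 8) :
    -(3 / 8) ≤ 2 * pr y - 1 ∧ 2 * pr y - 1 ≤ 3 / 8 :=
  abs_le.1 ((m_abs y).trans (abs_le.2 ⟨h1, h2⟩))

theorem pq_ge (y : ℝ) (h1 : -(3 / 8) ≤ y) (h2 : y ≤ 3 / 8) : 55 / 256 ≤ pr y * (1 - pr y) := by
  obtain ⟨a, b⟩ := m_bd y h1 h2
  nlinarith

theorem pr_low (y z : ℝ) (h : y ≤ z) (h1 : -(3 / 8) ≤ y) (h2 : z ≤ 3 / 8) :
    55 / 128 * (z - y) ≤ pr z - pr y :=
  mvt_ge pr _ pr_deriv y z _ h fun s a b => by
    linarith [pq_ge s (by linarith) (by linarith)]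

theorem pq_deriv (y : ℝ) : HasDerivAt (fun x => pr x * (1 - pr x))
    (2 * (pr y * (1 - pr y)) * (1 - 2 * pr y)) y := by
  have h := (pr_deriv y).mul ((pr_deriv y).const_sub 1)
  refine HasDerivAt.congr_deriv (f := fun x => pr x * (1 - pr x)) h ?_
  ring

theorem pq_lip (y z : ℝ) (h : y ≤ z) (h1 : -(3 / 8) ≤ y) (h2 : z ≤ 3 / 8) :
    |pr z * (1 - pr z) - pr y * (1 - pr y)| ≤ 3 / 16 * (z - y) := by
  have a := mvt_le _ _ pq_deriv y z (3 / 16) h fun s a b => by
    obtain ⟨c, d⟩ := m_bd s (by linarith) (by linarith)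
    have := pq_le s
    have := pq_pos s
    nlinarith
  have b := mvt_ge _ _ pq_deriv y z (-(3 / 16)) h fun s a b => by
    obtain ⟨c, d⟩ := m_bd s (by linarith) (by linarith)
    have := pq_le s
    have := pq_pos s
    nlinarith
  rw [abs_le]; constructor <;> linarith

theorem pr_second (y a b : ℝ) (ha : 0 ≤ a) (hb : 0 ≤ b) (h1 : -(3 / 8) ≤ y - a - b)
    (h2 : y + a + b ≤ 3 / 8) :
    |(pr (y + b + a) - pr (y + b - a)) - (pr (y - b + a) - pr (y - b - a))| ≤ 3 / 2 * (a * b) := by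
  have hd : ∀ s, HasDerivAt (fun x => pr (x + a) - pr (x - a))
      (2 * (pr (s + a) * (1 - pr (s + a))) - 2 * (pr (s - a) * (1 - pr (s - a)))) s := by
    intro s
    have e1 := (pr_deriv (s + a)).comp_add_const s a
    have e2 := (pr_deriv (s - a)).comp_sub_const s a
    exact e1.sub e2
  have u := mvt_le _ _ hd (y - b) (y + b) (3 / 4 * a) (by linarith) fun s c d => by
    have := abs_le.1 (pq_lip (s - a) (s + a) (by linarith) (by linarith) (by linarith))
    linarith [this.2]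
  have l := mvt_ge _ _ hd (y - b) (y + b) (-(3 / 4 * a)) (by linarith) fun s c d => by
    have := abs_le.1 (pq_lip (s - a) (s + a) (by linarith) (by linarith) (by linarith))
    linarith [this.1]
  rw [abs_le]; constructor <;> nlinarith

theorem phi_low (t y z : ℝ) (ht : 0 ≤ t) (h : y ≤ z) (h1 : -(3 / 8) ≤ t * y) (h2 : t * z ≤ 3 / 8) :
    3 / 20 * (z - y) ≤ z * (pr (t * z) * (1 - pr (t * z))) - y * (pr (t * y) * (1 - pr (t * y))) := by
  have hd : ∀ s, HasDerivAt (fun x => x * (pr (t * x) * (1 - pr (t * x))))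
      (pr (t * s) * (1 - pr (t * s)) * (1 - 2 * (t * s) * (2 * pr (t * s) - 1))) s := by
    intro s
    have e0 : HasDerivAt (fun x : ℝ => t * x) t s := by simpa using (hasDerivAt_id s).const_mul t
    have e1 := (pq_deriv (t * s)).comp s e0
    have e2 := (hasDerivAt_id s).mul e1
    refine HasDerivAt.congr_deriv (f := fun x => x * (pr (t * x) * (1 - pr (t * x)))) e2 ?_
    simp only [Function.comp, id]
    ring
  refine mvt_ge _ _ hd y z _ h fun s a b => ?_
  have c1 : t * y ≤ t * s := mul_le_mul_of_nonneg_left a ht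
  have c2 : t * s ≤ t * z := mul_le_mul_of_nonneg_left b ht
  obtain ⟨c, d⟩ := m_bd (t * s) (by linarith) (by linarith)
  have e := pq_ge (t * s) (by linarith) (by linarith)
  have f : (t * s) * (2 * pr (t * s) - 1) ≤ 9 / 64 := by nlinarith
  nlinarith

end Pool.Agent.Lib.MP_e532e2_pr.Hi
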