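import Mathlib
import Pool.Agent.Lib.MP_e532e2_pr.Glauber

set_option autoImplicit false

namespace Pool.Agent.Lib.MP_e532e2_pr
open Function

variable {V : Type} [Fintype V] [DecidableEq V]

theorem poincare_of_MP (w : (V → Bool) → ℝ) (hw : ∀ σ, 0 < w σ) (hs : ∀ σ, w (neg σ) = w σ)
    (h1 : ∑ σ, w σ = 1)
    (hm : ∀ x σ τ, σ ≤ τ → w (update σ x true) * w (update τ x false) ≤
      w (update τ x true) * w (update σ x false)) (c : ℝ)
    (h : ∀ u : (V → Bool) → ℝ, (∀ σ, u (neg σ) = - u σ) → Monotone u →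
      c * ∑ σ, w σ * u σ ^ 2 ≤ ∑ x, ∑ σ, w σ * (u σ - Px w x u σ) ^ 2) (f : (V → Bool) → ℝ) :
    c * ∑ σ, w σ * (f σ - ∑ τ, w τ * f τ) ^ 2 ≤ ∑ x, ∑ σ, w σ * (f σ - Px w x f σ) ^ 2 := by
  rcases isEmpty_or_nonempty V with hV | ⟨⟨x₀⟩⟩
  · simp at h1
    simp [h1]
  set Q : ((V → Bool) → ℝ) →ₗ[ℝ] ((V → Bool) → ℝ) := ∑ x, Px w x with hQdef
  set N : ℝ := (Fintype.card V : ℝ) with hN
  have hQa : ∀ u σ, Q u σ = ∑ x, Px w x u σ := by
    intro u σ; simp [hQdef, LinearMap.sum_apply]
  have hQ : ∀ u v, ip w (Q u) v = ip w u (Q v) := by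
    intro u v
    simp only [hQdef, LinearMap.sum_apply, map_sum, Px_selfadj w hw]
  have hQp : ∀ u, 0 ≤ ip w u (Q u) := by
    intro u
    simp only [hQdef, LinearMap.sum_apply, map_sum]
    exact Finset.sum_nonneg fun x _ => by rw [ip_Px w hw]; exact ip_nonneg w hw _
  have hD : ∀ u, ∑ x, ∑ σ, w σ * (u σ - Px w x u σ) ^ 2 = N * ip w u u - ip w u (Q u) := by
    intro u
    simp only [sq_Px w hw, Finset.sum_sub_distrib, hQdef, LinearMap.sum_apply, map_sum]
    simp [hN]
  have hodd : ∀ u : (V → Bool) → ℝ, (∀ σ, u (neg σ) = - u σ) → ∀ σ, Q u (neg σ) = - Q u σ := by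
    intro u hu σ
    rw [hQa, hQa, ← Finset.sum_neg_distrib]
    refine Finset.sum_congr rfl fun x _ => ?_
    have e1 : update (neg σ) x true = neg (update σ x false) := by rw [neg_update]; rfl
    have e2 : update (neg σ) x false = neg (update σ x true) := by rw [neg_update]; rfl
    rw [Px_apply, Px_apply, e1, e2, hs, hs, hu, hu, add_comm (w (update σ x false))]
    ring
  have hOP : ∀ u : (V → Bool) → ℝ, ((∀ σ, u (neg σ) = - u σ) ∧ Monotone u) →
      ip w u (Q u) ≤ (N - c) * ip w u u := by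
    intro u hu
    have := h u hu.1 hu.2
    rw [hD] at this
    have e : ∑ σ, w σ * u σ ^ 2 = ip w u u := by simp only [ip_apply, sq]
    rw [e] at this
    linarith
  have smono : ∀ σ τ : V → Bool, σ ≤ τ → ∀ x,
      (if σ x then (1:ℝ) else -1) ≤ if τ x then (1:ℝ) else -1 := by
    intro σ τ hh x
    have := hh x
    revert this
    cases σ x <;> cases τ x <;> simp
  have hr : 0 ≤ N - c := by
    have e1 := hOP (fun σ => if σ x₀ then 1 else -1)
      ⟨fun σ => by cases h : σ x₀ <;> simp [neg, h], fun σ τ hh => smono σ τ hh x₀⟩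
    have e2 := hQp (fun σ => if σ x₀ then 1 else -1)
    have e3 : ip w (fun σ => if σ x₀ then 1 else -1) (fun σ => if σ x₀ then 1 else -1) = 1 := by
      rw [ip_apply]
      refine Eq.trans (Finset.sum_congr rfl fun σ _ => ?_) h1
      cases σ x₀ <;> simp
    rw [e3] at e1; linarith
  set g : (V → Bool) → ℝ := fun σ => ∑ x, if σ x then (1:ℝ) else -1 with hg
  have godd : ∀ σ, g (neg σ) = - g σ := by
    intro σ
    simp only [hg, ← Finset.sum_neg_distrib]
    refine Finset.sum_congr rfl fun x _ => by cases h : σ x <;> simp [neg, h]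
  have hgk := fun k => (pow_bound (ip w) (ip_symm w) (ip_nonneg w hw) Q hQ hQp
    (fun u => (∀ σ, u (neg σ) = - u σ) ∧ Monotone u)
    (fun u hu => ⟨hodd u hu.1, fun σ τ hh => by
      rw [hQa, hQa]
      exact Finset.sum_le_sum fun x _ => Px_mono w hw hm x _ hu.2 hh⟩) (N - c) hr hOP g
    ⟨godd, fun σ τ hh => Finset.sum_le_sum fun x _ => smono σ τ hh x⟩ k).2
  have gstep : ∀ σ τ : V → Bool, σ ≤ τ → σ ≠ τ → g σ + 2 ≤ g τ := by
    intro σ τ hle hne
    obtain ⟨y, hy⟩ := Function.ne_iff.1 hne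
    have : ∑ x, (if x = y then (2:ℝ) else 0) ≤
        ∑ x, ((if τ x then (1:ℝ) else -1) - (if σ x then (1:ℝ) else -1)) := by
      refine Finset.sum_le_sum fun x _ => ?_
      have hx := hle x
      by_cases hxy : x = y
      · subst hxy
        revert hx hy
        cases σ x <;> cases τ x <;> simp <;> norm_num
      · revert hx
        cases σ x <;> cases τ x <;> simp [hxy]
    rw [Finset.sum_sub_distrib] at this
    simp only [Finset.sum_ite_eq', Finset.mem_univ, if_true] at this
    simp only [hg]; linarith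
  have Qmono : ∀ (k : ℕ) (u : (V → Bool) → ℝ), Monotone u → Monotone ((Q ^ k) u) := by
    intro k u hu
    induction k with
    | zero => simpa using hu
    | succ k ih =>
      rw [pow_succ', Module.End.mul_apply]
      intro σ τ hστ
      rw [hQa, hQa]
      exact Finset.sum_le_sum fun x _ => Px_mono w hw hm x _ ih hστ
  set m := ∑ τ, w τ * f τ with hm'
  set f₀ : (V → Bool) → ℝ := fun σ => f σ - m with hf₀
  set M : ℝ := ∑ σ, |f₀ σ| with hM
  have hMσ : ∀ σ, |f₀ σ| ≤ M := fun σ =>
    Finset.single_le_sum (f := fun σ => |f₀ σ|) (fun _ _ => abs_nonneg _) (Finset.mem_univ σ)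
  have hM0 : 0 ≤ M := Finset.sum_nonneg fun _ _ => abs_nonneg _
  have mono1 : Monotone (M • g + f₀) := by
    intro σ τ hle
    by_cases he : σ = τ
    · rw [he]
    · have := mul_le_mul_of_nonneg_left (gstep σ τ hle he) hM0
      have a1 := abs_le.1 (hMσ σ)
      have a2 := abs_le.1 (hMσ τ)
      simp only [Pi.add_apply, Pi.smul_apply, smul_eq_mul]
      nlinarith
  have mono2 : Monotone (M • g - f₀) := by
    intro σ τ hle
    by_cases he : σ = τ
    · rw [he]
    · have := mul_le_mul_of_nonneg_left (gstep σ τ hle he) hM0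
      have a1 := abs_le.1 (hMσ σ)
      have a2 := abs_le.1 (hMσ τ)
      simp only [Pi.sub_apply, Pi.smul_apply, smul_eq_mul]
      nlinarith
  have Q1 : Q (fun _ => 1) = N • fun _ => 1 := by
    funext σ
    rw [hQa]
    have : ∀ x, Px w x (fun _ => 1) σ = 1 := by
      intro x
      have := hw (update σ x true)
      have := hw (update σ x false)
      rw [Px_apply]; field_simp
    simp [this, hN]
  have mean0 : ∀ k : ℕ, ip w ((Q ^ k) f₀) (fun _ => 1) = 0 := by
    intro k
    induction k with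
    | zero =>
      simp only [pow_zero, Module.End.one_apply, ip_apply, hf₀, mul_one, mul_sub,
        Finset.sum_sub_distrib, ← Finset.sum_mul, h1]
      simp [hm']
    | succ k ih => rw [pow_succ', Module.End.mul_apply, hQ, Q1, map_smul, ih]; simp
  let top : V → Bool := fun _ => true
  have wt := hw top
  have bound : ∀ k : ℕ, ip w ((Q ^ k) f₀) ((Q ^ k) f₀) ≤
      (M ^ 2 * (2 / w top + 2) * ip w g g) * (N - c) ^ (2 * k) := by
    intro k
    have a1 := Qmono k _ mono1
    have a2 := Qmono k _ mono2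
    have a3 := hgk k
    have a4 := mean0 k
    rw [map_add, map_smul] at a1
    rw [map_sub, map_smul] at a2
    generalize (Q ^ k) f₀ = u at *
    generalize (Q ^ k) g = v at *
    have b1 : ∀ σ, (u top - u σ) ^ 2 ≤ M ^ 2 * (2 * v top ^ 2 + 2 * v σ ^ 2) := by
      intro σ
      have c1 := a1 (show σ ≤ top from fun x => by simp [top])
      have c2 := a2 (show σ ≤ top from fun x => by simp [top])
      simp only [Pi.add_apply, Pi.sub_apply, Pi.smul_apply, smul_eq_mul] at c1 c2
      have c3 : (u top - u σ) ^ 2 ≤ (M * (v top - v σ)) ^ 2 :=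
        sq_le_sq' (by linarith) (by linarith)
      have c4 : (v top - v σ) ^ 2 ≤ 2 * v top ^ 2 + 2 * v σ ^ 2 := by
        nlinarith [sq_nonneg (v top + v σ)]
      have := mul_le_mul_of_nonneg_left c4 (sq_nonneg M)
      nlinarith
    have b2 : ∑ σ, w σ * (u top - u σ) ^ 2 = u top ^ 2 + ip w u u := by
      have : ∑ σ, w σ * (u top - u σ) ^ 2 =
          u top ^ 2 * ∑ σ, w σ - 2 * u top * ip w u (fun _ => 1) + ip w u u := by
        simp only [ip_apply, Finset.mul_sum, ← Finset.sum_sub_distrib, ← Finset.sum_add_distrib]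
        refine Finset.sum_congr rfl fun σ _ => by ring
      rw [this, h1, a4]; ring
    have b3 : ∑ σ, w σ * (u top - u σ) ^ 2 ≤ M ^ 2 * (2 * v top ^ 2 + 2 * ip w v v) := by
      have : M ^ 2 * (2 * v top ^ 2 + 2 * ip w v v) =
          ∑ σ, w σ * (M ^ 2 * (2 * v top ^ 2 + 2 * v σ ^ 2)) := by
        have e : M ^ 2 * (2 * v top ^ 2 + 2 * ip w v v) =
          M ^ 2 * (2 * v top ^ 2 * ∑ σ, w σ + 2 * ip w v v) := by rw [h1, mul_one]
        rw [e]
        simp only [ip_apply, Finset.mul_sum, ← Finset.sum_add_distrib]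
        refine Finset.sum_congr rfl fun σ _ => by ring
      rw [this]
      exact Finset.sum_le_sum fun σ _ => mul_le_mul_of_nonneg_left (b1 σ) (hw σ).le
    have b4 : v top ^ 2 ≤ ip w v v / w top := by
      rw [le_div_iff₀ wt, ip_apply]
      have := Finset.single_le_sum (f := fun σ => w σ * (v σ * v σ))
        (fun σ _ => mul_nonneg (hw σ).le (mul_self_nonneg _)) (Finset.mem_univ top)
      nlinarith
    have b5 : ip w u u ≤ M ^ 2 * (2 / w top + 2) * ip w v v := by
      have e : M ^ 2 * (2 / w top + 2) * ip w v v =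
        M ^ 2 * (2 * (ip w v v / w top) + 2 * ip w v v) := by ring
      rw [e]
      have := mul_le_mul_of_nonneg_left
        (show 2 * v top ^ 2 + 2 * ip w v v ≤ 2 * (ip w v v / w top) + 2 * ip w v v by linarith)
        (sq_nonneg M)
      nlinarith [sq_nonneg (u top)]
    have b6 := mul_le_mul_of_nonneg_left a3 (by positivity : 0 ≤ M ^ 2 * (2 / w top + 2))
    calc ip w u u ≤ _ := b5
      _ ≤ _ := b6
      _ = _ := by ring
  have fin := of_pow_bound (ip w) (ip_symm w) (ip_nonneg w hw) Q hQ (N - c) hr f₀ _ bound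
  have e1 : ∑ σ, w σ * (f σ - m) ^ 2 = ip w f₀ f₀ := by simp only [ip_apply, sq, hf₀]
  have e2 : ∑ x, ∑ σ, w σ * (f σ - Px w x f σ) ^ 2 =
      ∑ x, ∑ σ, w σ * (f₀ σ - Px w x f₀ σ) ^ 2 := by
    refine Finset.sum_congr rfl fun x _ => Finset.sum_congr rfl fun σ _ => ?_
    have := hw (update σ x true)
    have := hw (update σ x false)
    have : Px w x f₀ σ = Px w x f σ - m := by
      simp only [Px_apply, hf₀]; field_simp; ring
    rw [this]; simp only [hf₀]; ring
  rw [e1, e2, hD]
  linarith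

end Pool.Agent.Lib.MP_e532e2_pr
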