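import Mathlib
import Pool.Agent.Lib.MP_e532e2_pr.MonoP

set_option autoImplicit false

namespace Pool.Agent.Lib.MP_e532e2_pr.Hi

open Function Finset

variable {V : Type} [Fintype V] [DecidableEq V]

omit [Fintype V] in
theorem Px_odd (w : (V → Bool) → ℝ) (hs : ∀ σ, w (neg σ) = w σ) (x : V) (u : (V → Bool) → ℝ)
    (hu : ∀ σ, u (neg σ) = - u σ) (σ : V → Bool) : Px w x u (neg σ) = - Px w x u σ := by
  have e1 : update (neg σ) x true = neg (update σ x false) := by rw [neg_update]; rfl
  have e2 : update (neg σ) x false = neg (update σ x true) := by rw [neg_update]; rfl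
  rw [Px_apply, Px_apply, e1, e2, hs, hs, hu, hu, add_comm (w (update σ x false))]
  ring

theorem ip_zero (w : (V → Bool) → ℝ) (hw : ∀ σ, 0 < w σ) (u : (V → Bool) → ℝ)
    (h : ip w u u ≤ 0) : u = 0 := by
  funext σ
  have h1 : w σ * (u σ * u σ) ≤ ip w u u :=
    Finset.single_le_sum (f := fun σ => w σ * (u σ * u σ))
      (fun τ _ => mul_nonneg (hw τ).le (mul_self_nonneg _)) (mem_univ σ)
  have h2 : u σ * u σ ≤ 0 := by
    by_contra h3
    push Not at h3
    have := mul_pos (hw σ) h3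
    linarith
  have h3 : u σ * u σ = 0 := le_antisymm h2 (mul_self_nonneg _)
  simpa using h3

theorem exists_eig (x₀ : V) (w : (V → Bool) → ℝ) (hw : ∀ σ, 0 < w σ) (hs : ∀ σ, w (neg σ) = w σ)
    (hm : ∀ x σ τ, σ ≤ τ → w (update σ x true) * w (update τ x false) ≤
      w (update τ x true) * w (update σ x false)) :
    ∃ (f : (V → Bool) → ℝ) (c : ℝ), (∀ σ, f (neg σ) = - f σ) ∧ Monotone f ∧ ip w f f = 1 ∧
      (∀ σ, ∑ x, (f σ - Px w x f σ) = c * f σ) ∧ c ≤ 1 ∧
      ∀ u : (V → Bool) → ℝ, (∀ σ, u (neg σ) = - u σ) → Monotone u →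
        c * ip w u u ≤ ∑ x, ∑ σ, w σ * (u σ - Px w x u σ) ^ 2 := by
  set Q : ((V → Bool) → ℝ) →ₗ[ℝ] ((V → Bool) → ℝ) := ∑ x, Px w x with hQdef
  set N : ℝ := (Fintype.card V : ℝ) with hN
  have hQa : ∀ u σ, Q u σ = ∑ x, Px w x u σ := by
    intro u σ; simp [hQdef, LinearMap.sum_apply]
  have hQ : ∀ u v, ip w (Q u) v = ip w u (Q v) := by
    intro u v
    simp only [hQdef, LinearMap.sum_apply, map_sum, Px_selfadj w hw]
  have hQp : ∀ u, 0 ≤ ip w u (Q u) := by
    intro u
    simp only [hQdef, LinearMap.sum_apply, map_sum]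
    exact Finset.sum_nonneg fun x _ => by rw [ip_Px w hw]; exact ip_nonneg w hw _
  have hD : ∀ u, ∑ x, ∑ σ, w σ * (u σ - Px w x u σ) ^ 2 = N * ip w u u - ip w u (Q u) := by
    intro u
    simp only [sq_Px w hw, Finset.sum_sub_distrib, hQdef, LinearMap.sum_apply, map_sum]
    simp [hN]
  set S : ((V → Bool) → ℝ) → Prop := fun u => (∀ σ, u (neg σ) = - u σ) ∧ Monotone u with hSdef
  have hS : ∀ u, S u → S (Q u) := by
    rintro u ⟨h1, h2⟩
    refine ⟨fun σ => ?_, fun σ τ h => ?_⟩
    · rw [hQa, hQa, ← Finset.sum_neg_distrib]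
      exact Finset.sum_congr rfl fun x _ => Px_odd w hs x u h1 σ
    · rw [hQa, hQa]
      exact Finset.sum_le_sum fun x _ => Px_mono w hw hm x u h2 h
  have hscale : ∀ u, S u → 0 < ip w u u → ∃ a : ℝ, 0 < a ∧ S (a • u) ∧
      ip w (a • u) (a • u) = 1 ∧ a * a * ip w u u = 1 := by
    rintro u ⟨h1, h2⟩ hp
    have hq := Real.sqrt_pos.2 hp
    have e : (√(ip w u u))⁻¹ * (√(ip w u u))⁻¹ * ip w u u = 1 := by
      have := Real.mul_self_sqrt hp.le
      field_simp
      nlinarith
    refine ⟨(√(ip w u u))⁻¹, inv_pos.2 hq, ⟨fun σ => ?_, fun σ τ h => ?_⟩, ?_, e⟩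
    · simp [h1]
    · exact mul_le_mul_of_nonneg_left (h2 h) (inv_pos.2 hq).le
    · simp only [map_smul, LinearMap.smul_apply, smul_eq_mul]
      rw [← mul_assoc]; exact e
  set u₀ : (V → Bool) → ℝ := fun σ => if σ x₀ then 1 else -1 with hu₀
  have hu₀S : S u₀ := by
    refine ⟨fun σ => ?_, fun σ τ h => ?_⟩
    · by_cases h : σ x₀ = true <;> simp [hu₀, neg, h]
    · have := h x₀
      simp only [hu₀]
      revert this
      cases σ x₀ <;> cases τ x₀ <;> simp
  have hu₀p : 0 < ip w u₀ u₀ := by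
    rw [ip_apply]
    refine Finset.sum_pos (fun σ _ => mul_pos (hw σ) ?_) Finset.univ_nonempty
    simp only [hu₀]; cases σ x₀ <;> simp
  have cip : Continuous fun u : (V → Bool) → ℝ => ip w u u := by
    simp only [ip_apply]; fun_prop
  have cQ : Continuous fun u : (V → Bool) → ℝ => ip w u (Q u) := by
    simp only [ip_apply, hQa, Px_apply]; fun_prop
  have hK : IsCompact {u : (V → Bool) → ℝ | S u ∧ ip w u u = 1} := by
    refine (isCompact_univ_pi fun σ : V → Bool =>
      (isCompact_Icc : IsCompact (Set.Icc (-(1 / w σ + 1)) (1 / w σ + 1)))).of_isClosed_subset ?_ ?_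
    · refine IsClosed.inter (IsClosed.inter ?_ ?_) (isClosed_eq cip continuous_const)
      · have : {u : (V → Bool) → ℝ | ∀ σ, u (neg σ) = - u σ} =
            ⋂ σ, {u : (V → Bool) → ℝ | u (neg σ) = - u σ} := by ext; simp
        show IsClosed {u : (V → Bool) → ℝ | ∀ σ, u (neg σ) = - u σ}
        rw [this]
        exact isClosed_iInter fun σ => isClosed_eq (continuous_apply _) (continuous_apply _).neg
      · exact isClosed_monotone
    · rintro u ⟨-, h1⟩ σ -
      have h2 : w σ * (u σ * u σ) ≤ ip w u u :=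
        Finset.single_le_sum (f := fun σ => w σ * (u σ * u σ))
          (fun τ _ => mul_nonneg (hw τ).le (mul_self_nonneg _)) (mem_univ σ)
      rw [h1] at h2
      have h3 : u σ * u σ ≤ 1 / w σ := by rw [le_div_iff₀ (hw σ)]; linarith
      constructor <;> nlinarith [sq_nonneg (u σ - 1), sq_nonneg (u σ + 1), mul_self_nonneg (u σ)]
  obtain ⟨a₀, -, h₀S, h₀1, -⟩ := hscale u₀ hu₀S hu₀p
  obtain ⟨f, ⟨hfS, hf1⟩, hmax⟩ := hK.exists_isMaxOn ⟨a₀ • u₀, h₀S, h₀1⟩ cQ.continuousOn
  set r := ip w f (Q f) with hr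
  have hall : ∀ u, S u → ip w u (Q u) ≤ r * ip w u u := by
    intro u hu
    rcases (ip_nonneg w hw u).eq_or_lt with h0 | h0
    · have : u = 0 := ip_zero w hw u h0.ge
      rw [this]; simp
    · obtain ⟨a, ha, hS', h1, h2⟩ := hscale u hu h0
      have h3 : ip w (a • u) (Q (a • u)) ≤ r := hmax ⟨hS', h1⟩
      simp only [map_smul, LinearMap.smul_apply, smul_eq_mul] at h3
      have h4 := mul_le_mul_of_nonneg_right h3 h0.le
      have h5 : a * (a * ip w u (Q u)) * ip w u u = (a * a * ip w u u) * ip w u (Q u) := by ring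
      rw [h5, h2] at h4
      linarith
  have hp := (pow_bound (ip w) (ip_symm w) (ip_nonneg w hw) Q hQ hQp S hS r (hQp f) hall f hfS 1).2
  rw [pow_one, hf1] at hp
  have hz : Q f - r • f = 0 := by
    refine ip_zero w hw _ ?_
    simp only [map_sub, map_smul, LinearMap.sub_apply, LinearMap.smul_apply, smul_eq_mul]
    rw [ip_symm w (Q f) f, ← hr, hf1]
    have e : r ^ (2 * 1) * 1 = r * r := by ring
    rw [e] at hp
    linarith
  have hall' : ∀ u, S u → (N - r) * ip w u u ≤ ∑ x, ∑ σ, w σ * (u σ - Px w x u σ) ^ 2 := by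
    intro u hu
    rw [hD]
    linarith [hall u hu]
  refine ⟨f, N - r, hfS.1, hfS.2, hf1, fun σ => ?_, ?_, fun u h1 h2 => hall' u ⟨h1, h2⟩⟩
  · have := congrFun hz σ
    simp only [Pi.sub_apply, Pi.smul_apply, smul_eq_mul, Pi.zero_apply, hQa] at this
    rw [Finset.sum_sub_distrib]
    simp only [Finset.sum_const, Finset.card_univ, nsmul_eq_mul]
    linarith
  · have h1 := hall' u₀ hu₀S
    have h2 : ∑ x, ∑ σ, w σ * (u₀ σ - Px w x u₀ σ) ^ 2 = ∑ σ, w σ * (u₀ σ - Px w x₀ u₀ σ) ^ 2 := by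
      refine Finset.sum_eq_single x₀ (fun x _ hx => Finset.sum_eq_zero fun σ _ => ?_) (by simp)
      have a := hw (update σ x true)
      have b := hw (update σ x false)
      have : Px w x u₀ σ = u₀ σ := by
        rw [Px_apply]
        simp only [hu₀, update_of_ne hx.symm]
        field_simp
      rw [this]; simp
    rw [h2, sq_Px w hw, ip_Px w hw] at h1
    have h3 := ip_nonneg w hw (Px w x₀ u₀)
    exact le_of_mul_le_mul_right (by linarith) hu₀p

theorem pair_nonneg (w : (V → Bool) → ℝ) (hw : ∀ σ, 0 < w σ) (x : V) (f g : (V → Bool) → ℝ)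
    (hf : ∀ σ, f (update σ x false) ≤ f (update σ x true))
    (hg : ∀ σ, g (update σ x false) ≤ g (update σ x true)) :
    0 ≤ ∑ σ, w σ * ((f σ - Px w x f σ) * g σ) := by
  have := sum_pair_le x (fun _ => 0) (fun σ => w σ * ((f σ - Px w x f σ) * g σ)) fun σ => by
    simp only [Px_update]
    rw [Px_apply]
    have a := hw (update σ x true)
    have b := hw (update σ x false)
    have c := hf σ
    have d := hg σ
    generalize w (update σ x true) = p at *
    generalize w (update σ x false) = q at *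
    generalize f (update σ x true) = f1 at *
    generalize f (update σ x false) = f2 at *
    generalize g (update σ x true) = g1 at *
    generalize g (update σ x false) = g2 at *
    have e : p * ((f1 - (p * f1 + q * f2) / (p + q)) * g1) +
        q * ((f2 - (p * f1 + q * f2) / (p + q)) * g2) =
        p * q / (p + q) * ((f1 - f2) * (g1 - g2)) := by field_simp; ring
    rw [e, add_zero]
    exact mul_nonneg (by positivity) (mul_nonneg (by linarith) (by linarith))
  simpa using this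

end Pool.Agent.Lib.MP_e532e2_pr.Hi
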