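import Mathlib

set_option autoImplicit false

namespace Pool.Agent.Lib.MP_e532e2_pr.Hi

open Function Finset

variable {V : Type} [Fintype V] [DecidableEq V]

/-- discrete gradient at `x` -/
def gr (x : V) (f : (V → Bool) → ℝ) (σ : V → Bool) : ℝ :=
  f (update σ x true) - f (update σ x false)

/-- resampling of the spin at `y` with probability `r` of plus -/
def av (y : V) (r f : (V → Bool) → ℝ) (σ : V → Bool) : ℝ :=
  r σ * f (update σ y true) + (1 - r σ) * f (update σ y false)

omit [Fintype V] in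
theorem gr_self (x : V) (f : (V → Bool) → ℝ) (σ : V → Bool) : gr x (gr x f) σ = 0 := by
  simp [gr]

omit [Fintype V] in
theorem gr_comm (w x : V) (f : (V → Bool) → ℝ) (σ : V → Bool) :
    gr w (gr x f) σ = gr x (gr w f) σ := by
  by_cases h : w = x
  · rw [h]
  · simp only [gr, update_comm h]; ring

omit [Fintype V] in
theorem gr_upd {w x : V} (h : w ≠ x) (f : (V → Bool) → ℝ) (b : Bool) (σ : V → Bool) :
    gr w (fun τ => f (update τ x b)) σ = gr w f (update σ x b) := by
  simp only [gr, update_comm h]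

omit [Fintype V] in
theorem gr_av {x y : V} (h : x ≠ y) (r f : (V → Bool) → ℝ) (σ : V → Bool) :
    gr x (av y r f) σ = av y (fun τ => r (update τ x true)) (gr x f) σ +
      gr x r σ * gr y f (update σ x false) := by
  simp only [gr, av, update_comm h]; ring

omit [Fintype V] in
theorem gr_av_self (y : V) (r f : (V → Bool) → ℝ) (hr : ∀ σ b, r (update σ y b) = r σ)
    (σ : V → Bool) : gr y (av y r f) σ = 0 := by
  simp [gr, av, hr]

omit [Fintype V] in
theorem gr_mul (w : V) (r f : (V → Bool) → ℝ) (σ : V → Bool) :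
    gr w (fun τ => r τ * f τ) σ =
      r (update σ w true) * gr w f σ + gr w r σ * f (update σ w false) := by
  simp only [gr]; ring

theorem mp_max (S : Finset V) (κ : ℝ) (T src : (V → Bool) → ℝ) (r : V → (V → Bool) → ℝ)
    (h0 : ∀ y σ, 0 ≤ r y σ) (h1 : ∀ y σ, r y σ ≤ 1)
    (h : ∀ σ, κ * T σ + ∑ y ∈ S, (T σ - av y (r y) T σ) = src σ) :
    ∃ σ₀, (∀ σ, T σ ≤ T σ₀) ∧ κ * T σ₀ ≤ src σ₀ := by
  obtain ⟨σ₀, -, hm⟩ := Finset.exists_max_image Finset.univ T Finset.univ_nonempty
  refine ⟨σ₀, fun σ => hm σ (mem_univ _), ?_⟩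
  have : 0 ≤ ∑ y ∈ S, (T σ₀ - av y (r y) T σ₀) := Finset.sum_nonneg fun y _ => by
    have a := hm (update σ₀ y true) (mem_univ _)
    have b := hm (update σ₀ y false) (mem_univ _)
    have c := h0 y σ₀
    have d := h1 y σ₀
    unfold av
    nlinarith
  linarith [h σ₀]

theorem mp_min (S : Finset V) (κ : ℝ) (T src : (V → Bool) → ℝ) (r : V → (V → Bool) → ℝ)
    (h0 : ∀ y σ, 0 ≤ r y σ) (h1 : ∀ y σ, r y σ ≤ 1)
    (h : ∀ σ, κ * T σ + ∑ y ∈ S, (T σ - av y (r y) T σ) = src σ) :
    ∃ σ₀, (∀ σ, T σ₀ ≤ T σ) ∧ src σ₀ ≤ κ * T σ₀ := by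
  obtain ⟨σ₀, -, hm⟩ := Finset.exists_min_image Finset.univ T Finset.univ_nonempty
  refine ⟨σ₀, fun σ => hm σ (mem_univ _), ?_⟩
  have : ∑ y ∈ S, (T σ₀ - av y (r y) T σ₀) ≤ 0 := Finset.sum_nonpos fun y _ => by
    have a := hm (update σ₀ y true) (mem_univ _)
    have b := hm (update σ₀ y false) (mem_univ _)
    have c := h0 y σ₀
    have d := h1 y σ₀
    unfold av
    nlinarith
  linarith [h σ₀]

theorem mp_abs (S : Finset V) (κ M : ℝ) (hκ : 0 ≤ κ) (T src : (V → Bool) → ℝ)
    (r : V → (V → Bool) → ℝ) (h0 : ∀ y σ, 0 ≤ r y σ) (h1 : ∀ y σ, r y σ ≤ 1)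
    (h : ∀ σ, κ * T σ + ∑ y ∈ S, (T σ - av y (r y) T σ) = src σ) (hM : ∀ σ, |src σ| ≤ M)
    (σ : V → Bool) : κ * |T σ| ≤ M := by
  obtain ⟨σ₁, a1, a2⟩ := mp_max S κ T src r h0 h1 h
  obtain ⟨σ₂, b1, b2⟩ := mp_min S κ T src r h0 h1 h
  have c1 := mul_le_mul_of_nonneg_left (a1 σ) hκ
  have c2 := mul_le_mul_of_nonneg_left (b1 σ) hκ
  have d1 := (abs_le.1 (hM σ₁)).2
  have d2 := (abs_le.1 (hM σ₂)).1
  rcases abs_cases (T σ) with ⟨e, -⟩ | ⟨e, -⟩ <;> rw [e] <;> linarith

theorem osc (g : (V → Bool) → ℝ) (B : V → ℝ) (hB : ∀ w σ, |gr w g σ| ≤ B w)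
    (σ τ : V → Bool) : g σ - g τ ≤ ∑ w, B w := by
  have key : ∀ S : Finset V, g (S.piecewise σ τ) - g τ ≤ ∑ w ∈ S, B w := by
    intro S
    induction S using Finset.induction_on with
    | empty => simp
    | insert w S hw ih =>
      rw [Finset.sum_insert hw, Finset.piecewise_insert]
      have h1 := abs_le.1 (hB w (S.piecewise σ τ))
      have h2 : g (update (S.piecewise σ τ) w (σ w)) - g (S.piecewise σ τ) ≤ B w := by
        have h0 : 0 ≤ B w := (abs_nonneg _).trans (hB w σ)
        have e : g (S.piecewise σ τ) =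
            g (update (S.piecewise σ τ) w ((S.piecewise σ τ) w)) := by simp
        rw [e]
        unfold gr at h1
        cases σ w <;> cases (S.piecewise σ τ) w <;> linarith [h1.1, h1.2]
      linarith
  simpa using key Finset.univ

section main

variable (P : V → (V → Bool) → ℝ) (f : (V → Bool) → ℝ) (c : ℝ)

theorem first (hi : ∀ y σ b, P y (update σ y b) = P y σ)
    (he : ∀ σ, ∑ y, (f σ - av y (P y) f σ) = c * f σ) (x : V) (σ : V → Bool) :
    (1 - c) * gr x f σ + ∑ y ∈ univ.erase x,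
      (gr x f σ - av y (fun τ => P y (update τ x true)) (gr x f) σ) =
      ∑ y, gr x (P y) σ * gr y f (update σ x false) := by
  have h1 : c * gr x f σ = ∑ y, (gr x f σ - gr x (av y (P y) f) σ) := by
    have a := he (update σ x true)
    have b := he (update σ x false)
    have : c * gr x f σ = c * f (update σ x true) - c * f (update σ x false) := by
      unfold gr; ring
    rw [this, ← a, ← b, ← Finset.sum_sub_distrib]
    refine Finset.sum_congr rfl fun y _ => ?_
    unfold gr; ring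
  rw [← Finset.add_sum_erase _ _ (mem_univ x), gr_av_self x _ _ (hi x)] at h1
  rw [← Finset.add_sum_erase _ (fun y => gr x (P y) σ * gr y f (update σ x false)) (mem_univ x)]
  have h2 : gr x (P x) σ = 0 := by simp [gr, hi]
  have h3 : ∑ y ∈ univ.erase x, (gr x f σ - gr x (av y (P y) f) σ) =
      ∑ y ∈ univ.erase x, (gr x f σ - av y (fun τ => P y (update τ x true)) (gr x f) σ) -
      ∑ y ∈ univ.erase x, gr x (P y) σ * gr y f (update σ x false) := by
    rw [← Finset.sum_sub_distrib]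
    refine Finset.sum_congr rfl fun y hy => ?_
    rw [gr_av (Finset.ne_of_mem_erase hy).symm]; ring
  rw [h2]
  linarith

theorem second (hi : ∀ y σ b, P y (update σ y b) = P y σ)
    (he : ∀ σ, ∑ y, (f σ - av y (P y) f σ) = c * f σ) {w x : V} (hwx : w ≠ x) (σ : V → Bool) :
    (2 - c) * gr w (gr x f) σ + ∑ y ∈ (univ.erase x).erase w,
      (gr w (gr x f) σ - av y (fun τ => P y (update (update τ w true) x true)) (gr w (gr x f)) σ) =
      ∑ y ∈ (univ.erase x).erase w,
        gr w (P y) (update σ x true) * gr y (gr x f) (update σ w false) +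
      ∑ y, (gr x (P y) (update σ w true) * gr w (gr y f) (update σ x false) +
        gr w (gr x (P y)) σ * gr y f (update (update σ w false) x false)) := by
  have a := first P f c hi he x (update σ w true)
  have b := first P f c hi he x (update σ w false)
  have h1 : (1 - c) * gr w (gr x f) σ + ∑ y ∈ univ.erase x,
      (gr w (gr x f) σ - gr w (av y (fun τ => P y (update τ x true)) (gr x f)) σ) =
      ∑ y, gr w (fun τ => gr x (P y) τ * gr y f (update τ x false)) σ := by
    have e1 : ∑ y ∈ univ.erase x,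
        (gr w (gr x f) σ - gr w (av y (fun τ => P y (update τ x true)) (gr x f)) σ) =
        ∑ y ∈ univ.erase x, (gr x f (update σ w true) -
          av y (fun τ => P y (update τ x true)) (gr x f) (update σ w true)) -
        ∑ y ∈ univ.erase x, (gr x f (update σ w false) -
          av y (fun τ => P y (update τ x true)) (gr x f) (update σ w false)) := by
      rw [← Finset.sum_sub_distrib]
      refine Finset.sum_congr rfl fun y _ => ?_
      rw [gr, gr.eq_1 w (av _ _ _)]; ring
    have e2 : ∑ y, gr w (fun τ => gr x (P y) τ * gr y f (update τ x false)) σ =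
        ∑ y, gr x (P y) (update σ w true) * gr y f (update (update σ w true) x false) -
        ∑ y, gr x (P y) (update σ w false) * gr y f (update (update σ w false) x false) := by
      rw [← Finset.sum_sub_distrib]
      rfl
    rw [e1, e2, gr.eq_1 w (gr x f)]
    linarith
  have hw : w ∈ univ.erase x := Finset.mem_erase.2 ⟨hwx, mem_univ _⟩
  rw [← Finset.add_sum_erase _ _ hw, gr_av_self w _ _ (fun τ b => by
    rw [update_comm hwx, hi])] at h1
  have h3 : ∑ y ∈ (univ.erase x).erase w,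
      (gr w (gr x f) σ - gr w (av y (fun τ => P y (update τ x true)) (gr x f)) σ) =
      ∑ y ∈ (univ.erase x).erase w, (gr w (gr x f) σ -
        av y (fun τ => P y (update (update τ w true) x true)) (gr w (gr x f)) σ) -
      ∑ y ∈ (univ.erase x).erase w,
        gr w (P y) (update σ x true) * gr y (gr x f) (update σ w false) := by
    rw [← Finset.sum_sub_distrib]
    refine Finset.sum_congr rfl fun y hy => ?_
    rw [gr_av (Finset.ne_of_mem_erase hy).symm, gr_upd hwx]; ring
  have h4 : ∑ y, gr w (fun τ => gr x (P y) τ * gr y f (update τ x false)) σ =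
      ∑ y, (gr x (P y) (update σ w true) * gr w (gr y f) (update σ x false) +
        gr w (gr x (P y)) σ * gr y f (update (update σ w false) x false)) := by
    refine Finset.sum_congr rfl fun y _ => ?_
    rw [gr_mul, gr_upd hwx]
  rw [h3, h4] at h1
  linarith

theorem harnack (b : V → V → ℝ) (hi : ∀ y σ b, P y (update σ y b) = P y σ)
    (h0 : ∀ y σ, 0 ≤ P y σ) (h1 : ∀ y σ, P y σ ≤ 1)
    (hb : ∀ x y, 0 ≤ b x y) (hrow : ∀ x, ∑ y, b x y ≤ 3 / 8) (hcol : ∀ y, ∑ x, b x y ≤ 3 / 8)
    (hlo : ∀ x y σ, 55 / 64 * b x y ≤ gr x (P y) σ) (hup : ∀ x y σ, gr x (P y) σ ≤ b x y)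
    (h2 : ∀ w x y σ, w ≠ x → |gr w (gr x (P y)) σ| ≤ 3 / 2 * (b x y * b w y))
    (he : ∀ σ, ∑ y, (f σ - av y (P y) f σ) = c * f σ) (hc : c ≤ 1)
    (hf : ∀ x σ, 0 ≤ gr x f σ) (hne : ∃ x σ, 0 < gr x f σ) :
    5 / 8 ≤ c ∧ ∃ (lo : V → ℝ) (B : V → V → ℝ), (∀ x, 0 ≤ lo x) ∧ (∀ x σ, lo x ≤ gr x f σ) ∧
      (∀ w x σ, |gr w (gr x f) σ| ≤ B w x) ∧
      ∀ w, ∑ x, B w x ≤ 29 / 10 * ∑ y, b w y * lo y := by
  have hδ : ∀ x y σ, 0 ≤ gr x (P y) σ := fun x y σ =>
    le_trans (mul_nonneg (by norm_num) (hb x y)) (hlo x y σ)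
  have F := first P f c hi he
  have Fmax := fun x => mp_max _ _ _ _ (fun y τ => P y (update τ x true)) (fun y τ => h0 y _)
    (fun y τ => h1 y _) (F x)
  have Fmin := fun x => mp_min _ _ _ _ (fun y τ => P y (update τ x true)) (fun y τ => h0 y _)
    (fun y τ => h1 y _) (F x)
  choose sM hM1 hM2 using Fmax
  choose sm hm1 hm2 using Fmin
  have hg : 1 - c ≤ 3 / 8 := by
    obtain ⟨x₁, σ₁, hpos⟩ := hne
    obtain ⟨x₀, -, hx⟩ := Finset.exists_max_image Finset.univ (fun x => gr x f (sM x))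
      ⟨x₁, mem_univ _⟩
    have hΩ : 0 < gr x₀ f (sM x₀) := hpos.trans_le ((hM1 x₁ σ₁).trans (hx x₁ (mem_univ _)))
    have a : ∑ y, gr x₀ (P y) (sM x₀) * gr y f (update (sM x₀) x₀ false) ≤
        ∑ y, b x₀ y * gr x₀ f (sM x₀) := Finset.sum_le_sum fun y _ =>
      mul_le_mul (hup _ _ _) ((hM1 y _).trans (hx y (mem_univ _))) (hf _ _) (hb _ _)
    rw [← Finset.sum_mul] at a
    have a2 := mul_le_mul_of_nonneg_right (hrow x₀) hΩ.le
    have a3 := hM2 x₀
    exact le_of_mul_le_mul_right (by linarith) hΩ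
  refine ⟨by linarith, ?_⟩
  set lo : V → ℝ := fun x => gr x f (sm x) with hlodef
  have lo0 : ∀ x, 0 ≤ lo x := fun x => hf _ _
  have sup : ∀ x, 55 / 64 * ∑ y, b x y * lo y ≤ (1 - c) * lo x := by
    intro x
    refine le_trans ?_ (hm2 x)
    rw [Finset.mul_sum]
    refine Finset.sum_le_sum fun y _ => ?_
    rw [← mul_assoc]
    exact mul_le_mul (hlo _ _ _) (hm1 y _) (lo0 y) (hδ _ _ _)
  have hB : ∀ w x, ∃ σ₀, ∀ σ, |gr w (gr x f) σ| ≤ |gr w (gr x f) σ₀| := fun w x => by
    obtain ⟨σ₀, -, h⟩ := Finset.exists_max_image Finset.univ (fun σ => |gr w (gr x f) σ|)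
      Finset.univ_nonempty
    exact ⟨σ₀, fun σ => h σ (mem_univ _)⟩
  choose sB hsB using hB
  set B : V → V → ℝ := fun w x => |gr w (gr x f) (sB w x)| with hBdef
  have B0 : ∀ w x, 0 ≤ B w x := fun w x => abs_nonneg _
  have Bs : ∀ w x, B w x = B x w := by
    have : ∀ w x, B w x ≤ B x w := fun w x => by
      have := hsB x w (sB w x)
      rw [gr_comm] at this
      exact this
    exact fun w x => le_antisymm (this w x) (this x w)
  set N : V → ℝ := fun x => ∑ w, B w x with hN
  have N0 : ∀ x, 0 ≤ N x := fun x => Finset.sum_nonneg fun w _ => B0 w x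
  have hosc : ∀ y σ, gr y f σ ≤ lo y + N y := fun y σ => by
    have := osc (gr y f) (fun w => B w y) (fun w σ => hsB w y σ) σ (sm y)
    simp only [hlodef, hN]
    linarith
  have S2 : ∀ w x, (2 - c) * B w x ≤ ∑ y, b w y * B y x +
      ∑ y, (b x y * B w y + 3 / 2 * (b x y * b w y) * (lo y + N y)) := by
    intro w x
    by_cases hwx : w = x
    · have : B w x = 0 := by simp only [hBdef, hwx, gr_self, abs_zero]
      rw [this, mul_zero]
      refine add_nonneg (Finset.sum_nonneg fun y _ => mul_nonneg (hb _ _) (B0 _ _))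
        (Finset.sum_nonneg fun y _ => add_nonneg (mul_nonneg (hb _ _) (B0 _ _)) ?_)
      exact mul_nonneg (mul_nonneg (by norm_num) (mul_nonneg (hb _ _) (hb _ _)))
        (add_nonneg (lo0 y) (N0 y))
    · refine mp_abs _ (2 - c) _ (by linarith) _ _
        (fun y τ => P y (update (update τ w true) x true)) (fun y τ => h0 y _)
        (fun y τ => h1 y _) (second P f c hi he hwx) (fun σ => ?_) _
      refine (abs_add_le _ _).trans (add_le_add ?_ ?_)
      · refine (Finset.abs_sum_le_sum_abs _ _).trans ?_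
        refine le_trans (Finset.sum_le_sum (g := fun y => b w y * B y x) fun y _ => ?_)
          (Finset.sum_le_sum_of_subset_of_nonneg (Finset.subset_univ _)
            fun y _ _ => mul_nonneg (hb _ _) (B0 _ _))
        rw [abs_mul, abs_of_nonneg (hδ _ _ _)]
        exact mul_le_mul (hup _ _ _) (hsB _ _ _) (abs_nonneg _) (hb _ _)
      · refine (Finset.abs_sum_le_sum_abs _ _).trans (Finset.sum_le_sum fun y _ => ?_)
        refine (abs_add_le _ _).trans (add_le_add ?_ ?_)
        · rw [abs_mul, abs_of_nonneg (hδ _ _ _)]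
          exact mul_le_mul (hup _ _ _) (hsB _ _ _) (abs_nonneg _) (hb _ _)
        · rw [abs_mul, abs_of_nonneg (hf _ _)]
          exact mul_le_mul (h2 _ _ _ _ hwx) (hosc _ _) (hf _ _)
            (mul_nonneg (by norm_num) (mul_nonneg (hb _ _) (hb _ _)))
  have S3 : ∀ x, (13 / 8 - c) * N x ≤
      25 / 16 * ∑ y, b x y * N y + 9 / 16 * ∑ y, b x y * lo y := by
    intro x
    have a := Finset.sum_le_sum fun w (_ : w ∈ univ) => S2 w x
    rw [← Finset.mul_sum, Finset.sum_add_distrib] at a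
    have a1 : ∑ w, ∑ y, b w y * B y x ≤ 3 / 8 * N x := by
      rw [Finset.sum_comm]
      simp only [hN]
      rw [Finset.mul_sum]
      refine Finset.sum_le_sum fun y _ => ?_
      rw [← Finset.sum_mul]
      exact mul_le_mul_of_nonneg_right (hcol y) (B0 _ _)
    have a2 : ∑ w, ∑ y, (b x y * B w y + 3 / 2 * (b x y * b w y) * (lo y + N y)) ≤
        ∑ y, (25 / 16 * (b x y * N y) + 9 / 16 * (b x y * lo y)) := by
      rw [Finset.sum_comm]
      refine Finset.sum_le_sum fun y _ => ?_
      have e : ∑ w, (b x y * B w y + 3 / 2 * (b x y * b w y) * (lo y + N y)) =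
          b x y * N y + (∑ w, b w y) * (3 / 2 * (b x y * (lo y + N y))) := by
        simp only [hN]
        rw [Finset.sum_add_distrib, Finset.mul_sum, Finset.sum_mul]
        congr 1
        refine Finset.sum_congr rfl fun w _ => by ring
      have e2 := mul_le_mul_of_nonneg_right (hcol y)
        (mul_nonneg (by norm_num : (0:ℝ) ≤ 3 / 2) (mul_nonneg (hb x y) (add_nonneg (lo0 y) (N0 y))))
      rw [e]
      linarith
    rw [Finset.sum_add_distrib, ← Finset.mul_sum, ← Finset.mul_sum] at a2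
    have : ∑ w, B w x = N x := rfl
    rw [this] at a
    linarith
  have S4 : ∀ x, N x ≤ 4 / 5 * lo x := by
    obtain ⟨x₁, -⟩ := hne
    obtain ⟨x₀, -, hx⟩ := Finset.exists_max_image Finset.univ (fun x => N x - 4 / 5 * lo x)
      ⟨x₁, mem_univ _⟩
    suffices h : N x₀ - 4 / 5 * lo x₀ ≤ 0 by
      intro x
      have := hx x (mem_univ _)
      linarith
    by_contra hu
    push Not at hu
    have a : ∑ y, b x₀ y * N y ≤
        ∑ y, (b x₀ y * (N x₀ - 4 / 5 * lo x₀) + 4 / 5 * (b x₀ y * lo y)) :=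
      Finset.sum_le_sum fun y _ => by
        have := mul_le_mul_of_nonneg_left (hx y (mem_univ _)) (hb x₀ y)
        linarith
    rw [Finset.sum_add_distrib, ← Finset.sum_mul, ← Finset.mul_sum] at a
    have a2 := mul_le_mul_of_nonneg_right (hrow x₀) hu.le
    have a3 := S3 x₀
    have a4 := sup x₀
    have a5 := lo0 x₀
    have a6 := mul_le_mul_of_nonneg_right hg a5
    have a7 := mul_nonneg (by linarith : 0 ≤ 1 - c) hu.le
    nlinarith
  refine ⟨lo, B, lo0, fun x σ => hm1 x σ, hsB, fun w => ?_⟩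
  have e : ∑ x, B w x = N w := Finset.sum_congr rfl fun x _ => Bs w x
  have a : ∑ y, b w y * N y ≤ ∑ y, 4 / 5 * (b w y * lo y) := Finset.sum_le_sum fun y _ => by
    have := mul_le_mul_of_nonneg_left (S4 y) (hb w y)
    linarith
  rw [← Finset.mul_sum] at a
  have a3 := S3 w
  have a7 := mul_nonneg (by linarith : 0 ≤ 1 - c) (N0 w)
  rw [e]
  linarith

end main

end Pool.Agent.Lib.MP_e532e2_pr.Hi
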