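import Mathlib
import Pool.Agent.Lib.MP_e532e2_pr.Bridge
import Pool.Agent.Lib.MP_e532e2_pr.HiCalc
import Pool.Agent.Lib.MP_e532e2_pr.HiGrad
import Pool.Agent.Lib.MP_e532e2_pr.HiEig

set_option autoImplicit false

namespace Pool.Agent.Lib.MP_e532e2_pr.Hi

open Function Finset

variable {V : Type} [Fintype V] [DecidableEq V]

/-- spin value -/
def sp (b : Bool) : ℝ := if b then 1 else -1

/-- local field -/
def hf (a : V → V → ℝ) (v : V) (σ : V → Bool) : ℝ := ∑ u, a v u * sp (σ u)

/-- quadratic energy -/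
noncomputable def En (a : V → V → ℝ) (σ : V → Bool) : ℝ :=
  1 / 2 * ∑ u, ∑ v, a u v * (sp (σ u) * sp (σ v))

/-- unnormalised Gibbs weight -/
noncomputable def Wt (a : V → V → ℝ) (t : ℝ) (σ : V → Bool) : ℝ := Real.exp (t * En a σ)

omit [Fintype V] in
theorem sp_upd (σ : V → Bool) (x u : V) :
    sp (update σ x true u) = sp (update σ x false u) + if u = x then 2 else 0 := by
  by_cases h : u = x
  · subst h; simp [sp]; norm_num
  · simp [h]

theorem hf_upd (a : V → V → ℝ) (v x : V) (σ : V → Bool) :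
    hf a v (update σ x true) = hf a v (update σ x false) + 2 * a v x := by
  unfold hf
  simp only [sp_upd σ x, mul_add, Finset.sum_add_distrib, mul_ite, mul_zero,
    Finset.sum_ite_eq', mem_univ, if_true]
  ring

theorem hf_self (a : V → V → ℝ) (ha : ∀ v, a v v = 0) (v : V) (σ : V → Bool) (b : Bool) :
    hf a v (update σ v b) = hf a v σ := by
  unfold hf
  refine Finset.sum_congr rfl fun u _ => ?_
  by_cases h : u = v
  · subst h; simp [ha]
  · simp [h]

omit [DecidableEq V] in
theorem hf_abs (a : V → V → ℝ) (h0 : ∀ u v, 0 ≤ a u v) (v : V) (σ : V → Bool) :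
    |hf a v σ| ≤ ∑ u, a v u := by
  refine (Finset.abs_sum_le_sum_abs _ _).trans (Finset.sum_le_sum fun u _ => ?_)
  rw [abs_mul, abs_of_nonneg (h0 _ _)]
  cases σ u <;> simp [sp]

omit [DecidableEq V] in
theorem hf_mono (a : V → V → ℝ) (h0 : ∀ u v, 0 ≤ a u v) (v : V) (σ τ : V → Bool) (h : σ ≤ τ) :
    hf a v σ ≤ hf a v τ := by
  refine Finset.sum_le_sum fun u _ => mul_le_mul_of_nonneg_left ?_ (h0 _ _)
  have := h u
  revert this
  cases σ u <;> cases τ u <;> simp [sp]

theorem En_upd (a : V → V → ℝ) (ha : ∀ v, a v v = 0) (hs : ∀ u v, a u v = a v u) (x : V)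
    (σ : V → Bool) : En a (update σ x true) = En a (update σ x false) + 2 * hf a x σ := by
  rw [← hf_self a ha x σ false]
  unfold En hf
  simp only [sp_upd σ x]
  generalize (fun u => sp (update σ x false u)) = s at *
  have e : ∀ u v, a u v * ((sp (update σ x false u) + if u = x then 2 else 0) *
      (sp (update σ x false v) + if v = x then 2 else 0)) =
      a u v * (sp (update σ x false u) * sp (update σ x false v)) +
      (if u = x then 2 * (a x v * sp (update σ x false v)) else 0) +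
      (if v = x then 2 * (a x u * sp (update σ x false u)) else 0) := by
    intro u v
    by_cases h1 : u = x
    · by_cases h2 : v = x
      · subst h1; subst h2; simp [ha]
      · subst h1; simp only [h2, if_true, if_false]; ring
    · by_cases h2 : v = x
      · subst h2; simp only [h1, if_true, if_false, hs u v]; ring
      · simp only [h1, h2, if_false]; ring
  simp only [e, Finset.sum_add_distrib, Finset.sum_ite_eq', mem_univ, if_true]
  rw [Finset.sum_comm (f := fun u v => if u = x then 2 * (a x v * sp (update σ x false v)) else 0)]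
  simp only [Finset.sum_ite_eq', mem_univ, if_true, ← Finset.mul_sum]
  ring

omit [DecidableEq V] in
theorem Wt_pos (a : V → V → ℝ) (t : ℝ) (σ : V → Bool) : 0 < Wt a t σ := Real.exp_pos _

omit [DecidableEq V] in
theorem Wt_neg (a : V → V → ℝ) (t : ℝ) (σ : V → Bool) : Wt a t (neg σ) = Wt a t σ := by
  have : ∀ b, sp (!b) = - sp b := fun b => by cases b <;> simp [sp]
  simp only [Wt, En, neg, this, neg_mul_neg]

theorem Px_av (a : V → V → ℝ) (ha : ∀ v, a v v = 0) (hs : ∀ u v, a u v = a v u) (t : ℝ) (x : V)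
    (f : (V → Bool) → ℝ) (σ : V → Bool) :
    Px (Wt a t) x f σ = av x (fun τ => pr (t * hf a x τ)) f σ := by
  rw [Px_apply]
  unfold av pr Wt
  beta_reduce
  rw [En_upd a ha hs, mul_add, Real.exp_add, Real.exp_neg]
  have e : Real.exp (t * (2 * hf a x σ)) = Real.exp (t * hf a x σ) ^ 2 := by
    rw [← Real.exp_nat_mul]; congr 1; push_cast; ring
  rw [e]
  have := Real.exp_pos (t * hf a x σ)
  have := Real.exp_pos (t * En a (update σ x false))
  field_simp
  ring

theorem Wt_lat (a : V → V → ℝ) (ha : ∀ v, a v v = 0) (hs : ∀ u v, a u v = a v u)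
    (h0 : ∀ u v, 0 ≤ a u v) (t : ℝ) (ht : 0 ≤ t) (x : V) (σ τ : V → Bool) (h : σ ≤ τ) :
    Wt a t (update σ x true) * Wt a t (update τ x false) ≤
      Wt a t (update τ x true) * Wt a t (update σ x false) := by
  unfold Wt
  rw [← Real.exp_add, ← Real.exp_add, En_upd a ha hs, En_upd a ha hs]
  have := mul_le_mul_of_nonneg_left (hf_mono a h0 x σ τ h) ht
  exact Real.exp_le_exp.2 (by linarith)

theorem sign (a : V → V → ℝ) (ha : ∀ v, a v v = 0) (hs : ∀ u v, a u v = a v u)
    (h0 : ∀ u v, 0 ≤ a u v) (Δ t : ℝ) (hΔ : ∀ v, ∑ u, a v u ≤ Δ) (ht : 0 ≤ t) (htΔ : t * Δ ≤ 3 / 8)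
    (f : (V → Bool) → ℝ) (c : ℝ) (hodd : ∀ σ, f (neg σ) = - f σ) (hm : Monotone f)
    (h1 : ip (Wt a t) f f = 1) (he : ∀ σ, ∑ x, (f σ - Px (Wt a t) x f σ) = c * f σ) (hc : c ≤ 1) :
    0 ≤ ∑ σ, Wt a t σ * (f σ * ∑ x,
      (hf a x σ * (pr (t * hf a x σ) * (1 - pr (t * hf a x σ)))) * gr x f σ) := by
  have hb : ∀ v σ, -(3 / 8) ≤ t * hf a v σ ∧ t * hf a v σ ≤ 3 / 8 := by
    intro v σ
    have h := abs_le.1 ((hf_abs a h0 v σ).trans (hΔ v))
    have a1 := mul_le_mul_of_nonneg_left h.1 ht
    have a2 := mul_le_mul_of_nonneg_left h.2 ht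
    constructor <;> linarith
  have hgr : ∀ x σ, 0 ≤ gr x f σ := fun x σ =>
    sub_nonneg.2 (hm (update_le_update_iff.2 ⟨by simp, fun j _ => le_rfl⟩))
  have hne : ∃ x σ, 0 < gr x f σ := by
    by_contra h
    push Not at h
    have hz : ∀ σ τ, f σ - f τ ≤ 0 := fun σ τ => by
      have := osc f (fun _ => 0) (fun w σ => by rw [le_antisymm (h w σ) (hgr w σ)]; simp) σ τ
      simpa using this
    have hf0 : f = 0 := by
      funext σ
      have a1 := hz σ (neg σ)
      have a2 := hz (neg σ) σ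
      rw [hodd] at a1 a2
      simp only [Pi.zero_apply]; linarith
    rw [hf0] at h1
    simp at h1
  obtain ⟨hc0, lo, B, lo0, hlo, hB, hN⟩ := harnack (fun y τ => pr (t * hf a y τ)) f c
    (fun x y => t * a y x) (fun y σ b => by simp only [hf_self a ha])
    (fun y σ => (pr_pos _).le) (fun y σ => (pr_lt _).le)
    (fun x y => mul_nonneg ht (h0 _ _))
    (fun x => by
      rw [← Finset.mul_sum]
      simp only [fun y => hs y x]
      exact (mul_le_mul_of_nonneg_left (hΔ x) ht).trans htΔ)
    (fun y => by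
      rw [← Finset.mul_sum]
      exact (mul_le_mul_of_nonneg_left (hΔ y) ht).trans htΔ)
    (fun x y σ => by
      have e := hf_upd a y x σ
      have p := mul_nonneg ht (h0 y x)
      have := pr_low (t * hf a y (update σ x false)) (t * hf a y (update σ x true))
        (by rw [e]; linarith) (hb _ _).1 (hb _ _).2
      have e2 : t * hf a y (update σ x true) - t * hf a y (update σ x false) = 2 * (t * a y x) := by
        rw [e]; ring
      rw [e2] at this
      unfold gr
      linarith)
    (fun x y σ => by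
      have e := hf_upd a y x σ
      have p := mul_nonneg ht (h0 y x)
      have := pr_up (t * hf a y (update σ x false)) (t * hf a y (update σ x true))
        (by rw [e]; linarith)
      have e2 : t * hf a y (update σ x true) - t * hf a y (update σ x false) = 2 * (t * a y x) := by
        rw [e]; ring
      rw [e2] at this
      unfold gr
      linarith)
    (fun w x y σ hwx => by
      have e1 := hf_upd a y x (update σ w true)
      have e2 := hf_upd a y x (update σ w false)
      have e3 := hf_upd a y w (update σ x false)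
      rw [← update_comm hwx, ← update_comm hwx] at e3
      have l := (hb y (update (update σ w false) x false)).1
      have u := (hb y (update (update σ w true) x true)).2
      have := pr_second (t * hf a y (update (update σ w false) x false) + t * a y x + t * a y w)
        (t * a y x) (t * a y w) (mul_nonneg ht (h0 _ _)) (mul_nonneg ht (h0 _ _)) (by linarith)
        (by rw [e1, e3] at u; linarith)
      unfold gr
      beta_reduce
      rw [e1, e2, e3]
      convert this using 5 <;> ring)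
    (fun σ => by simp only [← Px_av a ha hs]; exact he σ) hc hgr hne
  set G : (V → Bool) → ℝ := fun σ => ∑ x,
    (hf a x σ * (pr (t * hf a x σ) * (1 - pr (t * hf a x σ)))) * gr x f σ with hG
  have hGm : ∀ w σ, G (update σ w false) ≤ G (update σ w true) := by
    intro w σ
    have key : ∀ x, 3 / 10 * (a x w * lo x) - Δ / 4 * B w x ≤
        gr w (fun σ => (hf a x σ * (pr (t * hf a x σ) * (1 - pr (t * hf a x σ)))) * gr x f σ) σ := by
      intro x
      rw [gr_mul]
      have e := hf_upd a x w σ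
      have p1 := phi_low t (hf a x (update σ w false)) (hf a x (update σ w true)) ht
        (by rw [e]; linarith [h0 x w]) (hb _ _).1 (hb _ _).2
      have p2 : 3 / 10 * a x w ≤
          gr w (fun σ => hf a x σ * (pr (t * hf a x σ) * (1 - pr (t * hf a x σ)))) σ := by
        unfold gr
        have e2 : hf a x (update σ w true) - hf a x (update σ w false) = 2 * a x w := by
          rw [e]; ring
        rw [e2] at p1
        linarith
      have p3 := mul_le_mul p2 (hlo x (update σ w false)) (lo0 x)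
        (le_trans (mul_nonneg (by norm_num) (h0 x w)) p2)
      have p4 : |hf a x (update σ w true) * (pr (t * hf a x (update σ w true)) *
          (1 - pr (t * hf a x (update σ w true)))) * gr w (gr x f) σ| ≤ Δ / 4 * B w x := by
        have q := (hf_abs a h0 x (update σ w true)).trans (hΔ x)
        have q0 : 0 ≤ Δ := (abs_nonneg _).trans q
        rw [abs_mul, abs_mul, abs_of_pos (pq_pos _)]
        refine mul_le_mul ?_ (hB w x σ) (abs_nonneg _) (by linarith)
        have := mul_le_mul q (pq_le (t * hf a x (update σ w true))) (pq_pos _).le q0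
        linarith
      linarith [(abs_le.1 p4).1]
    have s := Finset.sum_le_sum fun x (_ : x ∈ univ) => key x
    have e : ∑ x, gr w (fun σ => (hf a x σ * (pr (t * hf a x σ) * (1 - pr (t * hf a x σ)))) *
        gr x f σ) σ = G (update σ w true) - G (update σ w false) := by
      simp only [hG, ← Finset.sum_sub_distrib]
      rfl
    rw [e, Finset.sum_sub_distrib, ← Finset.mul_sum, ← Finset.mul_sum] at s
    have n := hN w
    have e3 : ∑ y, t * a y w * lo y = t * ∑ y, a y w * lo y := by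
      rw [Finset.mul_sum]; exact Finset.sum_congr rfl fun y _ => by ring
    rw [e3] at n
    have q0 : 0 ≤ Δ := le_trans (Finset.sum_nonneg fun u _ => h0 w u) (hΔ w)
    have z : 0 ≤ ∑ y, a y w * lo y := Finset.sum_nonneg fun y _ => mul_nonneg (h0 _ _) (lo0 y)
    have n2 := mul_le_mul_of_nonneg_left n q0
    have n3 := mul_le_mul_of_nonneg_right htΔ z
    nlinarith
  have fin : 0 ≤ ∑ x, ∑ σ, Wt a t σ * ((f σ - Px (Wt a t) x f σ) * G σ) :=
    Finset.sum_nonneg fun x _ => pair_nonneg _ (Wt_pos a t) x f G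
      (fun σ => sub_nonneg.1 (hgr x σ)) (hGm x)
  rw [Finset.sum_comm] at fin
  have e : ∑ σ, ∑ x, Wt a t σ * ((f σ - Px (Wt a t) x f σ) * G σ) =
      c * ∑ σ, Wt a t σ * (f σ * G σ) := by
    rw [Finset.mul_sum]
    refine Finset.sum_congr rfl fun σ _ => ?_
    rw [← Finset.mul_sum, ← Finset.sum_mul, he]; ring
  rw [e] at fin
  exact le_of_mul_le_mul_left (by linarith) (by linarith : 0 < c)

omit [DecidableEq V] in
theorem Wt_deriv (a : V → V → ℝ) (t : ℝ) (σ : V → Bool) :
    HasDerivAt (fun s => Wt a s σ) (Wt a t σ * En a σ) t := by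
  have e0 : HasDerivAt (fun s : ℝ => s * En a σ) (En a σ) t := by
    simpa using (hasDerivAt_id t).mul_const (En a σ)
  exact e0.exp

theorem dir_alt (w : (V → Bool) → ℝ) (hw : ∀ σ, 0 < w σ) (f : (V → Bool) → ℝ) :
    ∑ x, ∑ σ, w σ * (f σ - Px w x f σ) ^ 2 = ∑ σ, w σ * (f σ * ∑ x, (f σ - Px w x f σ)) := by
  simp only [sq_Px w hw, ip_apply, Finset.mul_sum, ← Finset.sum_sub_distrib]
  rw [Finset.sum_comm]
  exact Finset.sum_congr rfl fun σ _ => Finset.sum_congr rfl fun x _ => by ring

theorem quot_deriv (a : V → V → ℝ) (ha : ∀ v, a v v = 0) (hs : ∀ u v, a u v = a v u) (t : ℝ)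
    (f : (V → Bool) → ℝ) (c : ℝ) (h1 : ip (Wt a t) f f = 1)
    (he : ∀ σ, ∑ x, (f σ - Px (Wt a t) x f σ) = c * f σ) :
    HasDerivAt (fun s => (∑ x, ∑ σ, Wt a s σ * (f σ - Px (Wt a s) x f σ) ^ 2) / ip (Wt a s) f f)
      (-2 * ∑ σ, Wt a t σ * (f σ * ∑ x,
        (hf a x σ * (pr (t * hf a x σ) * (1 - pr (t * hf a x σ)))) * gr x f σ)) t := by
  have d1 : ∀ x σ, HasDerivAt (fun s => f σ - Px (Wt a s) x f σ)
      (-2 * ((hf a x σ * (pr (t * hf a x σ) * (1 - pr (t * hf a x σ)))) * gr x f σ)) t := by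
    intro x σ
    simp only [Px_av a ha hs, av]
    have e0 : HasDerivAt (fun s : ℝ => s * hf a x σ) (hf a x σ) t := by
      simpa using (hasDerivAt_id t).mul_const (hf a x σ)
    have e1 := (pr_deriv (t * hf a x σ)).comp t e0
    have e2 := ((e1.mul_const (f (update σ x true))).add
      ((e1.const_sub 1).mul_const (f (update σ x false)))).const_sub (f σ)
    refine HasDerivAt.congr_deriv (f := fun s => f σ - (pr (s * hf a x σ) * f (update σ x true) +
      (1 - pr (s * hf a x σ)) * f (update σ x false))) e2 ?_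
    unfold gr
    ring
  have d2 : HasDerivAt (fun s => ∑ σ, Wt a s σ * (f σ * ∑ x, (f σ - Px (Wt a s) x f σ)))
      (∑ σ, (Wt a t σ * En a σ * (f σ * ∑ x, (f σ - Px (Wt a t) x f σ)) + Wt a t σ * (f σ * ∑ x,
        -2 * ((hf a x σ * (pr (t * hf a x σ) * (1 - pr (t * hf a x σ)))) * gr x f σ)))) t :=
    HasDerivAt.fun_sum fun σ _ => (Wt_deriv a t σ).mul
      ((HasDerivAt.fun_sum fun x _ => d1 x σ).const_mul (f σ))
  have d3 : HasDerivAt (fun s => ip (Wt a s) f f) (∑ σ, Wt a t σ * En a σ * (f σ * f σ)) t := by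
    simp only [ip_apply]
    exact HasDerivAt.fun_sum fun σ _ => (Wt_deriv a t σ).mul_const _
  have d4 := d2.div d3 (by rw [h1]; norm_num)
  simp only [dir_alt _ (Wt_pos a _)]
  refine HasDerivAt.congr_deriv (f := fun s =>
    (∑ σ, Wt a s σ * (f σ * ∑ x, (f σ - Px (Wt a s) x f σ))) / ip (Wt a s) f f) d4 ?_
  have e1 : ∑ σ, Wt a t σ * (f σ * ∑ x, (f σ - Px (Wt a t) x f σ)) = c := by
    simp only [he]
    have : ∑ σ, Wt a t σ * (f σ * (c * f σ)) = c * ip (Wt a t) f f := by
      rw [ip_apply, Finset.mul_sum]; exact Finset.sum_congr rfl fun σ _ => by ring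
    rw [this, h1, mul_one]
  rw [e1, h1]
  simp only [he, ← Finset.mul_sum, Finset.sum_add_distrib]
  have e2 : ∑ σ, Wt a t σ * En a σ * (f σ * (c * f σ)) =
      c * ∑ σ, Wt a t σ * En a σ * (f σ * f σ) := by
    rw [Finset.mul_sum]; exact Finset.sum_congr rfl fun σ _ => by ring
  have e3 : ∑ σ, Wt a t σ * (f σ * (-2 * ∑ x,
      (hf a x σ * (pr (t * hf a x σ) * (1 - pr (t * hf a x σ)))) * gr x f σ)) =
      -2 * ∑ σ, Wt a t σ * (f σ * ∑ x,
      (hf a x σ * (pr (t * hf a x σ) * (1 - pr (t * hf a x σ)))) * gr x f σ) := by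
    rw [Finset.mul_sum]; exact Finset.sum_congr rfl fun σ _ => by ring
  rw [e2, e3]
  ring

theorem Wt_cmp (a : V → V → ℝ) (s t : ℝ) (σ : V → Bool) :
    Wt a s σ ≤ Real.exp (|s - t| * ∑ τ, |En a τ|) * Wt a t σ := by
  unfold Wt
  rw [← Real.exp_add]
  refine Real.exp_le_exp.2 ?_
  have h1 : |En a σ| ≤ ∑ τ, |En a τ| :=
    Finset.single_le_sum (f := fun τ => |En a τ|) (fun τ _ => abs_nonneg _) (mem_univ σ)
  have h2 : (s - t) * En a σ ≤ |s - t| * ∑ τ, |En a τ| :=
    (le_abs_self _).trans (by rw [abs_mul]; exact mul_le_mul_of_nonneg_left h1 (abs_nonneg _))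
  linarith

theorem hi_main (a : V → V → ℝ) (ha : ∀ v, a v v = 0) (hs : ∀ u v, a u v = a v u)
    (h0 : ∀ u v, 0 ≤ a u v) (Δ β β' : ℝ) (hΔ : ∀ v, ∑ u, a v u ≤ Δ) (hβ : 0 ≤ β) (hle : β ≤ β')
    (hΔ' : β' * Δ ≤ 3 / 8) (c₀ : ℝ)
    (h : ∀ u : (V → Bool) → ℝ, (∀ σ, u (neg σ) = - u σ) → Monotone u →
      c₀ * ip (Wt a β') u u ≤ ∑ x, ∑ σ, Wt a β' σ * (u σ - Px (Wt a β') x u σ) ^ 2)
    (u : (V → Bool) → ℝ) (hu : ∀ σ, u (neg σ) = - u σ) (hum : Monotone u) :
    c₀ * ip (Wt a β) u u ≤ ∑ x, ∑ σ, Wt a β σ * (u σ - Px (Wt a β) x u σ) ^ 2 := by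
  rcases isEmpty_or_nonempty V with hV | ⟨⟨x₀⟩⟩
  · have : u = 0 := by
      funext σ
      have e : neg σ = σ := Subsingleton.elim _ _
      have := hu σ
      rw [e] at this
      simp only [Pi.zero_apply]; linarith
    simp [this]
  have hΔ0 : 0 ≤ Δ := le_trans (Finset.sum_nonneg fun u _ => h0 x₀ u) (hΔ x₀)
  have ex := fun (t : ℝ) (ht : 0 ≤ t) =>
    exists_eig x₀ (Wt a t) (Wt_pos a t) (Wt_neg a t) (Wt_lat a ha hs h0 t ht)
  choose! f c fodd fm f1 fe c1 cP using ex
  have hD : ∀ t, 0 ≤ t → ∑ x, ∑ σ, Wt a t σ * (f t σ - Px (Wt a t) x (f t) σ) ^ 2 = c t := by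
    intro t ht
    rw [dir_alt _ (Wt_pos a t)]
    simp only [fe t ht]
    have : ∑ σ, Wt a t σ * (f t σ * (c t * f t σ)) = c t * ip (Wt a t) (f t) (f t) := by
      rw [ip_apply, Finset.mul_sum]; exact Finset.sum_congr rfl fun σ _ => by ring
    rw [this, f1 t ht, mul_one]
  have c0 : ∀ t, 0 ≤ t → 0 ≤ c t := fun t ht => by
    rw [← hD t ht]
    exact Finset.sum_nonneg fun x _ => Finset.sum_nonneg fun σ _ =>
      mul_nonneg (Wt_pos a t σ).le (sq_nonneg _)
  set K := ∑ τ, |En a τ| with hK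
  have ipc : ∀ s t, 0 ≤ t → 1 ≤ Real.exp (|s - t| * K) * ip (Wt a s) (f t) (f t) := by
    intro s t ht
    refine (f1 t ht).symm.trans_le ?_
    rw [ip_apply, ip_apply, Finset.mul_sum]
    refine Finset.sum_le_sum fun σ _ => ?_
    rw [← mul_assoc (Real.exp _), abs_sub_comm]
    exact mul_le_mul_of_nonneg_right (Wt_cmp a t s σ) (mul_self_nonneg _)
  have cmp : ∀ s t, 0 ≤ s → 0 ≤ t → c s ≤ Real.exp (|s - t| * K) ^ 2 * c t := by
    intro s t hs' ht
    have a1 := cP s hs' (f t) (fodd t ht) (fm t ht)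
    have a2 : ∑ x, ∑ σ, Wt a s σ * (f t σ - Px (Wt a s) x (f t) σ) ^ 2 ≤
        Real.exp (|s - t| * K) * c t := by
      rw [← hD t ht, Finset.mul_sum]
      refine Finset.sum_le_sum fun x _ => ?_
      refine (team _ (Wt_pos a s) x (f t) (Px (Wt a t) x (f t)) (Px_update _ _ _)).trans ?_
      rw [Finset.mul_sum]
      refine Finset.sum_le_sum fun σ _ => ?_
      rw [← mul_assoc]
      exact mul_le_mul_of_nonneg_right (Wt_cmp a s t σ) (sq_nonneg _)
    have a3 := mul_le_mul_of_nonneg_left (ipc s t ht) (c0 s hs')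
    have a4 := mul_le_mul_of_nonneg_left (a1.trans a2) (Real.exp_pos (|s - t| * K)).le
    nlinarith
  have cont : ContinuousOn c (Set.Icc β β') := by
    intro t ht
    have ht0 : 0 ≤ t := hβ.trans ht.1
    have k : Continuous fun s : ℝ => Real.exp (|s - t| * K) ^ 2 := by fun_prop
    have up : Filter.Tendsto (fun s => Real.exp (|s - t| * K) ^ 2 * c t)
        (nhdsWithin t (Set.Icc β β')) (nhds (c t)) := by
      have k2 : Continuous fun s : ℝ => Real.exp (|s - t| * K) ^ 2 * c t := by fun_prop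
      have := (k2.tendsto t).mono_left (nhdsWithin_le_nhds (s := Set.Icc β β'))
      simpa using this
    have lw : Filter.Tendsto (fun s => c t / Real.exp (|s - t| * K) ^ 2)
        (nhdsWithin t (Set.Icc β β')) (nhds (c t)) := by
      have k2 : Continuous fun s : ℝ => c t / Real.exp (|s - t| * K) ^ 2 :=
        continuous_const.div k (fun s => by positivity)
      have := (k2.tendsto t).mono_left (nhdsWithin_le_nhds (s := Set.Icc β β'))
      simpa using this
    refine tendsto_of_tendsto_of_tendsto_of_le_of_le' lw up ?_ ?_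
    · filter_upwards [self_mem_nhdsWithin] with s hs'
      rw [div_le_iff₀ (by positivity), mul_comm, abs_sub_comm]
      exact cmp t s ht0 (hβ.trans hs'.1)
    · filter_upwards [self_mem_nhdsWithin] with s hs'
      exact cmp s t (hβ.trans hs'.1) ht0
  have anti : c β' ≤ c β := by
    refine image_le_of_liminf_slope_right_le_deriv_boundary cont (B := fun _ => c β)
      (B' := fun _ => 0) le_rfl continuousOn_const (fun x _ => hasDerivWithinAt_const _ _ _) ?_
      ⟨hle, le_rfl⟩
    intro t ht r hr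
    have ht0 : 0 ≤ t := hβ.trans ht.1
    have s0 := sign a ha hs h0 Δ t hΔ ht0
      ((mul_le_mul_of_nonneg_right ht.2.le hΔ0).trans hΔ') (f t) (c t) (fodd t ht0) (fm t ht0)
      (f1 t ht0) (fe t ht0) (c1 t ht0)
    have d := (quot_deriv a ha hs t (f t) (c t) (f1 t ht0) (fe t ht0)).hasDerivWithinAt
      (s := Set.Ici t)
    refine ((d.liminf_right_slope_le (r := r) (by linarith)).and_eventually
      self_mem_nhdsWithin).mono ?_
    rintro s ⟨h1, h2⟩
    have h3 : t < s := h2
    refine lt_of_le_of_lt ?_ h1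
    rw [slope_def_field, slope_def_field, hD t ht0, f1 t ht0, div_one]
    refine div_le_div_of_nonneg_right (sub_le_sub_right ?_ _) (by linarith)
    have p : 0 < ip (Wt a s) (f t) (f t) := by
      by_contra hn
      push Not at hn
      have := mul_nonpos_of_nonneg_of_nonpos (Real.exp_pos (|s - t| * K)).le hn
      linarith [ipc s t ht0]
    rw [le_div_iff₀ p]
    exact cP s (by linarith) (f t) (fodd t ht0) (fm t ht0)
  have l := h (f β') (fodd β' (hβ.trans hle)) (fm β' (hβ.trans hle))
  rw [hD β' (hβ.trans hle), f1 β' (hβ.trans hle), mul_one] at l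
  exact (mul_le_mul_of_nonneg_right (l.trans anti) (ip_nonneg _ (Wt_pos a β) u)).trans
    (cP β hβ u hu hum)

end Pool.Agent.Lib.MP_e532e2_pr.Hi
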