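import Mathlib
import Pool.Agent.Lib.MP_e532e2_pr.HiMain

set_option autoImplicit false

namespace Pool.Agent.Lib.MP_e532e2_pr.Hi

open Function Finset

theorem m_one (y : ℝ) : -1 ≤ 2 * pr y - 1 ∧ 2 * pr y - 1 ≤ 1 := by
  constructor <;> linarith [pr_pos y, pr_lt y]

theorem pq_lip' (y z : ℝ) (h : y ≤ z) :
    |pr z * (1 - pr z) - pr y * (1 - pr y)| ≤ 1 / 2 * (z - y) := by
  have a := mvt_le _ _ pq_deriv y z (1 / 2) h fun s a b => by
    obtain ⟨c, d⟩ := m_one s
    have := pq_le s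
    have := pq_pos s
    nlinarith
  have b := mvt_ge _ _ pq_deriv y z (-(1 / 2)) h fun s a b => by
    obtain ⟨c, d⟩ := m_one s
    have := pq_le s
    have := pq_pos s
    nlinarith
  rw [abs_le]; constructor <;> linarith

theorem pr_second' (y a b : ℝ) (ha : 0 ≤ a) (hb : 0 ≤ b) :
    |(pr (y + b + a) - pr (y + b - a)) - (pr (y - b + a) - pr (y - b - a))| ≤ 4 * (a * b) := by
  have hd : ∀ s, HasDerivAt (fun x => pr (x + a) - pr (x - a))
      (2 * (pr (s + a) * (1 - pr (s + a))) - 2 * (pr (s - a) * (1 - pr (s - a)))) s := by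
    intro s
    have e1 := (pr_deriv (s + a)).comp_add_const s a
    have e2 := (pr_deriv (s - a)).comp_sub_const s a
    exact e1.sub e2
  have u := mvt_le _ _ hd (y - b) (y + b) (2 * a) (by linarith) fun s c d => by
    have := abs_le.1 (pq_lip' (s - a) (s + a) (by linarith))
    linarith [this.2]
  have l := mvt_ge _ _ hd (y - b) (y + b) (-(2 * a)) (by linarith) fun s c d => by
    have := abs_le.1 (pq_lip' (s - a) (s + a) (by linarith))
    linarith [this.1]
  rw [abs_le]; constructor <;> nlinarith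

theorem msq_le (s : ℝ) : (2 * pr s - 1) ^ 2 ≤ |s| := by
  have h1 := m_abs s
  have h2 : |2 * pr s - 1| ≤ 1 := abs_le.2 (m_one s)
  have h3 := abs_nonneg (2 * pr s - 1)
  rw [← sq_abs]
  nlinarith

theorem rho_bd (y z M : ℝ) (h : y ≤ z) (h1 : -M ≤ y) (h2 : z ≤ M) :
    0 ≤ (z - (2 * pr z - 1)) - (y - (2 * pr y - 1)) ∧
      (z - (2 * pr z - 1)) - (y - (2 * pr y - 1)) ≤ M * (z - y) := by
  have hd : ∀ s, HasDerivAt (fun x => x - (2 * pr x - 1)) ((2 * pr s - 1) ^ 2) s := by
    intro s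
    have := (hasDerivAt_id s).sub (((pr_deriv s).const_mul 2).sub_const 1)
    refine HasDerivAt.congr_deriv (f := fun x => x - (2 * pr x - 1)) this ?_
    ring
  constructor
  · have := mvt_ge _ _ hd y z 0 h fun s _ _ => sq_nonneg _
    linarith
  · exact mvt_le _ _ hd y z M h fun s a b =>
      (msq_le s).trans (abs_le.2 ⟨by linarith, by linarith⟩)

theorem phi_low' (y z M : ℝ) (h : y ≤ z) (h1 : -M ≤ y) (h2 : z ≤ M) :
    (1 / 4 - 3 / 4 * M) * (z - y) ≤ z * (pr z * (1 - pr z)) - y * (pr y * (1 - pr y)) := by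
  have hd : ∀ s, HasDerivAt (fun x => x * (pr x * (1 - pr x)))
      (pr s * (1 - pr s) - 2 * (s * (2 * pr s - 1)) * (pr s * (1 - pr s))) s := by
    intro s
    have e2 := (hasDerivAt_id s).mul (pq_deriv s)
    refine HasDerivAt.congr_deriv (f := fun x => x * (pr x * (1 - pr x))) e2 ?_
    simp only [id]
    ring
  refine mvt_ge _ _ hd y z _ h fun s a b => ?_
  have c : |s| ≤ M := abs_le.2 ⟨by linarith, by linarith⟩
  have d := msq_le s
  have e : s * (2 * pr s - 1) ≤ |s| := by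
    refine (le_abs_self _).trans ?_
    rw [abs_mul]
    have := abs_le.2 (m_one s)
    nlinarith [abs_nonneg s]
  have f1 := pq_le s
  have f2 := pq_pos s
  have g : s * (2 * pr s - 1) * (pr s * (1 - pr s)) ≤ |s| * (1 / 4) :=
    (mul_le_mul_of_nonneg_right e f2.le).trans (mul_le_mul_of_nonneg_left f1 (abs_nonneg s))
  nlinarith

theorem pr_neg (y : ℝ) : pr (-y) = 1 - pr y := by
  unfold pr
  have := Real.exp_pos y
  have := Real.exp_pos (-y)
  rw [neg_neg]
  field_simp
  ring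

variable {V : Type} [Fintype V] [DecidableEq V]

theorem perron (x₀ : V) (b : V → V → ℝ) (hs : ∀ u v, b u v = b v u) (h0 : ∀ u v, 0 ≤ b u v)
    (hrow : ∀ u, ∑ v, b u v ≤ 1) :
    ∃ (a : V → ℝ) (l : ℝ), (∀ v, 0 ≤ a v) ∧ ∑ v, a v ^ 2 = 1 ∧ (∀ u, ∑ v, b u v * a v = l * a u) ∧
      0 ≤ l ∧ l ≤ 1 ∧ ∀ x z : V → ℝ, (∀ v, 0 ≤ x v) → (∀ v, 0 ≤ z v) →
        ∑ u, x u * ∑ v, b u v * z v ≤ l * (√(∑ v, x v ^ 2) * √(∑ v, z v ^ 2)) := by
  set q : (V → ℝ) → (V → ℝ) → ℝ := fun x z => ∑ u, x u * ∑ v, b u v * z v with hq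
  have qs : ∀ x z, q x z = q z x := by
    intro x z
    simp only [hq, Finset.mul_sum]
    rw [Finset.sum_comm]
    exact Finset.sum_congr rfl fun u _ => Finset.sum_congr rfl fun v _ => by rw [hs v u]; ring
  have q0 : ∀ x z : V → ℝ, (∀ v, 0 ≤ x v) → (∀ v, 0 ≤ z v) → 0 ≤ q x z := fun x z hx hz =>
    Finset.sum_nonneg fun u _ => mul_nonneg (hx u)
      (Finset.sum_nonneg fun v _ => mul_nonneg (h0 u v) (hz v))
  have hK : IsCompact {x : V → ℝ | (∀ v, 0 ≤ x v) ∧ ∑ v, x v ^ 2 = 1} := by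
    refine (isCompact_univ_pi fun _ : V =>
      (isCompact_Icc : IsCompact (Set.Icc (0:ℝ) 1))).of_isClosed_subset ?_ ?_
    · refine IsClosed.inter ?_ (isClosed_eq (by fun_prop) continuous_const)
      have : {x : V → ℝ | ∀ v, 0 ≤ x v} = ⋂ v, {x : V → ℝ | 0 ≤ x v} := by ext; simp
      show IsClosed {x : V → ℝ | ∀ v, 0 ≤ x v}
      rw [this]
      exact isClosed_iInter fun v => isClosed_le continuous_const (continuous_apply _)
    · rintro x ⟨h1, h2⟩ v -
      have h3 : x v ^ 2 ≤ ∑ v, x v ^ 2 :=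
        Finset.single_le_sum (f := fun v => x v ^ 2) (fun u _ => sq_nonneg _) (mem_univ v)
      exact ⟨h1 v, by nlinarith [h1 v]⟩
  have cq : Continuous fun x : V → ℝ => q x x := by simp only [hq]; fun_prop
  obtain ⟨a, ⟨ha0, ha1⟩, hmax⟩ := hK.exists_isMaxOn
    ⟨Pi.single x₀ 1, fun v => by by_cases h : v = x₀ <;> simp [h], by
      rw [Finset.sum_eq_single x₀ (fun v _ h => by simp [h]) (by simp)]; simp⟩ cq.continuousOn
  set l := q a a with hl
  have l0 : 0 ≤ l := q0 a a ha0 ha0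
  have hall : ∀ x : V → ℝ, (∀ v, 0 ≤ x v) → q x x ≤ l * ∑ v, x v ^ 2 := by
    intro x hx
    have p0 : 0 ≤ ∑ v, x v ^ 2 := Finset.sum_nonneg fun v _ => sq_nonneg _
    rcases p0.eq_or_lt with h | h
    · have : ∀ v, x v = 0 := fun v => by
        have := (Finset.sum_eq_zero_iff_of_nonneg fun v _ => sq_nonneg (x v)).1 h.symm v (mem_univ v)
        simpa using this
      simp [hq, this]
    · set s := √(∑ v, x v ^ 2) with hsdef
      have sp : 0 < s := Real.sqrt_pos.2 h
      have s2 : s ^ 2 = ∑ v, x v ^ 2 := Real.sq_sqrt p0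
      have h3 : q (fun v => x v / s) (fun v => x v / s) ≤ l := hmax ⟨fun v => div_nonneg (hx v) sp.le, by
        simp only [div_pow]; rw [← Finset.sum_div, ← s2]; field_simp⟩
      have e : q (fun v => x v / s) (fun v => x v / s) = q x x / s ^ 2 := by
        simp only [hq, Finset.sum_div, Finset.mul_sum]
        exact Finset.sum_congr rfl fun u _ => Finset.sum_congr rfl fun v _ => by field_simp
      rw [e, div_le_iff₀ (by positivity), s2] at h3
      exact h3
  have habs : ∀ x : V → ℝ, |q x x| ≤ l * ∑ v, x v ^ 2 := by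
    intro x
    have h1 := hall (fun v => |x v|) fun v => abs_nonneg _
    simp only [sq_abs] at h1
    refine le_trans ?_ h1
    simp only [hq, Finset.mul_sum]
    refine (Finset.abs_sum_le_sum_abs _ _).trans (Finset.sum_le_sum fun u _ => ?_)
    refine (Finset.abs_sum_le_sum_abs _ _).trans (Finset.sum_le_sum fun v _ => ?_)
    rw [abs_mul, abs_mul, abs_of_nonneg (h0 u v)]
  have lin : ∀ (x z : V → ℝ) (t : ℝ), q (fun v => x v + t * z v) (fun v => x v + t * z v) =
      q x x + 2 * t * q x z + t ^ 2 * q z z := by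
    intro x z t
    have : q (fun v => x v + t * z v) (fun v => x v + t * z v) =
        q x x + t * q x z + t * q z x + t ^ 2 * q z z := by
      simp only [hq, Finset.mul_sum, ← Finset.sum_add_distrib]
      exact Finset.sum_congr rfl fun u _ => Finset.sum_congr rfl fun v _ => by ring
    rw [this, qs z x]; ring
  have nl : ∀ (x z : V → ℝ) (t : ℝ), ∑ v, (x v + t * z v) ^ 2 =
      ∑ v, x v ^ 2 + 2 * t * ∑ v, x v * z v + t ^ 2 * ∑ v, z v ^ 2 := by
    intro x z t
    simp only [Finset.mul_sum, ← Finset.sum_add_distrib]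
    exact Finset.sum_congr rfl fun u _ => by ring
  have pol : ∀ (x z : V → ℝ) (t : ℝ), 2 * t * q x z ≤ l * (∑ v, x v ^ 2 + t ^ 2 * ∑ v, z v ^ 2) := by
    intro x z t
    have h1 := (abs_le.1 (habs fun v => x v + t * z v)).2
    have h2 := (abs_le.1 (habs fun v => x v + (-t) * z v)).1
    rw [lin, nl] at h1 h2
    nlinarith
  refine ⟨a, l, ha0, ha1, ?_, l0, ?_, ?_⟩
  · set z : V → ℝ := fun u => ∑ v, b u v * a v - l * a u with hz
    have e1 : q a z - l * ∑ v, a v * z v = ∑ v, z v ^ 2 := by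
      rw [qs a z]
      simp only [hq]
      rw [Finset.mul_sum, ← Finset.sum_sub_distrib]
      refine Finset.sum_congr rfl fun u _ => ?_
      have : z u = ∑ v, b u v * a v - l * a u := rfl
      rw [sq]; nth_rewrite 4 [this]; ring
    have key : ∀ t : ℝ, 0 ≤ (l * ∑ v, z v ^ 2 - q z z) * (t * t) + (-2 * ∑ v, z v ^ 2) * t + 0 := by
      intro t
      have h1 := (abs_le.1 (habs fun v => a v + t * z v)).2
      rw [lin, nl, ha1, ← hl] at h1
      have e2 : t * (q a z - l * ∑ v, a v * z v) = t * ∑ v, z v ^ 2 := by rw [e1]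
      nlinarith
    have d := discrim_le_zero key
    unfold discrim at d
    have z0 : ∑ v, z v ^ 2 = 0 := by nlinarith
    intro u
    have := (Finset.sum_eq_zero_iff_of_nonneg fun v _ => sq_nonneg (z v)).1 z0 u (mem_univ u)
    have h5 : z u = 0 := by simpa using this
    simp only [hz] at h5
    linarith
  · have h1 : q a a ≤ ∑ u, ∑ v, b u v * ((a u ^ 2 + a v ^ 2) / 2) := by
      simp only [hq, Finset.mul_sum]
      refine Finset.sum_le_sum fun u _ => Finset.sum_le_sum fun v _ => ?_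
      have := mul_nonneg (h0 u v) (sq_nonneg (a u - a v))
      nlinarith
    have h2 : ∑ u, ∑ v, b u v * a u ^ 2 ≤ 1 := by
      rw [← ha1]
      refine Finset.sum_le_sum fun u _ => ?_
      rw [← Finset.sum_mul]
      nlinarith [hrow u, sq_nonneg (a u)]
    have h3 : ∑ u, ∑ v, b u v * a v ^ 2 = ∑ u, ∑ v, b u v * a u ^ 2 := by
      rw [Finset.sum_comm]
      exact Finset.sum_congr rfl fun u _ => Finset.sum_congr rfl fun v _ => by rw [hs]
    have h4 : ∑ u, ∑ v, b u v * ((a u ^ 2 + a v ^ 2) / 2) =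
        (∑ u, ∑ v, b u v * a u ^ 2 + ∑ u, ∑ v, b u v * a v ^ 2) / 2 := by
      simp only [← Finset.sum_add_distrib, Finset.sum_div]
      exact Finset.sum_congr rfl fun u _ => Finset.sum_congr rfl fun v _ => by ring
    linarith
  · intro x z hx hz
    have p1 : 0 ≤ ∑ v, x v ^ 2 := Finset.sum_nonneg fun v _ => sq_nonneg _
    have p2 : 0 ≤ ∑ v, z v ^ 2 := Finset.sum_nonneg fun v _ => sq_nonneg _
    have key : ∀ t : ℝ, 0 ≤ (l * ∑ v, z v ^ 2) * (t * t) + (-2 * q x z) * t + l * ∑ v, x v ^ 2 := by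
      intro t
      have := pol x z t
      nlinarith
    have d := discrim_le_zero key
    unfold discrim at d
    have s1 := Real.sq_sqrt p1
    have s2 := Real.sq_sqrt p2
    refine (abs_le_of_sq_le_sq' (a := q x z) ?_ (by positivity)).2
    rw [mul_pow, mul_pow, s1, s2]
    nlinarith

end Pool.Agent.Lib.MP_e532e2_pr.Hi
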