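import Mathlib
import Pool.Agent.Lib.MP_e532e2_pr.HiL1

set_option autoImplicit false

namespace Pool.Agent.Lib.MP_e532e2_pr.Hi

open Function Finset

variable {V : Type} [Fintype V] [DecidableEq V]

theorem bounds (P : V → (V → Bool) → ℝ) (f : (V → Bool) → ℝ) (c X : ℝ) (b : V → V → ℝ)
    (hi : ∀ y σ b, P y (update σ y b) = P y σ)
    (h0 : ∀ y σ, 0 ≤ P y σ) (h1 : ∀ y σ, P y σ ≤ 1) (hX : X ≤ 1)
    (hb : ∀ x y, 0 ≤ b x y) (hrow : ∀ x, ∑ y, b x y ≤ X) (hcol : ∀ y, ∑ x, b x y ≤ X)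
    (hδ : ∀ x y σ, 0 ≤ gr x (P y) σ) (hup : ∀ x y σ, gr x (P y) σ ≤ b x y)
    (h2 : ∀ w x y σ, w ≠ x → |gr w (gr x (P y)) σ| ≤ 4 * (b x y * b w y))
    (he : ∀ σ, ∑ y, (f σ - av y (P y) f σ) = c * f σ) (hc : c ≤ 1)
    (hf : ∀ x σ, 0 ≤ gr x f σ) (hne : ∃ x σ, 0 < gr x f σ) :
    1 - c ≤ X ∧ ∃ (Ω : V → ℝ) (B : V → V → ℝ), (∀ x σ, gr x f σ ≤ Ω x) ∧
      (∀ x, ∃ σ, gr x f σ = Ω x) ∧ (∀ w x σ, |gr w (gr x f) σ| ≤ B w x) ∧ (∀ w x, B w x = B x w) ∧
      ∀ x, (2 - c - X) * ∑ w, B w x ≤ ∑ y, b x y * (∑ w, B w y) + 4 * ∑ y, b x y * Ω y := by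
  have F := first P f c hi he
  have Fmax := fun x => mp_max _ _ _ _ (fun y τ => P y (update τ x true)) (fun y τ => h0 y _)
    (fun y τ => h1 y _) (F x)
  choose sM hM1 hM2 using Fmax
  have hg : 1 - c ≤ X := by
    obtain ⟨x₁, σ₁, hpos⟩ := hne
    obtain ⟨x₀, -, hx⟩ := Finset.exists_max_image Finset.univ (fun x => gr x f (sM x))
      ⟨x₁, mem_univ _⟩
    have hΩ : 0 < gr x₀ f (sM x₀) := hpos.trans_le ((hM1 x₁ σ₁).trans (hx x₁ (mem_univ _)))
    have a : ∑ y, gr x₀ (P y) (sM x₀) * gr y f (update (sM x₀) x₀ false) ≤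
        ∑ y, b x₀ y * gr x₀ f (sM x₀) := Finset.sum_le_sum fun y _ =>
      mul_le_mul (hup _ _ _) ((hM1 y _).trans (hx y (mem_univ _))) (hf _ _) (hb _ _)
    rw [← Finset.sum_mul] at a
    have a2 := mul_le_mul_of_nonneg_right (hrow x₀) hΩ.le
    have a3 := hM2 x₀
    exact le_of_mul_le_mul_right (by linarith) hΩ
  refine ⟨hg, ?_⟩
  set Ω : V → ℝ := fun x => gr x f (sM x) with hΩdef
  have Ω0 : ∀ x, 0 ≤ Ω x := fun x => hf _ _
  have hB : ∀ w x, ∃ σ₀, ∀ σ, |gr w (gr x f) σ| ≤ |gr w (gr x f) σ₀| := fun w x => by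
    obtain ⟨σ₀, -, h⟩ := Finset.exists_max_image Finset.univ (fun σ => |gr w (gr x f) σ|)
      Finset.univ_nonempty
    exact ⟨σ₀, fun σ => h σ (mem_univ _)⟩
  choose sB hsB using hB
  set B : V → V → ℝ := fun w x => |gr w (gr x f) (sB w x)| with hBdef
  have B0 : ∀ w x, 0 ≤ B w x := fun w x => abs_nonneg _
  have Bs : ∀ w x, B w x = B x w := by
    have : ∀ w x, B w x ≤ B x w := fun w x => by
      have := hsB x w (sB w x)
      rw [gr_comm] at this
      exact this
    exact fun w x => le_antisymm (this w x) (this x w)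
  set N : V → ℝ := fun x => ∑ w, B w x with hN
  have S2 : ∀ w x, (2 - c) * B w x ≤ ∑ y, b w y * B y x +
      ∑ y, (b x y * B w y + 4 * (b x y * b w y) * Ω y) := by
    intro w x
    by_cases hwx : w = x
    · have : B w x = 0 := by simp only [hBdef, hwx, gr_self, abs_zero]
      rw [this, mul_zero]
      refine add_nonneg (Finset.sum_nonneg fun y _ => mul_nonneg (hb _ _) (B0 _ _))
        (Finset.sum_nonneg fun y _ => add_nonneg (mul_nonneg (hb _ _) (B0 _ _)) ?_)
      exact mul_nonneg (mul_nonneg (by norm_num) (mul_nonneg (hb _ _) (hb _ _))) (Ω0 y)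
    · refine mp_abs _ (2 - c) _ (by linarith) _ _
        (fun y τ => P y (update (update τ w true) x true)) (fun y τ => h0 y _)
        (fun y τ => h1 y _) (second P f c hi he hwx) (fun σ => ?_) _
      refine (abs_add_le _ _).trans (add_le_add ?_ ?_)
      · refine (Finset.abs_sum_le_sum_abs _ _).trans ?_
        refine le_trans (Finset.sum_le_sum (g := fun y => b w y * B y x) fun y _ => ?_)
          (Finset.sum_le_sum_of_subset_of_nonneg (Finset.subset_univ _)
            fun y _ _ => mul_nonneg (hb _ _) (B0 _ _))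
        rw [abs_mul, abs_of_nonneg (hδ _ _ _)]
        exact mul_le_mul (hup _ _ _) (hsB _ _ _) (abs_nonneg _) (hb _ _)
      · refine (Finset.abs_sum_le_sum_abs _ _).trans (Finset.sum_le_sum fun y _ => ?_)
        refine (abs_add_le _ _).trans (add_le_add ?_ ?_)
        · rw [abs_mul, abs_of_nonneg (hδ _ _ _)]
          exact mul_le_mul (hup _ _ _) (hsB _ _ _) (abs_nonneg _) (hb _ _)
        · rw [abs_mul, abs_of_nonneg (hf _ _)]
          exact mul_le_mul (h2 _ _ _ _ hwx) (hM1 _ _) (hf _ _)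
            (mul_nonneg (by norm_num) (mul_nonneg (hb _ _) (hb _ _)))
  refine ⟨Ω, B, hM1, fun x => ⟨_, rfl⟩, hsB, Bs, fun x => ?_⟩
  have a := Finset.sum_le_sum fun w (_ : w ∈ univ) => S2 w x
  rw [← Finset.mul_sum, Finset.sum_add_distrib] at a
  have a1 : ∑ w, ∑ y, b w y * B y x ≤ X * N x := by
    rw [Finset.sum_comm]
    simp only [hN]
    rw [Finset.mul_sum]
    refine Finset.sum_le_sum fun y _ => ?_
    rw [← Finset.sum_mul]
    exact mul_le_mul_of_nonneg_right (hcol y) (B0 _ _)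
  have a2 : ∑ w, ∑ y, (b x y * B w y + 4 * (b x y * b w y) * Ω y) ≤
      ∑ y, (b x y * N y + 4 * (b x y * Ω y)) := by
    rw [Finset.sum_comm]
    refine Finset.sum_le_sum fun y _ => ?_
    have e : ∑ w, (b x y * B w y + 4 * (b x y * b w y) * Ω y) =
        b x y * N y + (∑ w, b w y) * (4 * (b x y * Ω y)) := by
      simp only [hN]
      rw [Finset.sum_add_distrib, Finset.mul_sum, Finset.sum_mul]
      congr 1
      refine Finset.sum_congr rfl fun w _ => by ring
    have e2 := mul_le_mul_of_nonneg_right ((hcol y).trans hX)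
      (mul_nonneg (by norm_num : (0:ℝ) ≤ 4) (mul_nonneg (hb x y) (Ω0 y)))
    rw [e]
    linarith
  rw [Finset.sum_add_distrib, ← Finset.mul_sum] at a2
  have : ∑ w, B w x = N x := rfl
  rw [this] at a ⊢
  show (2 - c - X) * N x ≤ ∑ y, b x y * N y + 4 * ∑ y, b x y * Ω y
  linarith

theorem iter {Ω : Type} (K : (Ω → ℝ) →ₗ[ℝ] (Ω → ℝ)) (hK : ∀ u M, (∀ σ, u σ ≤ M) → ∀ σ, K u σ ≤ M)
    (g n M S : ℝ) (hg : 0 ≤ g) (hn : 0 < n) (k : ℕ) :
    ∀ u F : Ω → ℝ, (g + n) • u = F + n • K u → (∀ σ, F σ ≤ M) → (∀ σ, (K ^ k) u σ ≤ S) →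
      ∀ σ, g * u σ ≤ (1 - (n / (g + n)) ^ k) * M + g * (n / (g + n)) ^ k * S := by
  induction k with
  | zero =>
    intro u F _ _ h σ
    have := mul_le_mul_of_nonneg_left (h σ) hg
    simpa using this
  | succ k ih =>
    intro u F h1 h2 h3 σ
    have a := ih (K u) (K F) (by rw [← map_smul, h1, map_add, map_smul]) (hK F M h2)
      (fun σ => by have := h3 σ; rwa [pow_succ, Module.End.mul_apply] at this) σ
    have e := congrFun h1 σ
    simp only [Pi.smul_apply, Pi.add_apply, smul_eq_mul] at e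
    have p : 0 < g + n := by linarith
    set ρ := n / (g + n) with hρ
    have r1 : ρ * (g + n) = n := by rw [hρ]; field_simp
    have b1 := mul_le_mul_of_nonneg_left (h2 σ) hg
    have b2 := mul_le_mul_of_nonneg_left a hn.le
    refine le_of_mul_le_mul_right ?_ p
    have e2 : ((1 - ρ ^ (k + 1)) * M + g * ρ ^ (k + 1) * S) * (g + n) =
        g * M + n * ((1 - ρ ^ k) * M + g * ρ ^ k * S) := by
      have : ρ ^ (k + 1) * (g + n) = ρ ^ k * n := by rw [pow_succ, mul_assoc, r1]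
      linear_combination (g * S - M) * this
    rw [e2]
    have e3 : g * u σ * (g + n) = g * F σ + n * (g * K u σ) := by linear_combination g * e
    rw [e3]
    linarith

theorem harnack2 (x : V) (w : (V → Bool) → ℝ) (hw : ∀ σ, 0 < w σ) (hw1 : ∑ σ, w σ = 1)
    (r : V → (V → Bool) → ℝ) (b : V → V → ℝ) (ε g M : ℝ) (hε : ε ≤ 1) (hg : 0 ≤ g)
    (hP : ∀ y, y ≠ x → ∀ u σ, Px w y u σ = av y (r y) u σ)
    (hi : ∀ y σ b, r y (update σ y b) = r y σ) (hx : ∀ y σ b, r y (update σ x b) = r y σ)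
    (h0 : ∀ y σ, 0 ≤ r y σ) (h1 : ∀ y σ, r y σ ≤ 1)
    (hb : ∀ x y, 0 ≤ b x y) (hcol : ∀ y, ∑ x, b x y ≤ 1 - ε)
    (hδ : ∀ z y σ, z ≠ x → |gr z (r y) σ| ≤ b z y)
    (u F : (V → Bool) → ℝ) (hu : ∀ σ b, u (update σ x b) = u σ)
    (he : ∀ σ, g * u σ + ∑ y ∈ univ.erase x, (u σ - av y (r y) u σ) = F σ) (hF : ∀ σ, F σ ≤ M)
    (B : V → ℝ) (hB : ∀ z σ, |gr z u σ| ≤ B z) (k : ℕ) (σ : V → Bool) :
    g * u σ ≤ (1 - ((Fintype.card V : ℝ) / (g + Fintype.card V)) ^ k) * M +
      g * ((Fintype.card V : ℝ) / (g + Fintype.card V)) ^ k *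
        (∑ τ, w τ * u τ + (1 - ε / Fintype.card V) ^ k * ∑ z, B z) := by
  set n : ℝ := (Fintype.card V : ℝ) with hn
  have n1 : 1 ≤ n := by
    have : 0 < Fintype.card V := Fintype.card_pos_iff.2 ⟨x⟩
    rw [hn]; exact_mod_cast this
  have n0 : 0 < n := by linarith
  have hc : ∀ a : ℝ, ∑ y ∈ univ.erase x, a = (n - 1) * a := by
    intro a
    have := Finset.add_sum_erase univ (fun _ : V => a) (mem_univ x)
    simp only [Finset.sum_const, Finset.card_univ, nsmul_eq_mul] at this ⊢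
    rw [← hn] at this
    linarith
  set K : ((V → Bool) → ℝ) →ₗ[ℝ] ((V → Bool) → ℝ) :=
    n⁻¹ • (LinearMap.id + ∑ y ∈ univ.erase x, Px w y) with hKdef
  have Ka : ∀ v σ, n * K v σ = v σ + ∑ y ∈ univ.erase x, av y (r y) v σ := by
    intro v σ
    simp only [hKdef, LinearMap.smul_apply, LinearMap.add_apply, LinearMap.id_apply,
      LinearMap.sum_apply, Pi.smul_apply, Pi.add_apply, Finset.sum_apply, smul_eq_mul]
    rw [← mul_assoc, mul_inv_cancel₀ n0.ne', one_mul]
    congr 1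
    exact Finset.sum_congr rfl fun y hy => hP y (Finset.ne_of_mem_erase hy) v σ
  have hK : ∀ v M, (∀ σ, v σ ≤ M) → ∀ σ, K v σ ≤ M := by
    intro v M h σ
    have a : ∑ y ∈ univ.erase x, av y (r y) v σ ≤ ∑ y ∈ univ.erase x, M :=
      Finset.sum_le_sum fun y _ => by
        have := h (update σ y true)
        have := h (update σ y false)
        have := h0 y σ
        have := h1 y σ
        unfold av
        nlinarith
    rw [hc] at a
    refine le_of_mul_le_mul_left ?_ n0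
    rw [Ka]
    linarith [h σ]
  have mean : ∀ v, ∑ τ, w τ * K v τ = ∑ τ, w τ * v τ := by
    intro v
    refine mul_left_cancel₀ n0.ne' ?_
    have a : ∀ y ∈ univ.erase x, ∑ τ, w τ * av y (r y) v τ = ∑ τ, w τ * v τ := by
      intro y hy
      have := Px_selfadj w hw y (fun _ => 1) v
      simp only [ip_apply, hP y (Finset.ne_of_mem_erase hy), one_mul] at this
      rw [← this]
      exact Finset.sum_congr rfl fun τ _ => by simp [av]
    have e : n * ∑ τ, w τ * K v τ =
        ∑ τ, w τ * v τ + ∑ y ∈ univ.erase x, ∑ τ, w τ * av y (r y) v τ := by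
      rw [Finset.sum_comm, Finset.mul_sum, ← Finset.sum_add_distrib]
      refine Finset.sum_congr rfl fun τ _ => ?_
      rw [← Finset.mul_sum, ← mul_add, ← Ka]; ring
    rw [e, Finset.sum_congr rfl a, hc]; ring
  have con : ∀ (v : (V → Bool) → ℝ) (C : V → ℝ), (∀ σ b, v (update σ x b) = v σ) →
      (∀ z σ, |gr z v σ| ≤ C z) → (∀ σ b, K v (update σ x b) = K v σ) ∧
      ∃ C' : V → ℝ, (∀ z σ, |gr z (K v) σ| ≤ C' z) ∧ ∑ z, C' z ≤ (1 - ε / n) * ∑ z, C z := by
    intro v C hv hC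
    have C0 : ∀ z, 0 ≤ C z := fun z => (abs_nonneg _).trans (hC z σ)
    have bl : ∀ σ b, K v (update σ x b) = K v σ := by
      intro σ b
      refine mul_left_cancel₀ n0.ne' ?_
      rw [Ka, Ka, hv]
      congr 1
      refine Finset.sum_congr rfl fun y hy => ?_
      simp only [av, hx, update_comm (Finset.ne_of_mem_erase hy).symm, hv]
    refine ⟨bl, fun z => ((n - 1) * C z + ∑ y, b z y * C y) / n, fun z σ => ?_, ?_⟩
    · have S0 : 0 ≤ ∑ y, b z y * C y := Finset.sum_nonneg fun y _ => mul_nonneg (hb _ _) (C0 _)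
      by_cases hz : z = x
      · have : gr z (K v) σ = 0 := by rw [hz]; simp [gr, bl]
        rw [this, abs_zero]
        exact div_nonneg (add_nonneg (mul_nonneg (by linarith) (C0 z)) S0) n0.le
      · rw [le_div_iff₀ n0]
        have e : gr z (K v) σ * n = gr z v σ + ∑ y ∈ univ.erase x, gr z (av y (r y) v) σ := by
          have a1 := Ka v (update σ z true)
          have a2 := Ka v (update σ z false)
          simp only [gr, Finset.sum_sub_distrib]
          linarith
        have hz' : z ∈ univ.erase x := Finset.mem_erase.2 ⟨hz, mem_univ _⟩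
        rw [← Finset.add_sum_erase _ _ hz', gr_av_self z _ _ (hi z), zero_add] at e
        have a3 : |∑ y ∈ (univ.erase x).erase z, gr z (av y (r y) v) σ| ≤
            ∑ y ∈ (univ.erase x).erase z, (C z + b z y * C y) := by
          refine (Finset.abs_sum_le_sum_abs _ _).trans (Finset.sum_le_sum fun y hy => ?_)
          rw [gr_av (Finset.ne_of_mem_erase hy).symm]
          refine (abs_add_le _ _).trans (add_le_add ?_ ?_)
          · have p1 := abs_le.1 (hC z (update σ y true))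
            have p2 := abs_le.1 (hC z (update σ y false))
            have p3 := h0 y (update σ z true)
            have p4 := h1 y (update σ z true)
            unfold av
            rw [abs_le]
            constructor <;> nlinarith [p1.1, p1.2, p2.1, p2.2]
          · rw [abs_mul]
            exact mul_le_mul (hδ z y σ hz) (hC _ _) (abs_nonneg _) (hb _ _)
        have a4 : ∑ y ∈ (univ.erase x).erase z, b z y * C y ≤ ∑ y, b z y * C y :=
          Finset.sum_le_sum_of_subset_of_nonneg (Finset.subset_univ _)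
            fun y _ _ => mul_nonneg (hb _ _) (C0 _)
        have a5 := Finset.add_sum_erase _ (fun _ : V => C z) hz'
        rw [hc] at a5
        rw [Finset.sum_add_distrib] at a3
        rw [← abs_of_pos n0, ← abs_mul, e, abs_of_pos n0]
        have a6 := abs_add_le (gr z v σ) (∑ y ∈ (univ.erase x).erase z, gr z (av y (r y) v) σ)
        linarith [hC z σ]
    · rw [← Finset.sum_div, div_le_iff₀ n0, Finset.sum_add_distrib, ← Finset.mul_sum,
        Finset.sum_comm]
      have a : ∑ y, ∑ z, b z y * C y ≤ ∑ y, (1 - ε) * C y := Finset.sum_le_sum fun y _ => by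
        rw [← Finset.sum_mul]
        exact mul_le_mul_of_nonneg_right (hcol y) (C0 y)
      rw [← Finset.mul_sum] at a
      have e : (1 - ε / n) * (∑ z, C z) * n = (n - ε) * ∑ z, C z := by field_simp
      rw [e]
      linarith
  have q0 : 0 ≤ 1 - ε / n := by
    rw [sub_nonneg, div_le_one n0]; linarith
  have ind : ∀ k : ℕ, (∀ σ b, (K ^ k) u (update σ x b) = (K ^ k) u σ) ∧
      (∑ τ, w τ * (K ^ k) u τ = ∑ τ, w τ * u τ) ∧
      ∃ C' : V → ℝ, (∀ z σ, |gr z ((K ^ k) u) σ| ≤ C' z) ∧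
        ∑ z, C' z ≤ (1 - ε / n) ^ k * ∑ z, B z := by
    intro k
    induction k with
    | zero => exact ⟨hu, rfl, B, hB, by simp⟩
    | succ k ih =>
      obtain ⟨i1, i2, C, i3, i4⟩ := ih
      obtain ⟨j1, C', j2, j3⟩ := con _ C i1 i3
      rw [pow_succ', Module.End.mul_apply]
      refine ⟨j1, by rw [mean, i2], C', j2, j3.trans ?_⟩
      rw [pow_succ', mul_assoc]
      exact mul_le_mul_of_nonneg_left i4 q0
  obtain ⟨-, i2, C, i3, i4⟩ := ind k
  refine iter K hK g n M _ hg n0 k u F ?_ hF (fun σ => ?_) σ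
  · funext σ
    simp only [Pi.smul_apply, Pi.add_apply, smul_eq_mul, Ka]
    have := he σ
    rw [Finset.sum_sub_distrib, hc] at this
    linarith
  · have a : ∑ τ, w τ * (K ^ k) u σ ≤ ∑ τ, w τ * ((K ^ k) u τ + ∑ z, C z) :=
      Finset.sum_le_sum fun τ _ => mul_le_mul_of_nonneg_left
        (by linarith [osc _ C i3 σ τ]) (hw τ).le
    simp only [mul_add, Finset.sum_add_distrib, ← Finset.sum_mul, hw1, one_mul] at a
    linarith

end Pool.Agent.Lib.MP_e532e2_pr.Hi
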