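import Mathlib
import Pool.Agent.Lib.MP_e532e2_pr.HiL2

set_option autoImplicit false

namespace Pool.Agent.Lib.MP_e532e2_pr.Hi

open Function Finset

variable {V : Type} [Fintype V] [DecidableEq V]

theorem pair_id (w : (V → Bool) → ℝ) (hw : ∀ σ, 0 < w σ) (x : V) (p f g : (V → Bool) → ℝ)
    (hp : ∀ σ, p σ = w (update σ x true) / (w (update σ x true) + w (update σ x false))) :
    ∑ σ, w σ * ((f σ - Px w x f σ) * g σ) =
      ∑ σ, w σ * (p σ * (1 - p σ) * (gr x f σ * gr x g σ)) := by
  refine sum_pair_eq x _ _ fun σ => ?_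
  simp only [Px_update, hp, gr, update_idem]
  rw [Px_apply]
  have a := hw (update σ x true)
  have b := hw (update σ x false)
  field_simp
  ring

theorem dir_pq (w : (V → Bool) → ℝ) (hw : ∀ σ, 0 < w σ) (x : V) (p f : (V → Bool) → ℝ)
    (hp : ∀ σ, p σ = w (update σ x true) / (w (update σ x true) + w (update σ x false))) :
    ∑ σ, w σ * (f σ - Px w x f σ) ^ 2 = ∑ σ, w σ * (p σ * (1 - p σ) * gr x f σ ^ 2) := by
  refine sum_pair_eq x _ _ fun σ => ?_
  simp only [Px_update, hp, gr, update_idem]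
  rw [Px_apply]
  have a := hw (update σ x true)
  have b := hw (update σ x false)
  field_simp
  ring

theorem blind_conv (w : (V → Bool) → ℝ) (hw : ∀ σ, 0 < w σ) (x : V) (p F : (V → Bool) → ℝ)
    (hp : ∀ σ, p σ = w (update σ x true) / (w (update σ x true) + w (update σ x false)))
    (hF : ∀ σ b, F (update σ x b) = F σ) :
    ∑ σ, w (update σ x true) * F σ = ∑ σ, w σ * (2 * p σ * F σ) := by
  refine sum_pair_eq x _ _ fun σ => ?_
  simp only [hp, hF, update_idem]
  have a := hw (update σ x true)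
  have b := hw (update σ x false)
  field_simp
  ring

theorem plus_mass (w : (V → Bool) → ℝ) (hs : ∀ σ, w (neg σ) = w σ) (h1 : ∑ σ, w σ = 1) (x : V) :
    ∑ σ, w (update σ x true) = 1 := by
  have a := sum_pair x w
  have b := sum_neg' (fun σ => w (update σ x true))
  have e : ∀ σ, w (update (neg σ) x true) = w (update σ x false) := fun σ => by
    rw [← hs (update σ x false), neg_update]; rfl
  simp only [e] at b
  rw [Finset.sum_add_distrib, h1] at a
  linarith

omit [DecidableEq V] in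
theorem hf_neg (a : V → V → ℝ) (v : V) (σ : V → Bool) : hf a v (neg σ) = - hf a v σ := by
  have : ∀ b, sp (!b) = - sp b := fun b => by cases b <;> simp [sp]
  simp only [hf, neg, this, mul_neg, Finset.sum_neg_distrib]

theorem hf_Z (b : V → V → ℝ) (h0 : ∀ u v, 0 ≤ b u v) (j : ℝ) (hj : ∀ u v, b u v ≤ j) (v x : V)
    (σ : V → Bool) : -(|hf b v σ| + 2 * j) ≤ hf b v (update σ x false) ∧
      hf b v (update σ x true) ≤ |hf b v σ| + 2 * j := by
  have e := hf_upd b v x σ
  have a := le_abs_self (hf b v σ)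
  have c := neg_abs_le (hf b v σ)
  have d := h0 v x
  have g := hj v x
  cases h : σ x
  · have : update σ x false = σ := by rw [← h]; simp
    rw [this] at e ⊢
    constructor <;> linarith
  · have : update σ x true = σ := by rw [← h]; simp
    rw [this] at e ⊢
    constructor <;> linarith

theorem field_sq (w : (V → Bool) → ℝ) (hw : ∀ σ, 0 < w σ) (h1 : ∑ σ, w σ = 1) (b : V → V → ℝ)
    (h0 : ∀ u v, 0 ≤ b u v) (j c : ℝ) (hj : ∀ u v, b u v ≤ j) (hrow : ∀ u, ∑ v, b u v ≤ 1)
    (hp : ∀ x σ, pr (hf b x σ) =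
      w (update σ x true) / (w (update σ x true) + w (update σ x false)))
    (MP : ∀ u : (V → Bool) → ℝ, (∀ σ, u (neg σ) = - u σ) → Monotone u →
      c * ip w u u ≤ ∑ x, ∑ σ, w σ * (u σ - Px w x u σ) ^ 2) (v : V) :
    c * ∑ σ, w σ * hf b v σ ^ 2 ≤ j := by
  have a := MP (hf b v) (hf_neg b v) (fun σ τ h => hf_mono b h0 v σ τ h)
  have e : ip w (hf b v) (hf b v) = ∑ σ, w σ * hf b v σ ^ 2 := by simp only [ip_apply, sq]
  rw [e] at a
  refine a.trans ?_
  have d : ∀ x, ∑ σ, w σ * (hf b v σ - Px w x (hf b v) σ) ^ 2 ≤ j * b v x := by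
    intro x
    rw [dir_pq w hw x _ _ (hp x)]
    have : ∑ σ, w σ * (pr (hf b x σ) * (1 - pr (hf b x σ)) * gr x (hf b v) σ ^ 2) ≤
        ∑ σ, w σ * (j * b v x) := Finset.sum_le_sum fun σ _ => by
      refine mul_le_mul_of_nonneg_left ?_ (hw σ).le
      have e2 : gr x (hf b v) σ = 2 * b v x := by unfold gr; rw [hf_upd]; ring
      rw [e2]
      have := mul_le_mul_of_nonneg_right (pq_le (hf b x σ)) (sq_nonneg (2 * b v x))
      have := mul_le_mul_of_nonneg_right (hj v x) (h0 v x)
      nlinarith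
    rwa [← Finset.sum_mul, h1, one_mul] at this
  refine (Finset.sum_le_sum fun x _ => d x).trans ?_
  rw [← Finset.mul_sum]
  have := (h0 v v).trans (hj v v)
  nlinarith [hrow v]

theorem gap_near (x₀ : V) (w : (V → Bool) → ℝ) (hw : ∀ σ, 0 < w σ) (h1 : ∑ σ, w σ = 1)
    (b : V → V → ℝ) (hs : ∀ u v, b u v = b v u) (h0 : ∀ u v, 0 ≤ b u v) (j c r s : ℝ)
    (hj : ∀ u v, b u v ≤ j) (hjr : j ≤ r) (hr : r ≤ 1 / 2) (hc : 0 < c) (hs0 : 0 ≤ s) (hs1 : s ≤ 1)
    (hrs : 10 * r ^ 2 ≤ c * s ^ 2)
    (hP : ∀ x u σ, Px w x u σ = av x (fun τ => pr (hf b x τ)) u σ)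
    (hp : ∀ x σ, pr (hf b x σ) =
      w (update σ x true) / (w (update σ x true) + w (update σ x false)))
    (MP : ∀ u : (V → Bool) → ℝ, (∀ σ, u (neg σ) = - u σ) → Monotone u →
      c * ip w u u ≤ ∑ x, ∑ σ, w σ * (u σ - Px w x u σ) ^ 2)
    (hy : ∀ v, ∑ σ, w σ * hf b v σ ^ 2 ≤ r ^ 2)
    (a : V → ℝ) (l : ℝ) (ha0 : ∀ v, 0 ≤ a v) (ha1 : ∑ v, a v ^ 2 = 1)
    (hal : ∀ u, ∑ v, b u v * a v = l * a u) (l0 : 0 ≤ l) (l1 : l ≤ 1) :
    l - (1 - c) ≤ 2 * s * l := by
  have j0 : 0 ≤ j := (h0 x₀ x₀).trans (hj x₀ x₀)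
  set L : (V → Bool) → ℝ := hf (fun _ v => a v) x₀ with hL
  set R : (V → Bool) → ℝ := fun σ => ∑ v, a v * (hf b v σ - (2 * pr (hf b v σ) - 1)) with hR
  have Lu : ∀ x σ, L (update σ x true) = L (update σ x false) + 2 * a x := fun x σ =>
    hf_upd (fun _ v => a v) x₀ x σ
  have e1 : ∀ x σ, L σ - Px w x L σ = a x * (sp (σ x) - (2 * pr (hf b x σ) - 1)) := by
    intro x σ
    rw [hP]
    unfold av
    beta_reduce
    have e := Lu x σ
    cases h : σ x
    · have : update σ x false = σ := by rw [← h]; simp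
      rw [this] at e ⊢
      rw [e]; simp only [sp]; norm_num; ring
    · have : update σ x true = σ := by rw [← h]; simp
      rw [this] at e ⊢
      rw [e]; simp only [sp]; norm_num; ring
  have e2 : ∀ σ, ∑ x, (L σ - Px w x L σ) = (1 - l) * L σ + R σ := by
    intro σ
    have t1 : ∑ x, a x * hf b x σ = l * L σ := by
      simp only [hL, hf, Finset.mul_sum]
      rw [Finset.sum_comm]
      refine Finset.sum_congr rfl fun u _ => ?_
      rw [← mul_assoc, ← hal, Finset.sum_mul]
      exact Finset.sum_congr rfl fun v _ => by rw [hs u v]; ring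
    have t2 : L σ = ∑ x, a x * sp (σ x) := rfl
    simp only [e1, hR, mul_sub, Finset.sum_sub_distrib]
    rw [t1, ← t2]; ring
  have D1 : ∑ x, ∑ σ, w σ * (L σ - Px w x L σ) ^ 2 = (1 - l) * ip w L L + ip w L R := by
    rw [dir_alt w hw]
    simp only [e2, ip_apply, Finset.mul_sum, ← Finset.sum_add_distrib]
    exact Finset.sum_congr rfl fun σ _ => by ring
  have D2 : 3 / 4 ≤ ∑ x, ∑ σ, w σ * (L σ - Px w x L σ) ^ 2 := by
    have d : ∀ x, 3 / 4 * a x ^ 2 ≤ ∑ σ, w σ * (L σ - Px w x L σ) ^ 2 := by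
      intro x
      rw [dir_pq w hw x _ _ (hp x)]
      have t : ∑ σ, (w σ * a x ^ 2 - a x ^ 2 * (w σ * hf b x σ ^ 2)) ≤
          ∑ σ, w σ * (pr (hf b x σ) * (1 - pr (hf b x σ)) * gr x L σ ^ 2) :=
        Finset.sum_le_sum fun σ _ => by
          have e : gr x L σ = 2 * a x := by unfold gr; rw [Lu]; ring
          have m := sq_le_sq' (abs_le.1 (m_abs (hf b x σ))).1 (abs_le.1 (m_abs (hf b x σ))).2
          rw [sq_abs] at m
          have := mul_le_mul_of_nonneg_left m (mul_nonneg (hw σ).le (sq_nonneg (a x)))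
          rw [e]
          nlinarith
      rw [Finset.sum_sub_distrib, ← Finset.sum_mul, ← Finset.mul_sum, h1] at t
      have r0 : 0 ≤ r := j0.trans hjr
      have r2 : r ^ 2 ≤ 1 / 4 := by nlinarith
      have := mul_le_mul_of_nonneg_left ((hy x).trans r2) (sq_nonneg (a x))
      linarith
    have := Finset.sum_le_sum fun x (_ : x ∈ univ) => d x
    rwa [← Finset.mul_sum, ha1, mul_one] at this
  have RR : c * ip w R R ≤ 10 * r ^ 2 * l ^ 2 := by
    have a1 := MP R (fun σ => by
        simp only [hR, hf_neg, pr_neg, ← Finset.sum_neg_distrib]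
        exact Finset.sum_congr rfl fun v _ => by ring)
      (fun σ τ h => Finset.sum_le_sum fun v _ => mul_le_mul_of_nonneg_left (by
        have := (rho_bd _ _ (|hf b v σ| + |hf b v τ|) (hf_mono b h0 v σ τ h)
          (by linarith [neg_abs_le (hf b v σ), abs_nonneg (hf b v τ)])
          (by linarith [le_abs_self (hf b v τ), abs_nonneg (hf b v σ)])).1
        linarith) (ha0 v))
    refine a1.trans ?_
    have EZ : ∀ v, ∑ σ, w σ * (|hf b v σ| + 2 * j) ^ 2 ≤ 10 * r ^ 2 := by
      intro v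
      have t : ∑ σ, w σ * (|hf b v σ| + 2 * j) ^ 2 ≤
          ∑ σ, (2 * (w σ * hf b v σ ^ 2) + w σ * (8 * j ^ 2)) := Finset.sum_le_sum fun σ _ => by
        have m : (|hf b v σ| + 2 * j) ^ 2 ≤ 2 * hf b v σ ^ 2 + 8 * j ^ 2 := by
          nlinarith [sq_abs (hf b v σ), sq_nonneg (|hf b v σ| - 2 * j)]
        have := mul_le_mul_of_nonneg_left m (hw σ).le
        linarith
      rw [Finset.sum_add_distrib, ← Finset.mul_sum, ← Finset.sum_mul, h1] at t
      have : j ^ 2 ≤ r ^ 2 := pow_le_pow_left₀ j0 hjr 2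
      linarith [hy v]
    have d : ∀ x, ∑ σ, w σ * (R σ - Px w x R σ) ^ 2 ≤ 10 * r ^ 2 * l ^ 2 * a x ^ 2 := by
      intro x
      rw [dir_pq w hw x _ _ (hp x)]
      have al : ∑ v, b x v * a v = l * a x := hal x
      have t : ∑ σ, w σ * (pr (hf b x σ) * (1 - pr (hf b x σ)) * gr x R σ ^ 2) ≤
          ∑ σ, w σ * (l * a x * ∑ v, b x v * a v * (|hf b v σ| + 2 * j) ^ 2) :=
        Finset.sum_le_sum fun σ _ => by
          refine mul_le_mul_of_nonneg_left ?_ (hw σ).le
          have k : ∀ v, 0 ≤ (hf b v (update σ x true) - (2 * pr (hf b v (update σ x true)) - 1)) -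
              (hf b v (update σ x false) - (2 * pr (hf b v (update σ x false)) - 1)) ∧
              (hf b v (update σ x true) - (2 * pr (hf b v (update σ x true)) - 1)) -
              (hf b v (update σ x false) - (2 * pr (hf b v (update σ x false)) - 1)) ≤
              (|hf b v σ| + 2 * j) * (2 * b x v) := by
            intro v
            have z := hf_Z b h0 j hj v x σ
            have u := hf_upd b v x σ
            have := rho_bd _ _ (|hf b v σ| + 2 * j) (by rw [u]; linarith [h0 v x]) z.1 z.2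
            have e : hf b v (update σ x true) - hf b v (update σ x false) = 2 * b x v := by
              rw [u, hs x v]; ring
            rwa [e] at this
          have g0 : gr x R σ = ∑ v, a v *
              ((hf b v (update σ x true) - (2 * pr (hf b v (update σ x true)) - 1)) -
              (hf b v (update σ x false) - (2 * pr (hf b v (update σ x false)) - 1))) := by
            simp only [gr, hR, ← Finset.sum_sub_distrib]
            exact Finset.sum_congr rfl fun v _ => by ring
          have g1 : 0 ≤ gr x R σ := by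
            rw [g0]; exact Finset.sum_nonneg fun v _ => mul_nonneg (ha0 v) (k v).1
          have g2 : gr x R σ ≤ 2 * ∑ v, b x v * a v * (|hf b v σ| + 2 * j) := by
            rw [g0, Finset.mul_sum]
            refine Finset.sum_le_sum fun v _ => ?_
            have := mul_le_mul_of_nonneg_left (k v).2 (ha0 v)
            linarith
          have g3 : (∑ v, b x v * a v * (|hf b v σ| + 2 * j)) ^ 2 ≤
              (∑ v, b x v * a v) * ∑ v, b x v * a v * (|hf b v σ| + 2 * j) ^ 2 :=
            Finset.sum_sq_le_sum_mul_sum_of_sq_le_mul _ (fun v _ => mul_nonneg (h0 _ _) (ha0 _))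
              (fun v _ => mul_nonneg (mul_nonneg (h0 _ _) (ha0 _)) (sq_nonneg _))
              (fun v _ => le_of_eq (by ring))
          rw [al] at g3
          have g4 := pow_le_pow_left₀ g1 g2 2
          have g5 := mul_le_mul_of_nonneg_right (pq_le (hf b x σ)) (sq_nonneg (gr x R σ))
          nlinarith
      refine t.trans ?_
      have e : ∑ σ, w σ * (l * a x * ∑ v, b x v * a v * (|hf b v σ| + 2 * j) ^ 2) =
          l * a x * ∑ v, b x v * a v * ∑ σ, w σ * (|hf b v σ| + 2 * j) ^ 2 := by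
        simp only [Finset.mul_sum]
        rw [Finset.sum_comm]
        exact Finset.sum_congr rfl fun v _ => Finset.sum_congr rfl fun σ _ => by ring
      have t2 : ∑ v, b x v * a v * ∑ σ, w σ * (|hf b v σ| + 2 * j) ^ 2 ≤
          ∑ v, b x v * a v * (10 * r ^ 2) := Finset.sum_le_sum fun v _ =>
        mul_le_mul_of_nonneg_left (EZ v) (mul_nonneg (h0 _ _) (ha0 _))
      rw [← Finset.sum_mul, al] at t2
      rw [e]
      have := mul_le_mul_of_nonneg_left t2 (mul_nonneg l0 (ha0 x))
      linarith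
    have := Finset.sum_le_sum fun x (_ : x ∈ univ) => d x
    rwa [← Finset.mul_sum, ha1, mul_one] at this
  have RR2 : ip w R R ≤ (s * l) ^ 2 := by
    refine le_of_mul_le_mul_left (RR.trans ?_) hc
    have := mul_le_mul_of_nonneg_right hrs (sq_nonneg l)
    linarith
  have U0 := ip_nonneg w hw L
  set u := √(ip w L L) with hu
  have u0 : 0 ≤ u := Real.sqrt_nonneg _
  have u2 : u ^ 2 = ip w L L := Real.sq_sqrt U0
  have C := cs (ip w) (ip_symm w) (ip_nonneg w hw) L R
  have sl : 0 ≤ s * l := mul_nonneg hs0 l0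
  have C2 : ip w L R ≤ u * (s * l) := by
    refine (abs_le_of_sq_le_sq' ?_ (mul_nonneg u0 sl)).2
    rw [mul_pow, u2]
    exact C.trans (mul_le_mul_of_nonneg_left RR2 U0)
  have M := MP L (hf_neg _ x₀) (fun σ τ h => hf_mono (fun _ v => a v) (fun _ v => ha0 v) x₀ σ τ h)
  rw [D1, ← u2] at M D2
  have sl1 : s * l ≤ 1 := mul_le_one₀ hs1 l0 l1
  have uh : 1 / 2 ≤ u := by
    by_contra h
    push Not at h
    have := mul_le_mul_of_nonneg_left sl1 u0
    have := mul_nonneg l0 (sq_nonneg u)
    nlinarith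
  have fin : (l - (1 - c)) * u ≤ s * l := by
    refine le_of_mul_le_mul_left ?_ (by linarith : 0 < u)
    nlinarith
  by_cases h : l - (1 - c) ≤ 0
  · nlinarith
  · push Not at h
    have := mul_le_mul_of_nonneg_left uh h.le
    linarith

end Pool.Agent.Lib.MP_e532e2_pr.Hi
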