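import Mathlib
import Pool.Agent.Lib.MP_e532e2_pr.HiL3

set_option autoImplicit false

namespace Pool.Agent.Lib.MP_e532e2_pr.Hi

open Function Finset

variable {V : Type} [Fintype V] [DecidableEq V]

theorem num1 (ε τ g l o ν : ℝ) (hε : 0 < ε) (l0 : 0 ≤ l) (o0 : 0 < o) (ν0 : 0 ≤ ν)
    (τl : τ * l ≤ ε / 32) (gap : l - g ≤ 2 * (τ / 16) * l)
    (s : (g + ε) * ν ^ 2 ≤ l * (ν * ν) + 4 * (l * (ν * o))) : ε * ν ≤ 8 * (l * o) := by
  rcases ν0.eq_or_lt with h | h
  · rw [← h, mul_zero]; positivity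
  · refine le_of_mul_le_mul_left ?_ h
    have : ε / 2 * ν ^ 2 ≤ (g + ε - l) * ν ^ 2 :=
      mul_le_mul_of_nonneg_right (by linarith) (sq_nonneg _)
    nlinarith

theorem num2 (ε τ t g l o ν μ : ℝ) (τ0 : 0 < τ) (τ1 : τ ≤ 1 / 32) (tτ : τ ≤ t) (t1 : t ≤ 1)
    (l0 : 0 ≤ l) (l1 : l ≤ 1) (g0 : 0 ≤ g) (o0 : 0 < o)
    (gap : l - g ≤ 2 * (τ / 16) * l) (hν : ε * ν ≤ 8 * (l * o))
    (s : g * o ^ 2 ≤ (1 - t) * (l * (o * o)) + (g * t * (o * μ) + g * t * (ε / 32) * (o * ν))) :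
    l * o ^ 2 ≤ 8 * (g * μ ^ 2) := by
  have lg : l ≤ g * (1 + τ / 4) := by
    have a : l * (1 - τ / 8) ≤ g := by linarith
    have b := mul_le_mul_of_nonneg_right a (by linarith : 0 ≤ 1 + τ / 4)
    have c : 0 ≤ l * (τ * (4 - τ)) := mul_nonneg l0 (mul_nonneg τ0.le (by linarith))
    nlinarith
  have gt : 0 ≤ g * t := mul_nonneg g0 (τ0.le.trans tτ)
  have s4 : ε * ν ≤ 8 * o := by nlinarith
  have s5 := mul_le_mul_of_nonneg_left s4 gt
  have s6 : g * o ≤ (1 - t) * (l * o) + g * t * μ + g * t * (ε / 32) * ν :=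
    le_of_mul_le_mul_left (by linarith) o0
  have s7 := mul_le_mul_of_nonneg_left (mul_le_mul_of_nonneg_right lg o0.le)
    (by linarith : 0 ≤ 1 - t)
  have go : 0 ≤ g * o := mul_nonneg g0 o0.le
  have s8 : (1 - t) * τ * (g * o) ≤ t * (g * o) :=
    mul_le_mul_of_nonneg_right (by nlinarith) go
  have s9 : g * o ≤ 2 * (g * μ) :=
    le_of_mul_le_mul_left (by linarith) (τ0.trans_le tτ)
  have s10 : g * o ^ 2 ≤ 4 * (g * μ ^ 2) := by
    rcases g0.eq_or_lt with h | h
    · rw [← h]; simp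
    · have : o ≤ 2 * μ := le_of_mul_le_mul_left (by linarith) h
      have := mul_le_mul_of_nonneg_left (pow_le_pow_left₀ o0.le this 2) h.le
      linarith
  have s11 : l ≤ 2 * g := by nlinarith
  have := mul_le_mul_of_nonneg_right s11 (sq_nonneg o)
  linarith

theorem num3 (ε r g l o ν μ S1 S2 : ℝ) (hε1 : ε ≤ 1) (r0 : 0 < r) (rε : r ≤ ε / 256) (l0 : 0 ≤ l)
    (o0 : 0 < o) (ν0 : 0 ≤ ν) (hν : ε * ν ≤ 8 * (l * o)) (key : l * o ^ 2 ≤ 8 * (g * μ ^ 2))
    (h1 : S1 ≤ l * (o * o)) (h2 : S2 ≤ o * ν) :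
    0 ≤ 1 / 8 * (g * μ ^ 2) - 2 * r * S1 - 3 / 16 * r * S2 := by
  have v1 := mul_le_mul_of_nonneg_left h1 r0.le
  have v2 := mul_le_mul_of_nonneg_left h2 r0.le
  have lo2 : 0 ≤ l * o ^ 2 := by positivity
  have a1 := mul_le_mul_of_nonneg_right rε (mul_nonneg o0.le ν0)
  have a2 := mul_le_mul_of_nonneg_left hν o0.le
  have v4 : r * (l * o ^ 2) ≤ 1 / 256 * (l * o ^ 2) :=
    mul_le_mul_of_nonneg_right (by linarith) lo2
  nlinarith

theorem num4 (p Y k A C D E Z bb O1 O2 Bx : ℝ) (Z0 : 0 ≤ Z) (bb0 : 0 ≤ bb) (y0 : 0 ≤ Y)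
    (B0 : 0 ≤ Bx) (k0 : 0 ≤ k) (k1 : k ≤ 1 / 4) (k2 : p / 2 - Y / 2 ≤ k) (A0 : 0 ≤ A) (A1 : A ≤ O1)
    (C0 : 0 ≤ C) (C1 : C ≤ O2) (p2 : (1 / 4 - 3 / 4 * Z) * (2 * bb) ≤ D) (p5 : -(Z / 4 * Bx) ≤ E) :
    1 / 8 * (bb * (2 * p * (A * C))) - O1 * (bb * O2) * (1 / 4 * Y + 3 / 8 * Z) -
      1 / 16 * (O1 * Bx) * Z ≤ k * (A * (E + D * C)) := by
  have AC : A * C ≤ O1 * O2 := mul_le_mul A1 C1 C0 (A0.trans A1)
  have AC0 := mul_nonneg A0 C0
  have kA : k * A ≤ 1 / 4 * O1 := mul_le_mul k1 A1 A0 (by norm_num)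
  have kA0 := mul_nonneg k0 A0
  have ZB := mul_nonneg Z0 B0
  have q1 := mul_le_mul_of_nonneg_left p5 kA0
  have q2 := mul_le_mul_of_nonneg_right kA ZB
  have q3 := mul_le_mul_of_nonneg_left p2 (mul_nonneg k0 AC0)
  have q4 := mul_le_mul_of_nonneg_right k2 (mul_nonneg bb0 AC0)
  have q5 := mul_le_mul_of_nonneg_right k1 (mul_nonneg (mul_nonneg bb0 Z0) AC0)
  have q6 := mul_le_mul_of_nonneg_left AC (mul_nonneg bb0 y0)
  have q7 := mul_le_mul_of_nonneg_left AC (mul_nonneg bb0 Z0)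
  linarith

theorem num5 (y : ℝ) : pr y / 2 - |y| / 2 ≤ pr y * (1 - pr y) := by
  have := (abs_le.1 (m_abs y)).2
  have := pr_pos y
  have := pr_lt y
  have := abs_nonneg y
  nlinarith

theorem num6 (g n : ℝ) (k T : ℕ) (hk : (k : ℝ) = n) (n1 : 1 ≤ n) (g0 : 0 ≤ g) (g1 : g ≤ 1) :
    Real.exp (-(T : ℝ)) ≤ (n / (g + n)) ^ (k * T) := by
  have a1 : Real.exp (-(1 / n)) ≤ n / (g + n) := by
    have a2 := Real.add_one_le_exp (1 / n)
    rw [Real.exp_neg, inv_le_comm₀ (Real.exp_pos _) (by positivity), inv_div]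
    refine le_trans ?_ a2
    rw [div_le_iff₀ (by linarith)]
    have : 1 / n * n = 1 := by field_simp
    nlinarith
  have a3 := pow_le_pow_left₀ (Real.exp_pos _).le a1 (k * T)
  rw [← Real.exp_nat_mul] at a3
  refine le_trans (le_of_eq ?_) a3
  congr 1; push_cast; rw [hk]; field_simp

theorem num7 (ε n : ℝ) (k T : ℕ) (hk : (k : ℝ) = n) (n1 : 1 ≤ n) (hε1 : ε ≤ 1) :
    (1 - ε / n) ^ (k * T) ≤ Real.exp (-(ε * T)) := by
  have a1 : 1 - ε / n ≤ Real.exp (-(ε / n)) := by linarith [Real.add_one_le_exp (-(ε / n))]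
  have a0 : 0 ≤ 1 - ε / n := by rw [sub_nonneg, div_le_one (by linarith)]; linarith
  have a3 := pow_le_pow_left₀ a0 a1 (k * T)
  rw [← Real.exp_nat_mul] at a3
  refine a3.trans (le_of_eq ?_)
  congr 1; push_cast; rw [hk]; field_simp

theorem sign2 (ε : ℝ) (T : ℕ) (hε : 0 < ε) (hε1 : ε ≤ 1) (hT : Real.exp (-(ε * T)) ≤ ε / 32)
    (w : (V → Bool) → ℝ) (hw : ∀ σ, 0 < w σ) (hsy : ∀ σ, w (neg σ) = w σ) (h1 : ∑ σ, w σ = 1)
    (b : V → V → ℝ) (hb0 : ∀ v, b v v = 0) (hs : ∀ u v, b u v = b v u) (h0 : ∀ u v, 0 ≤ b u v)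
    (hrow : ∀ u, ∑ v, b u v ≤ 1 - ε)
    (hj : ∀ u v, b u v ≤ ε * (ε * Real.exp (-(T : ℝ)) / 256) ^ 2)
    (hP : ∀ x u σ, Px w x u σ = av x (fun τ => pr (hf b x τ)) u σ)
    (f : (V → Bool) → ℝ) (c : ℝ) (hgr : ∀ x σ, 0 ≤ gr x f σ) (hne : ∃ x σ, 0 < gr x f σ)
    (he : ∀ σ, ∑ x, (f σ - Px w x f σ) = c * f σ) (hc : c ≤ 1)
    (MP : ∀ u : (V → Bool) → ℝ, (∀ σ, u (neg σ) = - u σ) → Monotone u →
      c * ip w u u ≤ ∑ x, ∑ σ, w σ * (u σ - Px w x u σ) ^ 2) :
    0 ≤ ∑ σ, w σ * (f σ * ∑ x,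
      (hf b x σ * (pr (hf b x σ) * (1 - pr (hf b x σ)))) * gr x f σ) := by
  obtain ⟨x₀, σ₀, hpos⟩ := id hne
  set τ := Real.exp (-(T : ℝ)) with hτ
  have τ0 : 0 < τ := Real.exp_pos _
  have τε : τ ≤ ε / 32 := by
    refine le_trans (Real.exp_le_exp.2 ?_) hT
    have : (0:ℝ) ≤ T := Nat.cast_nonneg T
    nlinarith
  set r := ε * τ / 256 with hr
  have r0 : 0 < r := by positivity
  have rε : r ≤ ε / 256 := by rw [hr]; nlinarith
  set j := ε * r ^ 2 with hjdef
  have j0 : 0 < j := by positivity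
  have jr : j ≤ r := by
    have : ε * r ≤ 1 := by nlinarith
    nlinarith
  have hp : ∀ x σ, pr (hf b x σ) =
      w (update σ x true) / (w (update σ x true) + w (update σ x false)) := by
    intro x σ
    have := hP x (fun τ => if τ x then 1 else 0) σ
    rw [Px_apply] at this
    simpa [av] using this.symm
  have hrow1 : ∀ u, ∑ v, b u v ≤ 1 := fun u => by linarith [hrow u]
  have hcol : ∀ y, ∑ x, b x y ≤ 1 - ε := fun y => by
    simp only [fun x => hs x y]; exact hrow y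
  have hi : ∀ y σ (s : Bool), pr (hf b y (update σ y s)) = pr (hf b y σ) := fun y σ s => by
    rw [hf_self b hb0]
  have hδ : ∀ x y σ, 0 ≤ gr x (fun τ => pr (hf b y τ)) σ := fun x y σ => by
    have e := hf_upd b y x σ
    exact sub_nonneg.2 (pr_mono _ _ (by rw [e]; linarith [h0 y x]))
  have hup : ∀ x y σ, gr x (fun τ => pr (hf b y τ)) σ ≤ b x y := fun x y σ => by
    have e := hf_upd b y x σ
    have := pr_up (hf b y (update σ x false)) (hf b y (update σ x true))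
      (by rw [e]; linarith [h0 y x])
    have e2 : hf b y (update σ x true) - hf b y (update σ x false) = 2 * b x y := by
      rw [e, hs x y]; ring
    rw [e2] at this
    unfold gr
    linarith
  have he' : ∀ σ, ∑ y, (f σ - av y (fun τ => pr (hf b y τ)) f σ) = c * f σ := fun σ => by
    simp only [← hP]; exact he σ
  obtain ⟨hg, Ω, B, hΩ, hΩa, hB, Bs, hN⟩ := bounds (fun y τ => pr (hf b y τ)) f c (1 - ε) b hi
    (fun y σ => (pr_pos _).le) (fun y σ => (pr_lt _).le) (by linarith) h0 hrow hcol hδ hup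
    (fun w x y σ hwx => by
      have e1 := hf_upd b y x (update σ w true)
      have e2 := hf_upd b y x (update σ w false)
      have e3 := hf_upd b y w (update σ x false)
      rw [← update_comm hwx, ← update_comm hwx] at e3
      have := pr_second' (hf b y (update (update σ w false) x false) + b y x + b y w)
        (b y x) (b y w) (h0 _ _) (h0 _ _)
      unfold gr
      beta_reduce
      rw [e1, e2, e3, hs x y, hs w y]
      convert this using 5 <;> ring) he' hc hgr hne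
  have cε : ε ≤ c := by linarith
  have c0 : 0 < c := by linarith
  have Ω0 : ∀ x, 0 ≤ Ω x := fun x => (hgr x σ₀).trans (hΩ x σ₀)
  have B0 : ∀ z x, 0 ≤ B z x := fun z x => (abs_nonneg _).trans (hB z x σ₀)
  set N : V → ℝ := fun x => ∑ z, B z x with hNdef
  have N0 : ∀ x, 0 ≤ N x := fun x => Finset.sum_nonneg fun z _ => B0 z x
  have hy : ∀ v, ∑ σ, w σ * hf b v σ ^ 2 ≤ r ^ 2 := fun v => by
    have a := field_sq w hw h1 b h0 j c hj hrow1 hp MP v
    have p : 0 ≤ ∑ σ, w σ * hf b v σ ^ 2 :=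
      Finset.sum_nonneg fun σ _ => mul_nonneg (hw σ).le (sq_nonneg _)
    have := mul_le_mul_of_nonneg_right cε p
    exact le_of_mul_le_mul_left (by linarith) hε
  have hy1 : ∀ v, ∑ σ, w σ * |hf b v σ| ≤ r := fun v => by
    have a := cs (ip w) (ip_symm w) (ip_nonneg w hw) (fun _ => 1) (fun σ => |hf b v σ|)
    simp only [ip_apply, one_mul, mul_one, h1, abs_mul_abs_self] at a
    have e : ∑ σ, w σ * (hf b v σ * hf b v σ) = ∑ σ, w σ * hf b v σ ^ 2 := by simp only [sq]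
    rw [e] at a
    exact (abs_le_of_sq_le_sq' (a.trans (hy v)) r0.le).2
  obtain ⟨a, l, ha0, ha1, hal, l0, l1, hbil⟩ := perron x₀ b hs h0 hrow1
  have gap := gap_near x₀ w hw h1 b hs h0 j c r (τ / 16) hj jr (by linarith) c0 (by positivity)
    (by linarith) (by
      have : 10 * r ^ 2 ≤ ε * (τ / 16) ^ 2 := by
        have e : 10 * r ^ 2 = (ε * τ ^ 2) * (10 * ε / 65536) := by rw [hr]; ring
        have e2 : ε * (τ / 16) ^ 2 = (ε * τ ^ 2) * (1 / 256) := by ring
        rw [e, e2]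
        exact mul_le_mul_of_nonneg_left (by linarith) (by positivity)
      exact this.trans (mul_le_mul_of_nonneg_right cε (sq_nonneg _))) hP hp MP hy a l ha0 ha1 hal l0 l1
  set g := 1 - c with hgdef
  have g0 : 0 ≤ g := by linarith
  set o := √(∑ v, Ω v ^ 2) with ho
  set ν := √(∑ v, N v ^ 2) with hν
  have o2 : o ^ 2 = ∑ v, Ω v ^ 2 := Real.sq_sqrt (Finset.sum_nonneg fun v _ => sq_nonneg _)
  have ν2 : ν ^ 2 = ∑ v, N v ^ 2 := Real.sq_sqrt (Finset.sum_nonneg fun v _ => sq_nonneg _)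
  have ν0 : 0 ≤ ν := Real.sqrt_nonneg _
  have o0 : 0 < o := Real.sqrt_pos.2 (lt_of_lt_of_le (pow_pos (hpos.trans_le (hΩ x₀ σ₀)) 2)
    (Finset.single_le_sum (f := fun v => Ω v ^ 2) (fun v _ => sq_nonneg _) (mem_univ x₀)))
  have τl : τ * l ≤ ε / 32 := (mul_le_of_le_one_right τ0.le l1).trans τε
  have hνb : ε * ν ≤ 8 * (l * o) := by
    have s : ∑ x, (g + ε) * N x ^ 2 ≤
        ∑ x, (N x * ∑ y, b x y * N y + 4 * (N x * ∑ y, b x y * Ω y)) :=
      Finset.sum_le_sum fun x _ => by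
        have t : (2 - c - (1 - ε)) * N x ≤ ∑ y, b x y * N y + 4 * ∑ y, b x y * Ω y := hN x
        have := mul_le_mul_of_nonneg_left t (N0 x)
        have e : (g + ε) * N x ^ 2 = N x * ((2 - c - (1 - ε)) * N x) := by rw [hgdef]; ring
        rw [e]; linarith only [this]
    rw [← Finset.mul_sum, Finset.sum_add_distrib, ← Finset.mul_sum, ← ν2] at s
    have b1 := hbil N N N0 N0
    have b2 := hbil N Ω N0 Ω0
    rw [← hν] at b1 b2
    rw [← ho] at b2
    exact num1 ε τ g l o ν hε l0 o0 ν0 τl gap (by linarith only [s, b1, b2])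
  set n : ℝ := (Fintype.card V : ℝ) with hn
  have n1 : 1 ≤ n := by
    have : 0 < Fintype.card V := Fintype.card_pos_iff.2 ⟨x₀⟩
    rw [hn]; exact_mod_cast this
  set t := (n / (g + n)) ^ (Fintype.card V * T) with ht
  have t1 : t ≤ 1 := pow_le_one₀ (by positivity) (by rw [div_le_one (by linarith)]; linarith)
  have tτ : τ ≤ t := num6 g n _ T rfl n1 g0 (by linarith only [hg, hε])
  have δb : (1 - ε / n) ^ (Fintype.card V * T) ≤ ε / 32 := (num7 ε n _ T rfl n1 hε1).trans hT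
  have hPp : ∀ x y, y ≠ x → ∀ u σ, Px (fun σ => w (update σ x true)) y u σ =
      av y (fun τ => pr (hf b y (update τ x true))) u σ := by
    intro x y hyx u σ
    rw [Px_apply]
    unfold av
    beta_reduce
    rw [hp, update_comm hyx, update_comm hyx]
    have := hw (update (update σ x true) y true)
    have := hw (update (update σ x true) y false)
    field_simp
    ring
  have F := first (fun y τ => pr (hf b y τ)) f c hi he'
  set m : V → ℝ := fun x => ∑ σ, w (update σ x true) * gr x f σ with hm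
  have Har : ∀ x, g * Ω x ≤ (1 - t) * ∑ y, b x y * Ω y + g * t * (m x + ε / 32 * N x) := by
    intro x
    obtain ⟨σ, hσ⟩ := hΩa x
    have := harnack2 x (fun σ => w (update σ x true)) (fun σ => hw _) (plus_mass w hsy h1 x)
      (fun y τ => pr (hf b y (update τ x true))) b ε g (∑ y, b x y * Ω y) hε1 g0 (hPp x)
      (fun y σ s => by
        by_cases h : y = x
        · subst h; simp
        · rw [update_comm h, hi])
      (fun y σ s => by simp) (fun y σ => (pr_pos _).le) (fun y σ => (pr_lt _).le) h0 hcol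
      (fun z y σ hz => by
        rw [gr_upd hz (fun τ => pr (hf b y τ)), abs_of_nonneg (hδ _ _ _)]
        exact hup _ _ _)
      (gr x f) _ (fun σ s => by simp [gr]) (F x)
      (fun σ => Finset.sum_le_sum fun y _ => mul_le_mul (hup _ _ _) (hΩ _ _) (hgr _ _) (h0 _ _))
      (fun z => B z x) (fun z σ => hB z x σ) (Fintype.card V * T) σ
    rw [hσ, ← hn, ← ht] at this
    refine this.trans (add_le_add le_rfl (mul_le_mul_of_nonneg_left (add_le_add le_rfl ?_)
      (mul_nonneg g0 (τ0.le.trans tτ))))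
    exact mul_le_mul_of_nonneg_right δb (N0 x)
  set μ := √(∑ v, m v ^ 2) with hμ
  have μ2 : μ ^ 2 = ∑ v, m v ^ 2 := Real.sq_sqrt (Finset.sum_nonneg fun v _ => sq_nonneg _)
  have μ0 : 0 ≤ μ := Real.sqrt_nonneg _
  have bΩ := hbil Ω Ω Ω0 Ω0
  rw [← ho] at bΩ
  have cN := Real.sum_mul_le_sqrt_mul_sqrt univ Ω N
  rw [← ho, ← hν] at cN
  have key : l * o ^ 2 ≤ 8 * (g * μ ^ 2) := by
    have s : ∑ x, g * Ω x ^ 2 ≤ ∑ x, ((1 - t) * (Ω x * ∑ y, b x y * Ω y) +
        (g * t * (Ω x * m x) + g * t * (ε / 32) * (Ω x * N x))) :=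
      Finset.sum_le_sum fun x _ => by
        have := mul_le_mul_of_nonneg_left (Har x) (Ω0 x)
        linarith only [this]
    simp only [Finset.sum_add_distrib, ← Finset.mul_sum] at s
    rw [← o2] at s
    have cm := Real.sum_mul_le_sqrt_mul_sqrt univ Ω m
    rw [← ho, ← hμ] at cm
    have gt : 0 ≤ g * t := mul_nonneg g0 (τ0.le.trans tτ)
    have s1 := mul_le_mul_of_nonneg_left bΩ (by linarith : 0 ≤ 1 - t)
    have s2 := mul_le_mul_of_nonneg_left cm gt
    have s3 := mul_le_mul_of_nonneg_left cN (mul_nonneg gt (by linarith : 0 ≤ ε / 32))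
    exact num2 ε τ t g l o ν μ τ0 (by linarith only [τε, hε1]) tτ t1 l0 l1 g0 o0 gap hνb
      (by linarith only [s, s1, s2, s3])
  have test : ∀ x, g * m x ^ 2 ≤
      ∑ y, b x y * ∑ σ, w σ * (2 * pr (hf b x σ) * (gr x f σ * gr y f (update σ x false))) := by
    intro x
    have wp : ∀ σ, 0 < w (update σ x true) := fun σ => hw _
    have a1 := cs (ip fun σ => w (update σ x true)) (ip_symm _) (ip_nonneg _ wp) (fun _ => 1) (gr x f)
    simp only [ip_apply, one_mul, mul_one, plus_mass w hsy h1 x] at a1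
    have a2 : ∑ σ, w (update σ x true) * (gr x f σ * (g * gr x f σ + ∑ y ∈ univ.erase x,
        (gr x f σ - av y (fun τ => pr (hf b y (update τ x true))) (gr x f) σ))) ≤
        ∑ σ, ∑ y, b x y * (w (update σ x true) * (gr x f σ * gr y f (update σ x false))) :=
      Finset.sum_le_sum fun σ _ => by
        rw [F x σ, Finset.mul_sum, Finset.mul_sum]
        refine Finset.sum_le_sum fun y _ => ?_
        have := mul_le_mul_of_nonneg_right (hup x y σ)
          (mul_nonneg (wp σ).le (mul_nonneg (hgr x σ) (hgr y (update σ x false))))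
        linarith only [this]
    have a3 : 0 ≤ ∑ y ∈ univ.erase x, ∑ σ, w (update σ x true) * (gr x f σ *
        (gr x f σ - av y (fun τ => pr (hf b y (update τ x true))) (gr x f) σ)) :=
      Finset.sum_nonneg fun y hy => by
        have := sq_Px _ wp y (gr x f)
        have p : 0 ≤ ∑ σ, w (update σ x true) *
            (gr x f σ - Px (fun σ => w (update σ x true)) y (gr x f) σ) ^ 2 :=
          Finset.sum_nonneg fun σ _ => mul_nonneg (wp σ).le (sq_nonneg _)
        rw [this] at p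
        simp only [ip_apply, hPp x y (Finset.ne_of_mem_erase hy), ← Finset.sum_sub_distrib,
          ← mul_sub] at p
        exact p
    have a4 : ∑ σ, w (update σ x true) * (gr x f σ * (g * gr x f σ + ∑ y ∈ univ.erase x,
        (gr x f σ - av y (fun τ => pr (hf b y (update τ x true))) (gr x f) σ))) =
        g * ∑ σ, w (update σ x true) * (gr x f σ * gr x f σ) +
        ∑ y ∈ univ.erase x, ∑ σ, w (update σ x true) * (gr x f σ *
        (gr x f σ - av y (fun τ => pr (hf b y (update τ x true))) (gr x f) σ)) := by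
      rw [Finset.sum_comm, Finset.mul_sum, ← Finset.sum_add_distrib]
      refine Finset.sum_congr rfl fun σ _ => ?_
      rw [← Finset.mul_sum, ← Finset.mul_sum]; ring
    rw [Finset.sum_comm, a4] at a2
    have a5 : ∀ y, ∑ σ, b x y * (w (update σ x true) * (gr x f σ * gr y f (update σ x false))) =
        b x y * ∑ σ, w σ * (2 * pr (hf b x σ) * (gr x f σ * gr y f (update σ x false))) := by
      intro y
      rw [← Finset.mul_sum, blind_conv w hw x _ _ (hp x) (fun σ s => by simp [gr])]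
    simp only [a5] at a2
    have := mul_le_mul_of_nonneg_left a1 g0
    exact this.trans (by linarith only [a2, a3])
  set G : (V → Bool) → ℝ := fun σ => ∑ x,
    (hf b x σ * (pr (hf b x σ) * (1 - pr (hf b x σ)))) * gr x f σ with hG
  have pt : ∀ x σ, ∑ y, (1 / 8 * (b x y * (2 * pr (hf b x σ) *
      (gr x f σ * gr y f (update σ x false)))) - Ω x * (b x y * Ω y) *
      (1 / 4 * |hf b x σ| + 3 / 8 * (|hf b y σ| + 2 * j)) -
      1 / 16 * (Ω x * B x y) * (|hf b y σ| + 2 * j)) ≤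
      pr (hf b x σ) * (1 - pr (hf b x σ)) * (gr x f σ * gr x G σ) := by
    intro x σ
    have e : gr x G σ = ∑ y, gr x (fun σ => (hf b y σ * (pr (hf b y σ) * (1 - pr (hf b y σ)))) *
        gr y f σ) σ := by
      simp only [hG, gr.eq_1 x, ← Finset.sum_sub_distrib]
    rw [e, Finset.mul_sum, Finset.mul_sum]
    refine Finset.sum_le_sum fun y _ => ?_
    rw [gr_mul]
    have z := hf_Z b h0 j hj y x σ
    have u := hf_upd b y x σ
    set Z := |hf b y σ| + 2 * j with hZ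
    have Z0 : 0 ≤ Z := by positivity
    have p1 := phi_low' _ _ Z (by rw [u]; linarith [h0 y x]) z.1 z.2
    have e2 : hf b y (update σ x true) - hf b y (update σ x false) = 2 * b x y := by
      rw [u, hs x y]; ring
    rw [e2] at p1
    have p2 : (1 / 4 - 3 / 4 * Z) * (2 * b x y) ≤
        gr x (fun σ => hf b y σ * (pr (hf b y σ) * (1 - pr (hf b y σ)))) σ := p1
    have p4 : |hf b y (update σ x true) * (pr (hf b y (update σ x true)) *
        (1 - pr (hf b y (update σ x true)))) * gr x (gr y f) σ| ≤ Z / 4 * B x y := by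
      have q : |hf b y (update σ x true)| ≤ Z := abs_le.2 ⟨by linarith [h0 y x, z.1], z.2⟩
      rw [abs_mul, abs_mul, abs_of_pos (pq_pos _)]
      refine mul_le_mul ?_ (hB x y σ) (abs_nonneg _) (by linarith)
      have := mul_le_mul q (pq_le (hf b y (update σ x true))) (pq_pos _).le Z0
      linarith
    exact num4 _ _ _ _ _ _ _ _ _ _ _ _ Z0 (h0 x y) (abs_nonneg _) (B0 x y) (pq_pos _).le (pq_le _)
      (num5 _) (hgr _ _) (hΩ _ _) (hgr _ _) (hΩ _ _) p2 (abs_le.1 p4).1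
  have low : ∀ x, 1 / 8 * (g * m x ^ 2) - 2 * r * (Ω x * ∑ y, b x y * Ω y) -
      3 / 16 * r * (Ω x * N x) ≤ ∑ σ, w σ * ((f σ - Px w x f σ) * G σ) := by
    intro x
    rw [pair_id w hw x _ f G (hp x)]
    refine le_trans ?_ (Finset.sum_le_sum fun σ _ => mul_le_mul_of_nonneg_left (pt x σ) (hw σ).le)
    have sw : ∀ Φ : V → (V → Bool) → ℝ, ∑ y, ∑ σ, w σ * Φ y σ = ∑ σ, w σ * ∑ y, Φ y σ := by
      intro Φ
      rw [Finset.sum_comm]
      exact Finset.sum_congr rfl fun σ _ => by rw [Finset.mul_sum]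
    refine le_trans ?_ (le_of_eq (sw _))
    have s : ∀ y, 1 / 8 * (b x y * ∑ σ, w σ * (2 * pr (hf b x σ) *
        (gr x f σ * gr y f (update σ x false)))) - 2 * r * (Ω x * (b x y * Ω y)) -
        3 / 16 * r * (Ω x * B y x) ≤ ∑ σ, w σ * (1 / 8 * (b x y * (2 * pr (hf b x σ) *
        (gr x f σ * gr y f (update σ x false)))) - Ω x * (b x y * Ω y) *
        (1 / 4 * |hf b x σ| + 3 / 8 * (|hf b y σ| + 2 * j)) -
        1 / 16 * (Ω x * B x y) * (|hf b y σ| + 2 * j)) := by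
      intro y
      have e : ∑ σ, w σ * (1 / 8 * (b x y * (2 * pr (hf b x σ) *
          (gr x f σ * gr y f (update σ x false)))) - Ω x * (b x y * Ω y) *
          (1 / 4 * |hf b x σ| + 3 / 8 * (|hf b y σ| + 2 * j)) -
          1 / 16 * (Ω x * B x y) * (|hf b y σ| + 2 * j)) =
          1 / 8 * (b x y * ∑ σ, w σ * (2 * pr (hf b x σ) *
          (gr x f σ * gr y f (update σ x false)))) - Ω x * (b x y * Ω y) *
          (1 / 4 * ∑ σ, w σ * |hf b x σ| + 3 / 8 * (∑ σ, w σ * |hf b y σ| + 2 * j * ∑ σ, w σ)) -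
          1 / 16 * (Ω x * B x y) * (∑ σ, w σ * |hf b y σ| + 2 * j * ∑ σ, w σ) := by
        simp only [Finset.mul_sum, ← Finset.sum_add_distrib, ← Finset.sum_sub_distrib]
        exact Finset.sum_congr rfl fun σ _ => by ring
      rw [e, h1, Bs y x]
      have u1 := mul_le_mul_of_nonneg_left (by linarith only [hy1 x, hy1 y, jr, r0] :
        1 / 4 * ∑ σ, w σ * |hf b x σ| + 3 / 8 * (∑ σ, w σ * |hf b y σ| + 2 * j * 1) ≤ 2 * r)
        (mul_nonneg (Ω0 x) (mul_nonneg (h0 x y) (Ω0 y)))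
      have u2 := mul_le_mul_of_nonneg_left (by linarith only [hy1 y, jr] :
        ∑ σ, w σ * |hf b y σ| + 2 * j * 1 ≤ 3 * r) (mul_nonneg (Ω0 x) (B0 x y))
      linarith only [u1, u2]
    refine le_trans ?_ (Finset.sum_le_sum fun y _ => s y)
    simp only [Finset.sum_sub_distrib, ← Finset.mul_sum]
    have := test x
    have e : ∑ y, B y x = N x := rfl
    rw [e]
    linarith only [this]
  have fin := Finset.sum_le_sum fun x (_ : x ∈ univ) => low x
  simp only [Finset.sum_sub_distrib, ← Finset.mul_sum] at fin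
  rw [← μ2, Finset.sum_comm] at fin
  have e : ∑ σ, ∑ x, w σ * ((f σ - Px w x f σ) * G σ) = c * ∑ σ, w σ * (f σ * G σ) := by
    rw [Finset.mul_sum]
    refine Finset.sum_congr rfl fun σ _ => ?_
    rw [← Finset.mul_sum, ← Finset.sum_mul, he]; ring
  rw [e] at fin
  have z := num3 ε r g l o ν μ _ _ hε1 r0 rε l0 o0 ν0 hνb key bΩ cN
  exact le_of_mul_le_mul_left (by rw [mul_zero]; exact z.trans fin) c0

end Pool.Agent.Lib.MP_e532e2_pr.Hi
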