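import Mathlib
import Pool.Agent.Lib.MP_e532e2_pr.HiL4

set_option autoImplicit false

namespace Pool.Agent.Lib.MP_e532e2_pr.Hi

open Function Finset

variable {V : Type} [Fintype V] [DecidableEq V]

theorem sign3 (ε : ℝ) (T : ℕ) (hε : 0 < ε) (hε1 : ε ≤ 1) (hT : Real.exp (-(ε * T)) ≤ ε / 32)
    (a : V → V → ℝ) (ha : ∀ v, a v v = 0) (hs : ∀ u v, a u v = a v u)
    (h0 : ∀ u v, 0 ≤ a u v) (Δ t : ℝ) (hΔ : ∀ v, ∑ u, a v u ≤ Δ) (ht : 0 ≤ t) (htΔ : t * Δ ≤ 1 - ε)
    (hj : ∀ u v, t * a u v ≤ ε * (ε * Real.exp (-(T : ℝ)) / 256) ^ 2)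
    (f : (V → Bool) → ℝ) (c : ℝ) (hodd : ∀ σ, f (neg σ) = - f σ) (hm : Monotone f)
    (h1 : ip (Wt a t) f f = 1) (he : ∀ σ, ∑ x, (f σ - Px (Wt a t) x f σ) = c * f σ) (hc : c ≤ 1)
    (MP : ∀ u : (V → Bool) → ℝ, (∀ σ, u (neg σ) = - u σ) → Monotone u →
      c * ip (Wt a t) u u ≤ ∑ x, ∑ σ, Wt a t σ * (u σ - Px (Wt a t) x u σ) ^ 2) :
    0 ≤ ∑ σ, Wt a t σ * (f σ * ∑ x,
      (hf a x σ * (pr (t * hf a x σ) * (1 - pr (t * hf a x σ)))) * gr x f σ) := by
  rcases ht.eq_or_lt with h | tp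
  · exact sign a ha hs h0 Δ t hΔ ht (by rw [← h]; norm_num) f c hodd hm h1 he hc
  have hgr : ∀ x σ, 0 ≤ gr x f σ := fun x σ =>
    sub_nonneg.2 (hm (update_le_update_iff.2 ⟨by simp, fun j _ => le_rfl⟩))
  have hne : ∃ x σ, 0 < gr x f σ := by
    by_contra h
    push Not at h
    have hz : ∀ σ τ, f σ - f τ ≤ 0 := fun σ τ => by
      have := osc f (fun _ => 0) (fun w σ => by rw [le_antisymm (h w σ) (hgr w σ)]; simp) σ τ
      simpa using this
    have hf0 : f = 0 := by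
      funext σ
      have a1 := hz σ (neg σ)
      have a2 := hz (neg σ) σ
      rw [hodd] at a1 a2
      simp only [Pi.zero_apply]; linarith
    rw [hf0] at h1
    simp at h1
  have Z : 0 < ∑ τ, Wt a t τ := Finset.sum_pos (fun _ _ => Wt_pos a t _) Finset.univ_nonempty
  have eh : ∀ x σ, hf (fun u v => t * a u v) x σ = t * hf a x σ := by
    intro x σ
    simp only [hf, Finset.mul_sum, mul_assoc]
  have eP : ∀ x (g : (V → Bool) → ℝ) σ,
      Px (fun σ => Wt a t σ / ∑ τ, Wt a t τ) x g σ = Px (Wt a t) x g σ := by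
    intro x g σ
    rw [Px_apply, Px_apply]
    have := Wt_pos a t (update σ x true)
    have := Wt_pos a t (update σ x false)
    field_simp
  have key := sign2 ε T hε hε1 hT (fun σ => Wt a t σ / ∑ τ, Wt a t τ)
    (fun σ => div_pos (Wt_pos a t σ) Z) (fun σ => by simp only [Wt_neg])
    (by rw [← Finset.sum_div, div_self Z.ne']) (fun u v => t * a u v) (fun v => by simp [ha])
    (fun u v => by rw [hs]) (fun u v => mul_nonneg ht (h0 u v))
    (fun u => by
      rw [← Finset.mul_sum]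
      exact (mul_le_mul_of_nonneg_left (hΔ u) ht).trans htΔ) hj
    (fun x u σ => by simp only [eP, eh, Px_av a ha hs]) f c hgr hne
    (fun σ => by simp only [eP]; exact he σ) hc
    (fun u hu hum => by
      have := div_le_div_of_nonneg_right (MP u hu hum) Z.le
      simp only [eP, ip_apply] at this ⊢
      simp only [div_mul_eq_mul_div, ← Finset.sum_div, ← mul_div_assoc]
      exact this)
  simp only [eh] at key
  have e : ∑ σ, Wt a t σ / (∑ τ, Wt a t τ) * (f σ * ∑ x,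
      (t * hf a x σ * (pr (t * hf a x σ) * (1 - pr (t * hf a x σ)))) * gr x f σ) =
      t / (∑ τ, Wt a t τ) * ∑ σ, Wt a t σ * (f σ * ∑ x,
      (hf a x σ * (pr (t * hf a x σ) * (1 - pr (t * hf a x σ)))) * gr x f σ) := by
    rw [Finset.mul_sum]
    refine Finset.sum_congr rfl fun σ _ => ?_
    simp only [mul_assoc t, ← Finset.mul_sum]
    ring
  rw [e] at key
  exact le_of_mul_le_mul_left (by rw [mul_zero]; exact key) (div_pos tp Z)

theorem exT (ε : ℝ) (hε : 0 < ε) : ∃ T : ℕ, Real.exp (-(ε * T)) ≤ ε / 32 := by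
  obtain ⟨T, hT⟩ := exists_nat_ge (32 / ε ^ 2)
  refine ⟨T, ?_⟩
  have a := Real.add_one_le_exp (ε * T)
  rw [div_le_iff₀ (by positivity)] at hT
  rw [Real.exp_neg, inv_le_comm₀ (Real.exp_pos _) (by positivity), inv_div, div_le_iff₀ hε]
  nlinarith

theorem hi_main2 (a : V → V → ℝ) (ha : ∀ v, a v v = 0) (hs : ∀ u v, a u v = a v u)
    (h0 : ∀ u v, 0 ≤ a u v) (β β' : ℝ) (hβ : 0 ≤ β) (hle : β ≤ β')
    (hsign : ∀ t, 0 ≤ t → t ≤ β' → ∀ (f : (V → Bool) → ℝ) (c : ℝ), (∀ σ, f (neg σ) = - f σ) →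
      Monotone f → ip (Wt a t) f f = 1 → (∀ σ, ∑ x, (f σ - Px (Wt a t) x f σ) = c * f σ) → c ≤ 1 →
      (∀ u : (V → Bool) → ℝ, (∀ σ, u (neg σ) = - u σ) → Monotone u →
        c * ip (Wt a t) u u ≤ ∑ x, ∑ σ, Wt a t σ * (u σ - Px (Wt a t) x u σ) ^ 2) →
      0 ≤ ∑ σ, Wt a t σ * (f σ * ∑ x,
        (hf a x σ * (pr (t * hf a x σ) * (1 - pr (t * hf a x σ)))) * gr x f σ)) (c₀ : ℝ)
    (h : ∀ u : (V → Bool) → ℝ, (∀ σ, u (neg σ) = - u σ) → Monotone u →
      c₀ * ip (Wt a β') u u ≤ ∑ x, ∑ σ, Wt a β' σ * (u σ - Px (Wt a β') x u σ) ^ 2)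
    (u : (V → Bool) → ℝ) (hu : ∀ σ, u (neg σ) = - u σ) (hum : Monotone u) :
    c₀ * ip (Wt a β) u u ≤ ∑ x, ∑ σ, Wt a β σ * (u σ - Px (Wt a β) x u σ) ^ 2 := by
  rcases isEmpty_or_nonempty V with hV | ⟨⟨x₀⟩⟩
  · have : u = 0 := by
      funext σ
      have e : neg σ = σ := Subsingleton.elim _ _
      have := hu σ
      rw [e] at this
      simp only [Pi.zero_apply]; linarith
    simp [this]
  have ex := fun (t : ℝ) (ht : 0 ≤ t) =>
    exists_eig x₀ (Wt a t) (Wt_pos a t) (Wt_neg a t) (Wt_lat a ha hs h0 t ht)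
  choose! f c fodd fm f1 fe c1 cP using ex
  have hD : ∀ t, 0 ≤ t → ∑ x, ∑ σ, Wt a t σ * (f t σ - Px (Wt a t) x (f t) σ) ^ 2 = c t := by
    intro t ht
    rw [dir_alt _ (Wt_pos a t)]
    simp only [fe t ht]
    have : ∑ σ, Wt a t σ * (f t σ * (c t * f t σ)) = c t * ip (Wt a t) (f t) (f t) := by
      rw [ip_apply, Finset.mul_sum]; exact Finset.sum_congr rfl fun σ _ => by ring
    rw [this, f1 t ht, mul_one]
  have c0 : ∀ t, 0 ≤ t → 0 ≤ c t := fun t ht => by
    rw [← hD t ht]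
    exact Finset.sum_nonneg fun x _ => Finset.sum_nonneg fun σ _ =>
      mul_nonneg (Wt_pos a t σ).le (sq_nonneg _)
  set K := ∑ τ, |En a τ| with hK
  have ipc : ∀ s t, 0 ≤ t → 1 ≤ Real.exp (|s - t| * K) * ip (Wt a s) (f t) (f t) := by
    intro s t ht
    refine (f1 t ht).symm.trans_le ?_
    rw [ip_apply, ip_apply, Finset.mul_sum]
    refine Finset.sum_le_sum fun σ _ => ?_
    rw [← mul_assoc (Real.exp _), abs_sub_comm]
    exact mul_le_mul_of_nonneg_right (Wt_cmp a t s σ) (mul_self_nonneg _)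
  have cmp : ∀ s t, 0 ≤ s → 0 ≤ t → c s ≤ Real.exp (|s - t| * K) ^ 2 * c t := by
    intro s t hs' ht
    have a1 := cP s hs' (f t) (fodd t ht) (fm t ht)
    have a2 : ∑ x, ∑ σ, Wt a s σ * (f t σ - Px (Wt a s) x (f t) σ) ^ 2 ≤
        Real.exp (|s - t| * K) * c t := by
      rw [← hD t ht, Finset.mul_sum]
      refine Finset.sum_le_sum fun x _ => ?_
      refine (team _ (Wt_pos a s) x (f t) (Px (Wt a t) x (f t)) (Px_update _ _ _)).trans ?_
      rw [Finset.mul_sum]
      refine Finset.sum_le_sum fun σ _ => ?_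
      rw [← mul_assoc]
      exact mul_le_mul_of_nonneg_right (Wt_cmp a s t σ) (sq_nonneg _)
    have a3 := mul_le_mul_of_nonneg_left (ipc s t ht) (c0 s hs')
    have a4 := mul_le_mul_of_nonneg_left (a1.trans a2) (Real.exp_pos (|s - t| * K)).le
    nlinarith
  have cont : ContinuousOn c (Set.Icc β β') := by
    intro t ht
    have ht0 : 0 ≤ t := hβ.trans ht.1
    have k : Continuous fun s : ℝ => Real.exp (|s - t| * K) ^ 2 := by fun_prop
    have up : Filter.Tendsto (fun s => Real.exp (|s - t| * K) ^ 2 * c t)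
        (nhdsWithin t (Set.Icc β β')) (nhds (c t)) := by
      have k2 : Continuous fun s : ℝ => Real.exp (|s - t| * K) ^ 2 * c t := by fun_prop
      have := (k2.tendsto t).mono_left (nhdsWithin_le_nhds (s := Set.Icc β β'))
      simpa using this
    have lw : Filter.Tendsto (fun s => c t / Real.exp (|s - t| * K) ^ 2)
        (nhdsWithin t (Set.Icc β β')) (nhds (c t)) := by
      have k2 : Continuous fun s : ℝ => c t / Real.exp (|s - t| * K) ^ 2 :=
        continuous_const.div k (fun s => by positivity)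
      have := (k2.tendsto t).mono_left (nhdsWithin_le_nhds (s := Set.Icc β β'))
      simpa using this
    refine tendsto_of_tendsto_of_tendsto_of_le_of_le' lw up ?_ ?_
    · filter_upwards [self_mem_nhdsWithin] with s hs'
      rw [div_le_iff₀ (by positivity), mul_comm, abs_sub_comm]
      exact cmp t s ht0 (hβ.trans hs'.1)
    · filter_upwards [self_mem_nhdsWithin] with s hs'
      exact cmp s t (hβ.trans hs'.1) ht0
  have anti : c β' ≤ c β := by
    refine image_le_of_liminf_slope_right_le_deriv_boundary cont (B := fun _ => c β)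
      (B' := fun _ => 0) le_rfl continuousOn_const (fun x _ => hasDerivWithinAt_const _ _ _) ?_
      ⟨hle, le_rfl⟩
    intro t ht r hr
    have ht0 : 0 ≤ t := hβ.trans ht.1
    have s0 := hsign t ht0 ht.2.le (f t) (c t) (fodd t ht0) (fm t ht0)
      (f1 t ht0) (fe t ht0) (c1 t ht0) (cP t ht0)
    have d := (quot_deriv a ha hs t (f t) (c t) (f1 t ht0) (fe t ht0)).hasDerivWithinAt
      (s := Set.Ici t)
    refine ((d.liminf_right_slope_le (r := r) (by linarith)).and_eventually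
      self_mem_nhdsWithin).mono ?_
    rintro s ⟨h1, h2⟩
    have h3 : t < s := h2
    refine lt_of_le_of_lt ?_ h1
    rw [slope_def_field, slope_def_field, hD t ht0, f1 t ht0, div_one]
    refine div_le_div_of_nonneg_right (sub_le_sub_right ?_ _) (by linarith)
    have p : 0 < ip (Wt a s) (f t) (f t) := by
      by_contra hn
      push Not at hn
      have := mul_nonpos_of_nonneg_of_nonpos (Real.exp_pos (|s - t| * K)).le hn
      linarith [ipc s t ht0]
    rw [le_div_iff₀ p]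
    exact cP s (by linarith) (f t) (fodd t ht0) (fm t ht0)
  have l := h (f β') (fodd β' (hβ.trans hle)) (fm β' (hβ.trans hle))
  rw [hD β' (hβ.trans hle), f1 β' (hβ.trans hle), mul_one] at l
  exact (mul_le_mul_of_nonneg_right (l.trans anti) (ip_nonneg _ (Wt_pos a β) u)).trans
    (cP β hβ u hu hum)

end Pool.Agent.Lib.MP_e532e2_pr.Hi
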