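import Mathlib
import Pool.Agent.Lib.MP_e532e2_pr.Glauber

set_option autoImplicit false

namespace Pool.Agent.Lib.MP_e532e2_pr
open Function

variable {V : Type} [Fintype V] [DecidableEq V]

/-- weighted squared distance -/
noncomputable def dist2 (w y z : (V → Bool) → ℝ) : ℝ := ∑ σ, w σ * (y σ - z σ) ^ 2

/-- `z` is a best increasing approximation of `y` -/
def IsIso (w y z : (V → Bool) → ℝ) : Prop :=
  Monotone z ∧ ∀ z', Monotone z' → dist2 w y z ≤ dist2 w y z'

theorem iso_ex (w : (V → Bool) → ℝ) (hw : ∀ σ, 0 < w σ) (y : (V → Bool) → ℝ) :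
    ∃ z, IsIso w y z := by
  set R : ℝ := ∑ σ, |y σ| with hR
  have hRσ : ∀ σ, |y σ| ≤ R := fun σ =>
    Finset.single_le_sum (f := fun σ => |y σ|) (fun _ _ => abs_nonneg _) (Finset.mem_univ σ)
  have hR0 : 0 ≤ R := Finset.sum_nonneg fun _ _ => abs_nonneg _
  have hK : IsCompact ((Set.pi Set.univ fun _ : V → Bool => Set.Icc (-R) R) ∩
      {z : (V → Bool) → ℝ | Monotone z}) :=
    (isCompact_univ_pi fun _ => isCompact_Icc).inter_right isClosed_monotone
  have hc : Continuous fun z : (V → Bool) → ℝ => dist2 w y z := by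
    unfold dist2; fun_prop
  obtain ⟨z, hz, hmin⟩ := hK.exists_isMinOn
    ⟨fun _ => 0, fun _ _ => ⟨by linarith, hR0⟩, fun _ _ _ => le_rfl⟩ hc.continuousOn
  refine ⟨z, hz.2, fun z' hz' => ?_⟩
  have h1 := hmin (a := fun σ => max (-R) (min R (z' σ)))
    ⟨fun σ _ => ⟨le_max_left _ _, max_le (by linarith) (min_le_left _ _)⟩,
      fun σ τ h => max_le_max le_rfl (min_le_min le_rfl (hz' h))⟩
  refine le_trans h1 (Finset.sum_le_sum fun σ _ => mul_le_mul_of_nonneg_left ?_ (hw σ).le)
  have a := abs_le.1 (hRσ σ)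
  beta_reduce
  rcases le_total R (z' σ) with h | h
  · rw [min_eq_left h, max_eq_right (by linarith)]; nlinarith
  · rw [min_eq_right h]
    rcases le_total (-R) (z' σ) with h' | h'
    · rw [max_eq_right h']
    · rw [max_eq_left h']; nlinarith

theorem IsIso.unique {w y z z' : (V → Bool) → ℝ} (hw : ∀ σ, 0 < w σ) (h : IsIso w y z)
    (hm : Monotone z') (hd : dist2 w y z' ≤ dist2 w y z) : z' = z := by
  have h1 := h.2 (fun σ => (z σ + z' σ) / 2)
    (fun σ τ hh => by have := h.1 hh; have := hm hh; simp only; linarith)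
  have e : dist2 w y (fun σ => (z σ + z' σ) / 2) =
      (dist2 w y z + dist2 w y z') / 2 - (∑ σ, w σ * (z' σ - z σ) ^ 2) / 4 := by
    simp only [dist2, ← Finset.sum_add_distrib, Finset.sum_div, ← Finset.sum_sub_distrib]
    exact Finset.sum_congr rfl fun σ _ => by ring
  have h0 : ∀ σ ∈ Finset.univ, 0 ≤ w σ * (z' σ - z σ) ^ 2 :=
    fun σ _ => mul_nonneg (hw σ).le (sq_nonneg _)
  have h2 : ∑ σ, w σ * (z' σ - z σ) ^ 2 = 0 :=
    le_antisymm (by linarith) (Finset.sum_nonneg h0)
  funext σ
  have := (Finset.sum_eq_zero_iff_of_nonneg h0).1 h2 σ (Finset.mem_univ σ)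
  have := (mul_eq_zero.1 this).resolve_left (hw σ).ne'
  have := pow_eq_zero_iff (two_ne_zero) |>.1 this
  linarith

/-- isotonic regression -/
noncomputable def iso (w y : (V → Bool) → ℝ) : (V → Bool) → ℝ :=
  Classical.epsilon (IsIso w y)

theorem iso_spec (w : (V → Bool) → ℝ) (hw : ∀ σ, 0 < w σ) (y : (V → Bool) → ℝ) :
    IsIso w y (iso w y) := Classical.epsilon_spec (iso_ex w hw y)

theorem iso_self (w : (V → Bool) → ℝ) (hw : ∀ σ, 0 < w σ) (y : (V → Bool) → ℝ)
    (hy : Monotone y) : iso w y = y := by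
  refine ((iso_spec w hw y).unique hw hy ?_).symm
  have : dist2 w y y = 0 := by simp [dist2]
  rw [this]
  exact Finset.sum_nonneg fun σ _ => mul_nonneg (hw σ).le (sq_nonneg _)

theorem iso_mass (w : (V → Bool) → ℝ) (hw : ∀ σ, 0 < w σ) (h1 : ∑ σ, w σ = 1)
    (y : (V → Bool) → ℝ) : ∑ σ, w σ * iso w y σ = ∑ σ, w σ * y σ := by
  have h := iso_spec w hw y
  generalize iso w y = z at *
  set c := ∑ σ, w σ * y σ - ∑ σ, w σ * z σ with hc
  have h2 := h.2 (fun σ => z σ + c) (fun σ τ hh => by have := h.1 hh; simp only; linarith)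
  have e : dist2 w y (fun σ => z σ + c) = dist2 w y z -
      2 * c * (∑ σ, w σ * y σ - ∑ σ, w σ * z σ) + c ^ 2 * ∑ σ, w σ := by
    simp only [dist2, ← Finset.sum_add_distrib, Finset.mul_sum, ← Finset.sum_sub_distrib]
    exact Finset.sum_congr rfl fun σ _ => by ring
  rw [e, h1, ← hc] at h2
  have : c = 0 := by nlinarith
  linarith

theorem iso_ord (w : (V → Bool) → ℝ) (hw : ∀ σ, 0 < w σ) (y y' : (V → Bool) → ℝ)
    (hy : y ≤ y') : iso w y ≤ iso w y' := by
  have h := iso_spec w hw y
  have h' := iso_spec w hw y'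
  generalize iso w y = z at *
  generalize iso w y' = z' at *
  have m1 : Monotone fun σ => min (z σ) (z' σ) := h.1.min h'.1
  have m2 : Monotone fun σ => max (z σ) (z' σ) := h.1.max h'.1
  have a2 := h'.2 _ m2
  have key : dist2 w y (fun σ => min (z σ) (z' σ)) + dist2 w y' (fun σ => max (z σ) (z' σ)) ≤
      dist2 w y z + dist2 w y' z' := by
    simp only [dist2, ← Finset.sum_add_distrib, ← mul_add]
    refine Finset.sum_le_sum fun σ _ => mul_le_mul_of_nonneg_left ?_ (hw σ).le
    have := hy σ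
    rcases le_total (z σ) (z' σ) with hh | hh
    · rw [min_eq_left hh, max_eq_right hh]
    · rw [min_eq_right hh, max_eq_left hh]; nlinarith
  have := h.unique hw m1 (by linarith)
  intro σ
  have : min (z σ) (z' σ) = z σ := congrFun this σ
  rw [← this]; exact min_le_right _ _

theorem iso_blind (w : (V → Bool) → ℝ) (hw : ∀ σ, 0 < w σ)
    (hm : ∀ x σ τ, σ ≤ τ → w (update σ x true) * w (update τ x false) ≤
      w (update τ x true) * w (update σ x false)) (x : V) (y : (V → Bool) → ℝ)
    (hy : ∀ σ, y (update σ x true) ≤ y (update σ x false)) (σ : V → Bool) (b : Bool) :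
    iso w y (update σ x b) = iso w y σ := by
  have h := iso_spec w hw y
  generalize iso w y = z at *
  have m1 := Px_mono w hw hm x z h.1
  have key : dist2 w y (Px w x z) ≤ dist2 w y z := by
    refine sum_pair_le x _ _ fun σ => ?_
    rw [Px_update, Px_update, Px_apply]
    have a1 := hw (update σ x true)
    have a2 := hw (update σ x false)
    have a3 := hy σ
    have a4 : z (update σ x false) ≤ z (update σ x true) :=
      h.1 (update_le_update_iff.2 ⟨by simp, fun _ _ => le_rfl⟩)
    generalize w (update σ x true) = p at *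
    generalize w (update σ x false) = q at *
    generalize y (update σ x true) = y1 at *
    generalize y (update σ x false) = y0 at *
    generalize z (update σ x true) = z1 at *
    generalize z (update σ x false) = z0 at *
    have hpq : 0 < p + q := by linarith
    have e : p * (y1 - z1) ^ 2 + q * (y0 - z0) ^ 2 -
        (p * (y1 - (p * z1 + q * z0) / (p + q)) ^ 2 + q * (y0 - (p * z1 + q * z0) / (p + q)) ^ 2) =
        p * q / (p + q) * ((z1 - z0) * (z1 - z0) + 2 * ((z1 - z0) * (y0 - y1))) := by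
      field_simp; ring
    have : 0 ≤ p * q / (p + q) * ((z1 - z0) * (z1 - z0) + 2 * ((z1 - z0) * (y0 - y1))) :=
      mul_nonneg (by positivity) (add_nonneg (mul_self_nonneg _)
        (mul_nonneg two_pos.le (mul_nonneg (by linarith) (by linarith))))
    linarith
  have := h.unique hw m1 key
  rw [← this, Px_update]

end Pool.Agent.Lib.MP_e532e2_pr
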