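import Mathlib
import Pool.Agent.Lib.MP_e532e2_pr.Iso

set_option autoImplicit false

namespace Pool.Agent.Lib.MP_e532e2_pr
open Function Classical

variable {V : Type} [Fintype V] [DecidableEq V]

/-- product of the two spins of an ordered pair -/
def sg (σ : V → Bool) (e : V × V) : ℝ := if σ e.1 = σ e.2 then 1 else -1

/-- Boltzmann weight -/
noncomputable def wt (J : V × V → ℝ) (σ : V → Bool) : ℝ := Real.exp (∑ e, J e * sg σ e)

/-- cluster of `a` -/
def cl (η : V × V → Bool) (a x : V) : Prop :=
  Relation.ReflTransGen (fun y z => η (y, z) = true ∨ η (z, y) = true) a x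

/-- flip on a set -/
noncomputable def fl (S : V → Prop) (σ : V → Bool) : V → Bool :=
  fun x => if S x then !σ x else σ x

/-- both copies agree along the pair -/
def ag (σ τ : V → Bool) (e : V × V) : Bool := (σ e.1 == σ e.2) && (τ e.1 == τ e.2)

/-- bonds are compatible with both copies -/
def Cp (η : V × V → Bool) (σ τ : V → Bool) : Prop := ∀ e, η e = true → ag σ τ e = true

omit [Fintype V] [DecidableEq V] in
theorem cl_refl (η : V × V → Bool) (a : V) : cl η a a := Relation.ReflTransGen.refl

omit [Fintype V] [DecidableEq V] in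
theorem cl_symm {η : V × V → Bool} {a x : V} (h : cl η a x) : cl η x a := by
  induction h with
  | refl => exact cl_refl _ _
  | tail _ s ih => exact Relation.ReflTransGen.head s.symm ih

omit [Fintype V] [DecidableEq V] in
theorem cl_edge {η : V × V → Bool} (a : V) {e : V × V} (h : η e = true) :
    cl η a e.1 ↔ cl η a e.2 :=
  ⟨fun g => g.tail (Or.inl h), fun g => g.tail (Or.inr h)⟩

omit [Fintype V] [DecidableEq V] in
theorem Cp.const {η : V × V → Bool} {σ τ : V → Bool} (h : Cp η σ τ) {a x : V}
    (g : cl η a x) : σ x = σ a ∧ τ x = τ a := by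
  induction g with
  | refl => exact ⟨rfl, rfl⟩
  | tail _ s ih =>
    rcases s with s | s <;> have := h _ s <;> simp only [ag, Bool.and_eq_true, beq_iff_eq] at this
    · exact ⟨this.1 ▸ ih.1, this.2 ▸ ih.2⟩
    · exact ⟨this.1.trans ih.1, this.2.trans ih.2⟩

omit [Fintype V] [DecidableEq V] in
theorem cp_eff (ω : V × V → Bool) (σ τ : V → Bool) : Cp (fun e => ω e && ag σ τ e) σ τ := by
  intro e h; simp only [Bool.and_eq_true] at h; exact h.2

omit [Fintype V] [DecidableEq V] in
theorem cl_grow (ω : V × V → Bool) (σ σ' τ : V → Bool) (a : V)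
    (h : ∀ y, σ y = σ a → σ' y = σ a) {x : V} (g : cl (fun e => ω e && ag σ τ e) a x) :
    cl (fun e => ω e && ag σ' τ e) a x := by
  induction g with
  | refl => exact cl_refl _ _
  | @tail y z g s ih =>
    have hy := ((cp_eff ω σ τ).const g).1
    have hz := ((cp_eff ω σ τ).const (Relation.ReflTransGen.tail g s)).1
    refine Relation.ReflTransGen.tail ih ?_
    have e1 := h y hy
    have e2 := h z hz
    rcases s with s | s <;> simp only [ag, Bool.and_eq_true, beq_iff_eq] at s ⊢
    · exact Or.inl ⟨s.1, e1.trans e2.symm, s.2.2⟩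
    · exact Or.inr ⟨s.1, e2.trans e1.symm, s.2.2⟩

omit [Fintype V] [DecidableEq V] in
theorem fl_fl (S : V → Prop) (σ : V → Bool) : fl S (fl S σ) = σ := by
  funext x; unfold fl; split_ifs <;> simp

omit [Fintype V] [DecidableEq V] in
theorem fl_comm (S S' : V → Prop) (σ : V → Bool) : fl S (fl S' σ) = fl S' (fl S σ) := by
  funext x; unfold fl; split_ifs <;> simp

/-- the four corner map -/
noncomputable def K4 (u v : V) (η : V × V → Bool) (g : (V → Bool) → ℝ) (σ : V → Bool) : ℝ :=
  if σ u = σ v then
    if σ u = true then max (g (fl (cl η u) σ)) (g (fl (cl η v) σ))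
    else min (g (fl (cl η u) σ)) (g (fl (cl η v) σ))
  else g σ

omit [Fintype V] [DecidableEq V] in
theorem K4_ord (u v : V) (η : V × V → Bool) {g g' : (V → Bool) → ℝ} (h : g ≤ g')
    (σ : V → Bool) : K4 u v η g σ ≤ K4 u v η g' σ := by
  unfold K4
  split_ifs
  · exact max_le_max (h _) (h _)
  · exact min_le_min (h _) (h _)
  · exact h _

omit [Fintype V] [DecidableEq V] in
theorem Cp.fl_le {η : V × V → Bool} {σ τ : V → Bool} (h : Cp η σ τ) {a : V} (ha : σ a = true) :
    fl (cl η a) σ ≤ σ := by
  intro x; unfold fl; split_ifs with g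
  · rw [(h.const g).1, ha]; simp
  · exact le_rfl

omit [Fintype V] [DecidableEq V] in
theorem Cp.le_fl {η : V × V → Bool} {σ τ : V → Bool} (h : Cp η σ τ) {a : V} (ha : σ a = false) :
    σ ≤ fl (cl η a) σ := by
  intro x; unfold fl; split_ifs with g
  · rw [(h.const g).1, ha]; simp
  · exact le_rfl

omit [Fintype V] [DecidableEq V] in
theorem K4_le {u v : V} {η : V × V → Bool} {σ τ : V → Bool} (h : Cp η σ τ)
    {g : (V → Bool) → ℝ} (hg : Monotone g) (hs : σ u = true ∨ σ v = true) :
    K4 u v η g σ ≤ g σ := by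
  unfold K4
  split_ifs with h1 h2
  · exact max_le (hg (h.fl_le h2)) (hg (h.fl_le (h1 ▸ h2)))
  · exact absurd (hs.elim id fun a => h1 ▸ a) h2
  · exact le_rfl

omit [Fintype V] [DecidableEq V] in
theorem le_K4 {u v : V} {η : V × V → Bool} {σ τ : V → Bool} (h : Cp η σ τ)
    {g : (V → Bool) → ℝ} (hg : Monotone g) (hs : σ u = false ∨ σ v = false) :
    g σ ≤ K4 u v η g σ := by
  unfold K4
  split_ifs with h1 h2
  · rcases hs with a | a
    · rw [a] at h2; cases h2
    · rw [h1, a] at h2; cases h2
  · have h3 : σ u = false := by simpa using h2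
    exact le_min (hg (h.le_fl h3)) (hg (h.le_fl (h1 ▸ h3)))
  · exact le_rfl

omit [Fintype V] [DecidableEq V] in
theorem K4_fix {u v : V} {η : V × V → Bool} {σ τ : V → Bool} (h : Cp η σ τ) (ht : τ u ≠ τ v)
    (a : V) (ψ : Bool → ℝ) (hψ : Monotone ψ) : K4 u v η (fun σ => ψ (σ a)) σ = ψ (σ a) := by
  have hg : Monotone fun σ : V → Bool => ψ (σ a) := fun _ _ hh => hψ (hh a)
  have hd : fl (cl η u) σ a = σ a ∨ fl (cl η v) σ a = σ a := by
    by_cases h1 : cl η u a
    · by_cases h2 : cl η v a
      · exact absurd ((h.const h1).2.symm.trans (h.const h2).2) ht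
      · right; simp [fl, h2]
    · left; simp [fl, h1]
  by_cases h1 : σ u = σ v
  · cases h2 : σ u
    · refine le_antisymm ?_ (le_K4 h hg (Or.inl h2))
      unfold K4
      rw [if_pos h1, if_neg (by simp [h2])]
      beta_reduce
      rcases hd with e | e
      · exact (min_le_left _ _).trans (by rw [e])
      · exact (min_le_right _ _).trans (by rw [e])
    · refine le_antisymm (K4_le h hg (Or.inl h2)) ?_
      unfold K4
      rw [if_pos h1, if_pos h2]
      beta_reduce
      rcases hd with e | e
      · exact le_trans (by rw [e]) (le_max_left _ _)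
      · exact le_trans (by rw [e]) (le_max_right _ _)
  · simp [K4, h1]

omit [Fintype V] in
theorem fl_anti (ω : V × V → Bool) (σ τ : V → Bool) (x a : V) (ha : a ≠ x)
    {g : (V → Bool) → ℝ} (hg : Monotone g) (hb : ∀ σ b, g (update σ x b) = g σ) :
    g (fl (cl (fun e => ω e && ag (update σ x true) τ e) a) (update σ x true)) ≤
      g (fl (cl (fun e => ω e && ag (update σ x false) τ e) a) (update σ x false)) := by
  rw [← hb _ false, ← hb (fl _ (update σ x false)) false]
  refine hg fun y => ?_
  by_cases hy : y = x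
  · subst hy; simp
  rw [update_of_ne hy, update_of_ne hy]
  have c1 := fun g => ((cp_eff ω (update σ x true) τ).const (a := a) (x := y) g).1
  have c0 := fun g => ((cp_eff ω (update σ x false) τ).const (a := a) (x := y) g).1
  rw [update_of_ne hy, update_of_ne ha] at c1 c0
  unfold fl
  rw [update_of_ne hy, update_of_ne hy]
  cases h : σ a
  · have gr := cl_grow ω (update σ x true) (update σ x false) τ a (x := y) (fun z hz => by
      rw [update_of_ne ha, h] at hz ⊢
      by_cases e : z = x
      · subst e; simp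
      · rwa [update_of_ne e] at hz ⊢)
    split_ifs with h1 h0 h0
    · exact le_rfl
    · exact absurd (gr h1) h0
    · rw [c0 h0, h]; simp
    · exact le_rfl
  · have gr := cl_grow ω (update σ x false) (update σ x true) τ a (x := y) (fun z hz => by
      rw [update_of_ne ha, h] at hz ⊢
      by_cases e : z = x
      · subst e; simp
      · rwa [update_of_ne e] at hz ⊢)
    split_ifs with h1 h0 h0
    · exact le_rfl
    · rw [c1 h1, h]; simp
    · exact absurd (gr h0) h1
    · exact le_rfl

omit [Fintype V] in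
theorem K4_anti (u v : V) (ω : V × V → Bool) (σ τ : V → Bool) (x : V)
    {g : (V → Bool) → ℝ} (hg : Monotone g) (hb : ∀ σ b, g (update σ x b) = g σ) :
    K4 u v (fun e => ω e && ag (update σ x true) τ e) g (update σ x true) ≤
      K4 u v (fun e => ω e && ag (update σ x false) τ e) g (update σ x false) := by
  by_cases h : u = x ∨ v = x
  · refine (K4_le (cp_eff ω _ τ) hg ?_).trans (le_trans ?_ (le_K4 (cp_eff ω _ τ) hg ?_))
    · rcases h with rfl | rfl <;> simp
    · rw [hb, hb]
    · rcases h with rfl | rfl <;> simp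
  push Not at h
  unfold K4
  simp only [update_of_ne h.1, update_of_ne h.2]
  split_ifs
  · exact max_le_max (fl_anti ω σ τ x u h.1 hg hb) (fl_anti ω σ τ x v h.2 hg hb)
  · exact min_le_min (fl_anti ω σ τ x u h.1 hg hb) (fl_anti ω σ τ x v h.2 hg hb)
  · rw [hb, hb]

end Pool.Agent.Lib.MP_e532e2_pr
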