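import Mathlib
import Pool.Agent.Lib.MP_e532e2_pr.Ker

set_option autoImplicit false
set_option linter.unusedSectionVars false

namespace Pool.Agent.Lib.MP_e532e2_pr
open Function Classical

variable {V : Type} [Fintype V] [DecidableEq V]

/-- law of one coin -/
noncomputable def cp (j : ℝ) (b : Bool) : ℝ :=
  if b then 1 - Real.exp (-4 * j) else Real.exp (-4 * j)

/-- law of one effective bond -/
noncomputable def cq (j : ℝ) (a b : Bool) : ℝ :=
  ∑ c : Bool, cp j c * if (c && a) = b then 1 else 0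

/-- law of the coins -/
noncomputable def Pc (J : V × V → ℝ) (ω : V × V → Bool) : ℝ := ∏ e, cp (J e) (ω e)

theorem Pc_nonneg (J : V × V → ℝ) (hJ : ∀ e, 0 ≤ J e) (ω : V × V → Bool) : 0 ≤ Pc J ω := by
  refine Finset.prod_nonneg fun e _ => ?_
  unfold cp
  split_ifs
  · have : Real.exp (-4 * J e) ≤ 1 := Real.exp_le_one_iff.2 (by have := hJ e; linarith)
    linarith
  · exact (Real.exp_pos _).le

theorem Pc_sum (J : V × V → ℝ) : ∑ ω, Pc J ω = 1 := by
  unfold Pc
  rw [← Fintype.piFinset_univ, ← Finset.prod_univ_sum]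
  exact Finset.prod_eq_one fun e _ => by simp [cp]

theorem push_eff (J : V × V → ℝ) (A : V × V → Bool) (h : (V × V → Bool) → ℝ) :
    ∑ ω, Pc J ω * h (fun e => ω e && A e) = ∑ η, (∏ e, cq (J e) (A e) (η e)) * h η := by
  have e1 : ∀ η : V × V → Bool, (∏ e, cq (J e) (A e) (η e)) =
      ∑ ω, Pc J ω * if (fun e => ω e && A e) = η then 1 else 0 := by
    intro η
    unfold cq Pc
    rw [Finset.prod_univ_sum, Fintype.piFinset_univ]
    refine Finset.sum_congr rfl fun ω _ => ?_
    rw [Finset.prod_mul_distrib, Finset.prod_boole]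
    simp [funext_iff]
  simp only [e1, Finset.sum_mul]
  rw [Finset.sum_comm]
  refine Finset.sum_congr rfl fun ω _ => ?_
  simp

/-- joint weight of bonds and the two copies -/
noncomputable def W3 (J : V × V → ℝ) (η : V × V → Bool) (σ τ : V → Bool) : ℝ :=
  wt J σ * wt J τ * ∏ e, cq (J e) (ag σ τ e) (η e)

theorem W3_eq (J : V × V → ℝ) (η : V × V → Bool) (σ τ : V → Bool) :
    W3 J η σ τ = ∏ e, Real.exp (J e * (sg σ e + sg τ e)) * cq (J e) (ag σ τ e) (η e) := by
  unfold W3 wt
  rw [Finset.prod_mul_distrib, ← Real.exp_add, ← Finset.sum_add_distrib, Real.exp_sum]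
  simp only [mul_add]

theorem W3_cp {J : V × V → ℝ} {η : V × V → Bool} {σ τ : V → Bool} (h : W3 J η σ τ ≠ 0) :
    Cp η σ τ := by
  intro e he
  have := Finset.prod_ne_zero_iff.1 (right_ne_zero_of_mul h) e (Finset.mem_univ e)
  by_contra hh
  apply this
  have : ag σ τ e = false := by simpa using hh
  simp [cq, this, he]

theorem W3_fl (J : V × V → ℝ) (η : V × V → Bool) (σ τ : V → Bool) (a : V) :
    W3 J η (fl (cl η a) σ) (fl (cl η a) τ) = W3 J η σ τ := by
  rw [W3_eq, W3_eq]
  refine Finset.prod_congr rfl fun e _ => ?_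
  have k1 : Real.exp (J e * (1 + 1)) * Real.exp (-4 * J e) = Real.exp (J e * (-1 + -1)) := by
    rw [← Real.exp_add]; congr 1; ring
  by_cases h : cl η a e.1 ↔ cl η a e.2
  · by_cases h1 : cl η a e.1
    · simp only [sg, ag, fl, h1, h.1 h1, if_true]
      cases σ e.1 <;> cases σ e.2 <;> cases τ e.1 <;> cases τ e.2 <;> simp
    · have h2 : ¬ cl η a e.2 := fun g => h1 (h.2 g)
      simp [sg, ag, fl, h1, h2]
  · have he : η e = false := by
      by_contra hh
      exact h (cl_edge a (by simpa using hh))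
    by_cases h1 : cl η a e.1
    · have h2 : ¬ cl η a e.2 := fun g => h ⟨fun _ => g, fun _ => h1⟩
      simp only [sg, ag, fl, h1, h2, he, if_true, if_false, cq, Fintype.sum_bool, cp]
      cases σ e.1 <;> cases σ e.2 <;> cases τ e.1 <;> cases τ e.2 <;> simp <;>
        first | simpa using k1.symm | simpa using k1
    · have h2 : cl η a e.2 := by
        by_contra g
        exact h ⟨fun g' => absurd g' h1, fun g' => absurd g' g⟩
      simp only [sg, ag, fl, h1, h2, he, if_true, if_false, cq, Fintype.sum_bool, cp]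
      cases σ e.1 <;> cases σ e.2 <;> cases τ e.1 <;> cases τ e.2 <;> simp <;>
        first | simpa using k1.symm | simpa using k1

/-- total against the joint weight -/
noncomputable def S3 (J : V × V → ℝ) (φ : (V × V → Bool) → (V → Bool) → (V → Bool) → ℝ) : ℝ :=
  ∑ η, ∑ σ, ∑ τ, W3 J η σ τ * φ η σ τ

theorem S3_congr (J : V × V → ℝ) {φ φ' : (V × V → Bool) → (V → Bool) → (V → Bool) → ℝ}
    (h : ∀ η σ τ, Cp η σ τ → φ η σ τ = φ' η σ τ) : S3 J φ = S3 J φ' := by
  refine Finset.sum_congr rfl fun η _ => Finset.sum_congr rfl fun σ _ =>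
    Finset.sum_congr rfl fun τ _ => ?_
  by_cases h0 : W3 J η σ τ = 0
  · simp [h0]
  · rw [h η σ τ (W3_cp h0)]

theorem S3_add (J : V × V → ℝ) (φ φ' : (V × V → Bool) → (V → Bool) → (V → Bool) → ℝ) :
    S3 J (fun η σ τ => φ η σ τ + φ' η σ τ) = S3 J φ + S3 J φ' := by
  simp only [S3, mul_add, Finset.sum_add_distrib]

theorem S3_fl (J : V × V → ℝ) (φ : (V × V → Bool) → (V → Bool) → (V → Bool) → ℝ) (a : V) :
    S3 J φ = S3 J fun η σ τ => φ η (fl (cl η a) σ) (fl (cl η a) τ) := by
  refine Finset.sum_congr rfl fun η _ => ?_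
  let e : (V → Bool) ≃ (V → Bool) := Involutive.toPerm _ (fl_fl (cl η a))
  rw [← e.sum_comp]
  refine Finset.sum_congr rfl fun σ _ => ?_
  rw [← e.sum_comp]
  refine Finset.sum_congr rfl fun τ _ => ?_
  rw [← W3_fl J η σ τ a]; rfl

theorem S3_eff (J : V × V → ℝ) (φ : (V × V → Bool) → (V → Bool) → (V → Bool) → ℝ) :
    S3 J φ = ∑ σ, wt J σ * ∑ τ, wt J τ * ∑ ω, Pc J ω * φ (fun e => ω e && ag σ τ e) σ τ := by
  unfold S3
  rw [Finset.sum_comm]
  refine Finset.sum_congr rfl fun σ _ => ?_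
  rw [Finset.sum_comm, Finset.mul_sum]
  refine Finset.sum_congr rfl fun τ _ => ?_
  rw [push_eff J (ag σ τ) (fun η => φ η σ τ), Finset.mul_sum, Finset.mul_sum]
  exact Finset.sum_congr rfl fun η _ => by unfold W3; ring

theorem S3_K4 (J : V × V → ℝ) (u v : V) (g : (V → Bool) → ℝ) :
    S3 J (fun η σ τ => if τ u ≠ τ v ∧ σ u = σ v then K4 u v η g σ else 0) =
      S3 J fun _ σ τ => if τ u = τ v ∧ σ u ≠ σ v then g σ else 0 := by
  have fu : ∀ (η : V × V → Bool) (a : V) (ρ : V → Bool), fl (cl η a) ρ a = !ρ a :=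
    fun η a ρ => by simp [fl, cl_refl]
  have fn : ∀ (η : V × V → Bool) (a b : V) (ρ : V → Bool), ¬ cl η a b → fl (cl η a) ρ b = ρ b :=
    fun η a b ρ h => by simp [fl, h]
  have fy : ∀ (η : V × V → Bool) (a b : V) (ρ : V → Bool), cl η a b → fl (cl η a) ρ b = !ρ b :=
    fun η a b ρ h => by simp [fl, h]
  have e1 : S3 J (fun η σ τ => if τ u ≠ τ v ∧ σ u = σ v then K4 u v η g σ else 0) =
      S3 J (fun η σ τ => if τ u ≠ τ v ∧ σ u = true ∧ σ v = true then
        max (g (fl (cl η u) σ)) (g (fl (cl η v) σ)) else 0) +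
      S3 J (fun η σ τ => if τ u ≠ τ v ∧ σ u = false ∧ σ v = false then
        min (g (fl (cl η u) σ)) (g (fl (cl η v) σ)) else 0) := by
    rw [← S3_add]
    refine S3_congr J fun η σ τ _ => ?_
    unfold K4
    cases σ u <;> cases σ v <;> simp
  have e2 : S3 J (fun η σ τ => if τ u ≠ τ v ∧ σ u = false ∧ σ v = false then
        min (g (fl (cl η u) σ)) (g (fl (cl η v) σ)) else 0) =
      S3 J (fun η σ τ => if τ u ≠ τ v ∧ σ u = true ∧ σ v = true then
        min (g (fl (cl η u) σ)) (g (fl (cl η v) σ)) else 0) := by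
    rw [S3_fl J _ u, S3_fl J _ v]
    refine S3_congr J fun η σ τ h => ?_
    by_cases c : cl η u v
    · have c' := cl_symm c
      simp [fu, fy η u v _ c, fy η v u _ c', (h.const c).2]
    · have c' : ¬ cl η v u := fun g => c (cl_symm g)
      rw [fl_fl, fl_comm (cl η u) (cl η v) σ, fl_fl, min_comm, ← fl_comm (cl η u) (cl η v) σ]
      simp only [fu, fn η u v _ c, fn η v u _ c']
      cases σ u <;> cases σ v <;> cases τ u <;> cases τ v <;> simp
  have e3 : S3 J (fun η σ τ => if τ u ≠ τ v ∧ σ u = true ∧ σ v = true then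
        g (fl (cl η u) σ) else 0) =
      S3 J (fun η σ τ => if τ u = τ v ∧ σ u = false ∧ σ v = true then g σ else 0) := by
    rw [S3_fl J _ u]
    refine S3_congr J fun η σ τ h => ?_
    by_cases c : cl η u v
    · simp [fu, fy η u v _ c, (h.const c).2, (h.const c).1]
    · simp only [fl_fl, fu, fn η u v _ c]
      cases σ u <;> cases σ v <;> cases τ u <;> cases τ v <;> simp
  have e4 : S3 J (fun η σ τ => if τ u ≠ τ v ∧ σ u = true ∧ σ v = true then
        g (fl (cl η v) σ) else 0) =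
      S3 J (fun η σ τ => if τ u = τ v ∧ σ u = true ∧ σ v = false then g σ else 0) := by
    rw [S3_fl J _ v]
    refine S3_congr J fun η σ τ h => ?_
    by_cases c : cl η v u
    · simp [fu, fy η v u _ c, (h.const c).2, (h.const c).1]
    · simp only [fl_fl, fu, fn η v u _ c]
      cases σ u <;> cases σ v <;> cases τ u <;> cases τ v <;> simp
  have e5 : (S3 J fun _ σ τ => if τ u = τ v ∧ σ u ≠ σ v then g σ else 0) =
      S3 J (fun η σ τ => if τ u = τ v ∧ σ u = false ∧ σ v = true then g σ else 0) +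
      S3 J (fun η σ τ => if τ u = τ v ∧ σ u = true ∧ σ v = false then g σ else 0) := by
    rw [← S3_add]
    refine S3_congr J fun η σ τ _ => ?_
    cases σ u <;> cases σ v <;> simp
  rw [e1, e2, e5, ← e3, ← e4, ← S3_add, ← S3_add]
  refine S3_congr J fun η σ τ _ => ?_
  split_ifs
  · exact max_add_min _ _
  · rfl

end Pool.Agent.Lib.MP_e532e2_pr
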