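import Mathlib
import Pool.Agent.Lib.MP_e532e2_pr.Mass

set_option autoImplicit false
set_option linter.unusedSectionVars false

namespace Pool.Agent.Lib.MP_e532e2_pr
open Function Classical

variable {V : Type} [Fintype V] [DecidableEq V]

/-- `T` carries increasing functions for the law `w'` to increasing functions for the law `w` -/
structure Tr (w w' : (V → Bool) → ℝ) (T : ((V → Bool) → ℝ) → (V → Bool) → ℝ) : Prop where
  mono : ∀ f, Monotone f → Monotone (T f)
  ord : ∀ f g, Monotone f → Monotone g → f ≤ g → T f ≤ T g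
  mass : ∀ f, Monotone f → ∑ σ, w σ * T f σ = ∑ σ, w' σ * f σ
  blind : ∀ x f, Monotone f → (∀ σ b, f (update σ x b) = f σ) →
    ∀ σ b, T f (update σ x b) = T f σ
  fix : ∀ (a : V) (ψ : Bool → ℝ), Monotone ψ → (T fun σ => ψ (σ a)) = fun σ => ψ (σ a)

theorem Tr.refl (w : (V → Bool) → ℝ) : Tr w w id :=
  ⟨fun _ h => h, fun _ _ _ _ h => h, fun _ _ => rfl, fun _ _ _ h => h, fun _ _ _ => rfl⟩

theorem Tr.comp {w w₁ w₂ : (V → Bool) → ℝ} {T T' : ((V → Bool) → ℝ) → (V → Bool) → ℝ}
    (h : Tr w w₁ T) (h' : Tr w₁ w₂ T') : Tr w w₂ (T ∘ T') :=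
  ⟨fun f a => h.mono _ (h'.mono f a),
   fun f g a b c => h.ord _ _ (h'.mono f a) (h'.mono g b) (h'.ord f g a b c),
   fun f a => (h.mass _ (h'.mono f a)).trans (h'.mass f a),
   fun x f a b => h.blind x _ (h'.mono f a) (h'.blind x f a b),
   fun a ψ b => by rw [comp_apply, h'.fix a ψ b, h.fix a ψ b]⟩

/-- Gibbs law -/
noncomputable def gb (J : V × V → ℝ) (σ : V → Bool) : ℝ := wt J σ / ∑ τ, wt J τ

theorem wt_pos (J : V × V → ℝ) (σ : V → Bool) : 0 < wt J σ := Real.exp_pos _

theorem Z_pos (J : V × V → ℝ) : 0 < ∑ τ, wt J τ :=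
  Finset.sum_pos (fun τ _ => wt_pos J τ) Finset.univ_nonempty

theorem gb_pos (J : V × V → ℝ) (σ : V → Bool) : 0 < gb J σ := div_pos (wt_pos J σ) (Z_pos J)

theorem gb_sum (J : V × V → ℝ) : ∑ σ, gb J σ = 1 := by
  unfold gb; rw [← Finset.sum_div, div_self (Z_pos J).ne']

theorem gb_neg (J : V × V → ℝ) (σ : V → Bool) : gb J (neg σ) = gb J σ := by
  unfold gb wt
  congr 2
  refine Finset.sum_congr rfl fun e _ => ?_
  simp [sg, neg]

theorem gb_lat (J : V × V → ℝ) (hJ : ∀ e, 0 ≤ J e) (σ τ : V → Bool) :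
    gb J σ * gb J τ ≤ gb J (σ ⊓ τ) * gb J (σ ⊔ τ) := by
  unfold gb
  rw [div_mul_div_comm, div_mul_div_comm]
  refine div_le_div_of_nonneg_right ?_ (mul_pos (Z_pos J) (Z_pos J)).le
  unfold wt
  rw [← Real.exp_add, ← Real.exp_add, ← Finset.sum_add_distrib, ← Finset.sum_add_distrib]
  refine Real.exp_le_exp.2 (Finset.sum_le_sum fun e _ => ?_)
  rw [← mul_add, ← mul_add]
  refine mul_le_mul_of_nonneg_left ?_ (hJ e)
  have : ∀ a b c d : Bool, ((if a = b then 1 else -1) + if c = d then 1 else -1 : ℝ) ≤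
      (if a ⊓ c = b ⊓ d then 1 else -1) + if a ⊔ c = b ⊔ d then 1 else -1 := by
    intro a b c d
    cases a <;> cases b <;> cases c <;> cases d <;> simp <;> norm_num
  exact this _ _ _ _

theorem gb_hm (J : V × V → ℝ) (hJ : ∀ e, 0 ≤ J e) (x : V) (σ τ : V → Bool) (h : σ ≤ τ) :
    gb J (update σ x true) * gb J (update τ x false) ≤
      gb J (update τ x true) * gb J (update σ x false) := by
  have := gb_lat J hJ (update σ x true) (update τ x false)
  have e1 : update σ x true ⊓ update τ x false = update σ x false := by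
    funext y
    by_cases hy : y = x
    · subst hy; simp
    · simp [update_of_ne hy, h y]
  have e2 : update σ x true ⊔ update τ x false = update τ x true := by
    funext y
    by_cases hy : y = x
    · subst hy; simp
    · simp [update_of_ne hy, h y]
  rw [e1, e2] at this
  linarith

/-- the four corner map averaged over the second copy and the coins, not normalised -/
noncomputable def Av (J : V × V → ℝ) (u v : V) (g : (V → Bool) → ℝ) (σ : V → Bool) : ℝ :=
  ∑ τ, (if τ u ≠ τ v then wt J τ else 0) * ∑ ω, Pc J ω * K4 u v (fun e => ω e && ag σ τ e) g σ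

theorem Av_le (J : V × V → ℝ) (hJ : ∀ e, 0 ≤ J e) (u v : V) (g g' : (V → Bool) → ℝ)
    (σ σ' : V → Bool) (h : ∀ (τ : V → Bool) (ω : V × V → Bool), τ u ≠ τ v →
      K4 u v (fun e => ω e && ag σ τ e) g σ ≤ K4 u v (fun e => ω e && ag σ' τ e) g' σ') :
    Av J u v g σ ≤ Av J u v g' σ' := by
  refine Finset.sum_le_sum fun τ _ => ?_
  split_ifs with ht
  · exact mul_le_mul_of_nonneg_left (Finset.sum_le_sum fun ω _ =>
      mul_le_mul_of_nonneg_left (h τ ω ht) (Pc_nonneg J hJ ω)) (wt_pos J τ).le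
  · simp

theorem Av_eq (J : V × V → ℝ) (u v : V) (g : (V → Bool) → ℝ)
    (σ : V → Bool) (h : ∀ (τ : V → Bool) (ω : V × V → Bool), τ u ≠ τ v →
      K4 u v (fun e => ω e && ag σ τ e) g σ = g σ) :
    Av J u v g σ = (∑ τ, if τ u ≠ τ v then wt J τ else 0) * g σ := by
  unfold Av
  rw [Finset.sum_mul]
  refine Finset.sum_congr rfl fun τ _ => ?_
  split_ifs with ht
  · simp only [h τ _ ht, ← Finset.sum_mul, Pc_sum, one_mul]
  · simp

theorem Av_mass (J : V × V → ℝ) (u v : V) (g : (V → Bool) → ℝ) :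
    ∑ σ, wt J σ * Av J u v g σ =
      (∑ τ, wt J τ) * ∑ σ, if σ u ≠ σ v then wt J σ * g σ else 0 := by
  have h := S3_K4 J u v g
  rw [S3_eff, S3_eff] at h
  have e1 : ∑ σ, wt J σ * Av J u v g σ = (∑ σ, wt J σ * ∑ τ, wt J τ * ∑ ω, Pc J ω *
      if τ u ≠ τ v ∧ σ u = σ v then K4 u v (fun e => ω e && ag σ τ e) g σ else 0) +
      (∑ τ, if τ u ≠ τ v then wt J τ else 0) * ∑ σ, if σ u ≠ σ v then wt J σ * g σ else 0 := by
    rw [Finset.mul_sum, ← Finset.sum_add_distrib]
    refine Finset.sum_congr rfl fun σ _ => ?_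
    by_cases hs : σ u = σ v
    · simp only [hs, ne_eq, not_true, if_false, mul_zero, add_zero, and_true, Av]
      congr 1
      refine Finset.sum_congr rfl fun τ _ => ?_
      split_ifs <;> simp
    · rw [Av_eq J u v g σ fun τ ω _ => by simp [K4, hs]]
      simp [hs]; ring
  have e2 : (∑ σ, wt J σ * ∑ τ, wt J τ * ∑ ω, Pc J ω *
      if τ u = τ v ∧ σ u ≠ σ v then g σ else 0) =
      (∑ τ, if τ u = τ v then wt J τ else 0) * ∑ σ, if σ u ≠ σ v then wt J σ * g σ else 0 := by
    rw [Finset.mul_sum]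
    refine Finset.sum_congr rfl fun σ _ => ?_
    simp only [← Finset.sum_mul, Pc_sum, one_mul]
    rw [Finset.mul_sum, Finset.sum_mul]
    refine Finset.sum_congr rfl fun τ _ => ?_
    by_cases a : τ u = τ v <;> by_cases b : σ u = σ v <;> simp [a, b]
    ring
  rw [e1, h, e2, ← add_mul, ← Finset.sum_add_distrib]
  congr 1
  refine Finset.sum_congr rfl fun τ _ => ?_
  by_cases a : τ u = τ v <;> simp [a]

theorem wt_update (J : V × V → ℝ) (e : V × V) (t : ℝ) (σ : V → Bool) :
    wt (update J e t) σ = Real.exp ((t - J e) * sg σ e) * wt J σ := by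
  unfold wt
  rw [← Real.exp_add]
  congr 1
  rw [← Finset.add_sum_erase _ _ (Finset.mem_univ e),
    ← Finset.add_sum_erase _ (fun e => J e * sg σ e) (Finset.mem_univ e), update_self,
    Finset.sum_congr rfl fun e' he' => by rw [update_of_ne (Finset.ne_of_mem_erase he')]]
  ring

theorem tr_edge (J : V × V → ℝ) (hJ : ∀ e, 0 ≤ J e) (u v : V) (t : ℝ)
    (ht : t ≤ J (u, v)) : ∃ T, Tr (gb J) (gb (update J (u, v) t)) T := by
  set Z := ∑ τ, wt J τ with hZ
  set Z' := ∑ τ, wt (update J (u, v) t) τ with hZ'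
  set Zn := ∑ τ, if τ u ≠ τ v then wt J τ else 0 with hZn
  set a := Real.exp (t - J (u, v)) with ha
  set b := Real.exp (-(t - J (u, v))) with hb
  have a0 : 0 < a := Real.exp_pos _
  have ab : a ≤ b := Real.exp_le_exp.2 (by linarith)
  have Z0 : 0 < Z := Z_pos J
  have Z0' : 0 < Z' := Z_pos _
  have hw : ∀ σ, wt (update J (u, v) t) σ =
      a * wt J σ + (b - a) * if σ u ≠ σ v then wt J σ else 0 := by
    intro σ
    rw [wt_update]
    by_cases hs : σ u = σ v
    · simp [sg, hs, ha]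
    · simp [sg, hs, hb]; ring
  have eZ : Z' = a * Z + (b - a) * Zn := by
    simp only [hZ', hZ, hZn, hw, Finset.sum_add_distrib, Finset.mul_sum]
  let y : ((V → Bool) → ℝ) → (V → Bool) → ℝ :=
    fun g σ => (a * Z * g σ + (b - a) * Av J u v g σ) / Z'
  have yle : ∀ g g' σ σ', g σ ≤ g' σ' → Av J u v g σ ≤ Av J u v g' σ' → y g σ ≤ y g' σ' :=
    fun g g' σ σ' h1 h2 => div_le_div_of_nonneg_right (add_le_add
      (mul_le_mul_of_nonneg_left h1 (by positivity))
      (mul_le_mul_of_nonneg_left h2 (by linarith))) Z0'.le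
  refine ⟨fun g => iso (gb J) (y g), fun f _ => (iso_spec _ (gb_pos J) _).1,
    fun f g _ _ h => iso_ord _ (gb_pos J) _ _ fun σ =>
      yle f g σ σ (h σ) (Av_le J hJ u v f g σ σ fun τ ω _ => K4_ord u v _ h σ),
    fun f _ => ?_,
    fun x f hf hb => iso_blind _ (gb_pos J) (gb_hm J hJ) x _ fun σ =>
      yle f f _ _ (by rw [hb, hb]) (Av_le J hJ u v f f _ _ fun τ ω _ => K4_anti u v ω σ τ x hf hb),
    fun x ψ hψ => ?_⟩
  · rw [iso_mass _ (gb_pos J) (gb_sum J)]
    have e1 : ∑ σ, gb J σ * y f σ =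
        (a * Z * ∑ σ, wt J σ * f σ + (b - a) * ∑ σ, wt J σ * Av J u v f σ) / (Z * Z') := by
      rw [Finset.mul_sum _ _ (a * Z), Finset.mul_sum _ _ (b - a), ← Finset.sum_add_distrib,
        Finset.sum_div]
      refine Finset.sum_congr rfl fun σ _ => ?_
      simp only [gb, y, ← hZ]; field_simp
    have e2 : ∑ σ, gb (update J (u, v) t) σ * f σ =
        (a * ∑ σ, wt J σ * f σ + (b - a) * ∑ σ, if σ u ≠ σ v then wt J σ * f σ else 0) / Z' := by
      rw [Finset.mul_sum, Finset.mul_sum, ← Finset.sum_add_distrib, Finset.sum_div]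
      refine Finset.sum_congr rfl fun σ _ => ?_
      simp only [gb, ← hZ', hw σ]
      split_ifs <;> ring
    rw [e1, e2, Av_mass, ← hZ]
    field_simp
  · have : y (fun σ => ψ (σ x)) = fun σ => ψ (σ x) := by
      funext σ
      simp only [y]
      rw [Av_eq J u v _ σ fun τ ω h => K4_fix (cp_eff ω σ τ) h x ψ hψ, ← hZn, eZ]
      rw [eZ] at Z0'
      field_simp
    show iso (gb J) (y fun σ => ψ (σ x)) = _
    rw [this]
    exact iso_self _ (gb_pos J) _ fun _ _ h => hψ (h x)

theorem tr_all (J J' : V × V → ℝ) (h0 : ∀ e, 0 ≤ J' e) (hle : ∀ e, J' e ≤ J e) :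
    ∃ T, Tr (gb J) (gb J') T := by
  have key : ∀ s : Finset (V × V), ∃ T, Tr (gb J) (gb fun e => if e ∈ s then J' e else J e) T := by
    intro s
    induction s using Finset.induction_on with
    | empty => exact ⟨id, by simpa using Tr.refl (gb J)⟩
    | insert e s he ih =>
      obtain ⟨T, hT⟩ := ih
      have e1 : (fun e' => if e' ∈ insert e s then J' e' else J e') =
          update (fun e' => if e' ∈ s then J' e' else J e') e (J' e) := by
        funext e'
        by_cases h : e' = e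
        · subst h; simp
        · simp [h]
      rw [e1]
      obtain ⟨u, v⟩ := e
      obtain ⟨T', hT'⟩ := tr_edge (fun e' => if e' ∈ s then J' e' else J e')
        (fun e' => by split_ifs; exacts [h0 e', (h0 e').trans (hle e')]) u v (J' (u, v))
        (by simp [he, hle])
      exact ⟨_, hT.comp hT'⟩
  simpa using key Finset.univ

end Pool.Agent.Lib.MP_e532e2_pr
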