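import Mathlib
import Pool.Agent.Lib.MP_e532e2_pr.Tr

set_option autoImplicit false
set_option linter.unusedSectionVars false

namespace Pool.Agent.Lib.MP_e532e2_pr
open Function Classical Finset

theorem grid (S : Finset ℝ) (hS : S.Nonempty) : ∃ (m : ℕ) (t : ℕ → ℝ), StrictMono t ∧
    t 0 ∈ S ∧ t m ∈ S ∧ ∀ a ∈ S, ∃ k ≤ m, a = t k := by
  induction S using Finset.induction_on_max with
  | empty => exact absurd hS (by simp)
  | insert a s ha ih =>
    rcases s.eq_empty_or_nonempty with rfl | hs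
    · exact ⟨0, fun i => a + i, fun i j h => by simpa using h, by simp, by simp, by simp⟩
    obtain ⟨m, t, h1, h2, h3, h4⟩ := ih hs
    refine ⟨m + 1, fun i => if i ≤ m then t i else a + (i - (m + 1) : ℕ), ?_, by simp [h2],
      by simp, ?_⟩
    · refine strictMono_nat_of_lt_succ fun i => ?_
      by_cases c : i + 1 ≤ m
      · rw [if_pos c, if_pos (by omega)]; exact h1 (Nat.lt_succ_self i)
      · rw [if_neg c]
        by_cases d : i ≤ m
        · have : i = m := by omega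
          subst this
          simpa using ha _ h3
        · rw [if_neg d]
          have : i + 1 - (m + 1) = i - (m + 1) + 1 := by omega
          rw [this]; push_cast; linarith
    · intro b hb
      rcases Finset.mem_insert.1 hb with rfl | hb
      · exact ⟨m + 1, le_rfl, by simp⟩
      · obtain ⟨k, hk, e⟩ := h4 b hb
        exact ⟨k, by omega, by simp [hk, e]⟩

theorem tele (u : ℕ → ℝ) (N m : ℕ) (h : N ≤ m) :
    u N = u 0 + ∑ i ∈ range m, (u (i + 1) - u i) * if i < N then 1 else 0 := by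
  have : ∑ i ∈ range m, ((u (i + 1) - u i) * if i < N then 1 else 0) =
      ∑ i ∈ range N, (u (i + 1) - u i) := by
    rw [← Finset.sum_subset (Finset.range_subset_range.2 h)
      (fun i _ hi => by simp only [Finset.mem_range] at hi; simp [hi])]
    exact Finset.sum_congr rfl fun i hi => by simp [Finset.mem_range.1 hi]
  rw [this, Finset.sum_range_sub]; ring

theorem chain (b : ℕ → Prop) (hb : ∀ i j, i ≤ j → b j → b i) (m i : ℕ) (hi : i < m) :
    i < ((range m).filter b).card ↔ b i := by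
  constructor
  · intro h
    by_contra c
    have : (range m).filter b ⊆ range i := fun j hj => by
      rw [Finset.mem_range]
      by_contra d
      exact c (hb i j (by omega) (Finset.mem_filter.1 hj).2)
    have := Finset.card_le_card this
    rw [Finset.card_range] at this; omega
  · intro h
    have : range (i + 1) ⊆ (range m).filter b := fun j hj => by
      rw [Finset.mem_range] at hj
      exact Finset.mem_filter.2 ⟨Finset.mem_range.2 (by omega), hb j i (by omega) h⟩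
    have := Finset.card_le_card this
    rw [Finset.card_range] at this; omega

theorem unif (S : Finset ℝ) (hS : ∀ a ∈ S, 0 ≤ a ∧ a ≤ 1) : ∃ (p : ℕ) (q θ : ℕ → ℝ),
    (∀ r, 0 ≤ q r) ∧ ∑ r ∈ range p, q r = 1 ∧
    ∀ a ∈ S, ∑ r ∈ range p, (q r * if θ r < a then 1 else 0) = a := by
  obtain ⟨p, t, h1, h2, h3, h4⟩ := grid (insert 0 (insert 1 S)) (by simp)
  have hS' : ∀ a ∈ insert 0 (insert 1 S), 0 ≤ a ∧ a ≤ 1 := by
    intro a ha
    simp only [Finset.mem_insert] at ha
    rcases ha with rfl | rfl | ha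
    exacts [by simp, by simp, hS a ha]
  have e0 : t 0 = 0 := by
    obtain ⟨k, _, e⟩ := h4 0 (by simp)
    exact le_antisymm (e ▸ h1.monotone (Nat.zero_le k)) (hS' _ h2).1
  have e1 : t p = 1 := by
    obtain ⟨k, hk, e⟩ := h4 1 (by simp)
    exact le_antisymm (hS' _ h3).2 (e ▸ h1.monotone hk)
  refine ⟨p, fun r => t (r + 1) - t r, t, fun r => sub_nonneg.2 (h1.monotone (Nat.le_succ r)),
    by rw [Finset.sum_range_sub, e0, e1]; ring, fun a ha => ?_⟩
  obtain ⟨k, hk, e⟩ := h4 a (by simp [ha])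
  have := tele t k p hk
  rw [e0, zero_add] at this
  rw [e]
  simp only [h1.lt_iff_lt]
  exact this.symm

theorem lin {α : Type} (s : Finset α) (w h : α → ℝ) (m : ℕ) (a : ℝ) (γ : ℕ → ℝ) (A : ℕ → α → ℝ) :
    ∑ σ ∈ s, w σ * ((a + ∑ i ∈ range m, γ i * A i σ) * h σ) =
      a * ∑ σ ∈ s, w σ * h σ + ∑ i ∈ range m, γ i * ∑ σ ∈ s, w σ * (A i σ * h σ) := by
  simp only [Finset.mul_sum]
  rw [Finset.sum_comm (s := range m), ← Finset.sum_add_distrib]
  refine Finset.sum_congr rfl fun σ _ => ?_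
  rw [add_mul, mul_add, Finset.sum_mul, Finset.mul_sum]
  congr 1
  · ring
  · exact Finset.sum_congr rfl fun i _ => by ring

theorem bil {α : Type} (s : Finset α) (w : α → ℝ) (m : ℕ) (a b : ℝ) (γ δ : ℕ → ℝ)
    (A B : ℕ → α → ℝ) :
    ∑ σ ∈ s, w σ * ((a + ∑ i ∈ range m, γ i * A i σ) * (b + ∑ i ∈ range m, δ i * B i σ)) =
      a * (b * ∑ σ ∈ s, w σ * 1 + ∑ i ∈ range m, δ i * ∑ σ ∈ s, w σ * (B i σ * 1)) +
      ∑ i ∈ range m, γ i * (b * ∑ σ ∈ s, w σ * (A i σ * 1) +
        ∑ l ∈ range m, δ l * ∑ σ ∈ s, w σ * (B l σ * A i σ)) := by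
  rw [lin, ← lin s w (fun _ => 1) m b δ B]
  simp only [mul_one]
  congr 1
  refine Finset.sum_congr rfl fun i _ => ?_
  rw [← lin s w (A i) m b δ B]
  simp only [mul_comm (A i _)]

variable {V : Type} [Fintype V] [DecidableEq V]

theorem round {I : Type} [Fintype I] [Nonempty I] {w w' : (V → Bool) → ℝ} (hw : ∀ σ, 0 < w σ)
    (h1 : ∑ σ, w σ = 1) (h1' : ∑ σ, w' σ = 1) {T : ((V → Bool) → ℝ) → (V → Bool) → ℝ}
    (hT : Tr w w' T) (x₀ : V) (f : I → (V → Bool) → ℝ) (hf : ∀ j, Monotone (f j)) :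
    ∃ (p : ℕ) (q : ℕ → ℝ) (F : ℕ → I → (V → Bool) → ℝ), (∀ r, 0 ≤ q r) ∧ ∑ r ∈ range p, q r = 1 ∧
      (∀ r j x, (∀ σ b, f j (update σ x b) = f j σ) → ∀ σ b, F r j (update σ x b) = F r j σ) ∧
      (∀ j (ψ : ℝ → ℝ), ∑ r ∈ range p, q r * ∑ σ, w σ * ψ (F r j σ) = ∑ σ, w' σ * ψ (f j σ)) ∧
      (∀ j l, ∑ σ, w' σ * (f j σ * f l σ) ≤
        ∑ r ∈ range p, q r * ∑ σ, w σ * (F r j σ * F r l σ)) ∧
      (∀ j (ψ : ℝ → ℝ) (a : V), Monotone ψ →
        ∑ σ, w' σ * (ψ (f j σ) * if σ a then 1 else 0) ≤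
        ∑ r ∈ range p, q r * ∑ σ, w σ * (ψ (F r j σ) * if σ a then 1 else 0)) := by
  obtain ⟨m, t, ht, -, -, hk⟩ := grid (univ.image fun z : I × (V → Bool) => f z.1 z.2)
    (Finset.univ_nonempty.image _)
  let g : I → ℕ → (V → Bool) → ℝ := fun j i σ => if t i < f j σ then 1 else 0
  have ind : ∀ {P Q : Prop}, (P → Q) → (if P then (1:ℝ) else 0) ≤ if Q then 1 else 0 := by
    intro P Q h
    by_cases a : P
    · simp [a, h a]
    · simp only [a, if_false]; split_ifs <;> simp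
  have g0 : ∀ j i σ, 0 ≤ g j i σ := fun j i σ => by simp only [g]; split_ifs <;> simp
  have g1 : ∀ j i σ, g j i σ ≤ 1 := fun j i σ => by simp only [g]; split_ifs <;> simp
  have gm : ∀ j i, Monotone (g j i) := fun j i σ τ h => ind fun a => a.trans_le (hf j h)
  have G0 : ∀ j i σ, 0 ≤ T (g j i) σ := fun j i σ => by
    have := hT.ord _ _ monotone_const (gm j i) (fun σ => g0 j i σ) σ
    rwa [hT.fix x₀ (fun _ => 0) monotone_const] at this
  have G1 : ∀ j i σ, T (g j i) σ ≤ 1 := fun j i σ => by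
    have := hT.ord _ _ (gm j i) monotone_const (fun σ => g1 j i σ) σ
    rwa [hT.fix x₀ (fun _ => 1) monotone_const] at this
  have Ga : ∀ j i i' σ, i ≤ i' → T (g j i') σ ≤ T (g j i) σ := fun j i i' σ h =>
    hT.ord _ _ (gm j i') (gm j i) (fun σ => ind fun a => (ht.monotone h).trans_lt a) σ
  obtain ⟨p, q, θ, q0, q1, hq⟩ := unif ((univ ×ˢ range m ×ˢ univ).image
    fun z : I × ℕ × (V → Bool) => T (g z.1 z.2.1) z.2.2) (by
      intro a ha
      obtain ⟨z, _, rfl⟩ := Finset.mem_image.1 ha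
      exact ⟨G0 _ _ _, G1 _ _ _⟩)
  replace hq : ∀ j i σ, i ∈ range m →
      ∑ r ∈ range p, (q r * if θ r < T (g j i) σ then 1 else 0) = T (g j i) σ :=
    fun j i σ hi => hq _ (Finset.mem_image.2 ⟨(j, i, σ), by simpa using hi, rfl⟩)
  let B : I → ℕ → ℕ × (V → Bool) → ℝ := fun j i z => if θ z.1 < T (g j i) z.2 then 1 else 0
  let F : ℕ → I → (V → Bool) → ℝ :=
    fun r j σ => t ((range m).filter fun i => θ r < T (g j i) σ).card
  have ef : ∀ (ψ : ℝ → ℝ) j σ, ψ (f j σ) =
      ψ (t 0) + ∑ i ∈ range m, (ψ (t (i + 1)) - ψ (t i)) * g j i σ := by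
    intro ψ j σ
    obtain ⟨k, hk, e⟩ := hk (f j σ) (Finset.mem_image.2 ⟨(j, σ), Finset.mem_univ _, rfl⟩)
    simp only [g, e, ht.lt_iff_lt]
    exact tele (fun i => ψ (t i)) k m hk
  have eF : ∀ (ψ : ℝ → ℝ) j (z : ℕ × (V → Bool)), ψ (F z.1 j z.2) =
      ψ (t 0) + ∑ i ∈ range m, (ψ (t (i + 1)) - ψ (t i)) * B j i z := by
    intro ψ j z
    rw [show ψ (F z.1 j z.2) = _ from tele (fun i => ψ (t i)) _ m
      ((Finset.card_filter_le _ _).trans (Finset.card_range m).le)]
    congr 1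
    refine Finset.sum_congr rfl fun i hi => ?_
    simp only [B, chain (fun i => θ z.1 < T (g j i) z.2)
      (fun i i' h a => a.trans_le (Ga j i i' z.2 h)) m i (Finset.mem_range.1 hi)]
  have pr : ∀ Φ : ℕ × (V → Bool) → ℝ, ∑ r ∈ range p, q r * ∑ σ, w σ * Φ (r, σ) =
      ∑ z ∈ range p ×ˢ univ, q z.1 * w z.2 * Φ z := by
    intro Φ
    rw [Finset.sum_product]
    simp only [Finset.mul_sum, mul_assoc]
  have pr' : ∀ Φ : ℕ × (V → Bool) → ℝ, ∑ z ∈ range p ×ˢ univ, q z.1 * w z.2 * Φ z =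
      ∑ σ, w σ * ∑ r ∈ range p, q r * Φ (r, σ) := by
    intro Φ
    rw [Finset.sum_product_right]
    simp only [Finset.mul_sum]
    exact Finset.sum_congr rfl fun σ _ => Finset.sum_congr rfl fun r _ => by ring
  have a0 : ∀ h : (V → Bool) → ℝ, ∑ z ∈ range p ×ˢ univ, q z.1 * w z.2 * h z.2 =
      ∑ σ, w σ * h σ := by
    intro h
    rw [pr']
    simp only [← Finset.sum_mul, q1, one_mul]
  have a1 : ∀ j, ∀ i ∈ range m, ∀ h : (V → Bool) → ℝ,
      ∑ z ∈ range p ×ˢ univ, q z.1 * w z.2 * (B j i z * h z.2) =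
      ∑ σ, w σ * (T (g j i) σ * h σ) := by
    intro j i hi h
    rw [pr']
    simp only [← mul_assoc (q _), ← Finset.sum_mul, B, hq j i _ hi]
  have a2 : ∀ j, ∀ i ∈ range m, ∑ z ∈ range p ×ˢ univ, q z.1 * w z.2 * B j i z =
      ∑ σ, w' σ * g j i σ := by
    intro j i hi
    have := a1 j i hi fun _ => 1
    simpa only [mul_one, hT.mass _ (gm j i)] using this
  have a3 : ∀ j l, ∀ i ∈ range m, ∀ i' ∈ range m, ∑ σ, w' σ * (g j i σ * g l i' σ) ≤
      ∑ z ∈ range p ×ˢ univ, q z.1 * w z.2 * (B j i z * B l i' z) := by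
    intro j l i hi i' hi'
    have mm : Monotone fun σ => g j i σ * g l i' σ := (gm j i).mul (gm l i') (g0 j i) (g0 l i')
    rw [← hT.mass _ mm, pr']
    refine Finset.sum_le_sum fun σ _ => mul_le_mul_of_nonneg_left ?_ (hw σ).le
    have c1 := hT.ord _ _ mm (gm j i) (fun σ => mul_le_of_le_one_right (g0 j i σ) (g1 l i' σ)) σ
    have c2 := hT.ord _ _ mm (gm l i') (fun σ => mul_le_of_le_one_left (g0 l i' σ) (g1 j i σ)) σ
    rcases le_total (T (g j i) σ) (T (g l i') σ) with h | h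
    · refine c1.trans ((hq j i σ hi).symm.trans_le (Finset.sum_le_sum fun r _ =>
        mul_le_mul_of_nonneg_left ?_ (q0 r)))
      simp only [B]
      by_cases c : θ r < T (g j i) σ
      · simp [c, c.trans_le h]
      · simp [c]
    · refine c2.trans ((hq l i' σ hi').symm.trans_le (Finset.sum_le_sum fun r _ =>
        mul_le_mul_of_nonneg_left ?_ (q0 r)))
      simp only [B]
      by_cases c : θ r < T (g l i') σ
      · simp [c, c.trans_le h]
      · simp [c]
  refine ⟨p, q, F, q0, q1, fun r j x hb σ b => ?_, fun j ψ => ?_, fun j l => ?_,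
    fun j ψ a hψ => ?_⟩
  · simp only [F, fun i => hT.blind x (g j i) (gm j i) (fun σ b => by simp only [g, hb]) σ b]
  · rw [pr fun z => ψ (F z.1 j z.2)]
    have e1 := lin (range p ×ˢ univ) (fun z => q z.1 * w z.2) (fun _ => 1) m (ψ (t 0))
      (fun i => ψ (t (i + 1)) - ψ (t i)) (B j)
    have e2 := lin univ w' (fun _ => 1) m (ψ (t 0)) (fun i => ψ (t (i + 1)) - ψ (t i)) (g j)
    rw [a0 fun _ => 1] at e1
    simp only [← eF, ← ef, mul_one, h1, h1'] at e1 e2
    rw [e1, e2]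
    congr 1
    exact Finset.sum_congr rfl fun i hi => by rw [a2 j i hi]
  · rw [pr fun z => F z.1 j z.2 * F z.1 l z.2]
    have e1 := bil (range p ×ˢ univ) (fun z => q z.1 * w z.2) m (t 0) (t 0)
      (fun i => t (i + 1) - t i) (fun i => t (i + 1) - t i) (B j) (B l)
    have e2 := bil univ w' m (t 0) (t 0)
      (fun i => t (i + 1) - t i) (fun i => t (i + 1) - t i) (g j) (g l)
    have eF' := eF id
    have ef' := ef id
    simp only [id] at eF' ef'
    simp only [← eF', ← ef'] at e1 e2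
    rw [e1, e2, a0 fun _ => 1]
    simp only [mul_one, h1, h1']
    have d0 : ∀ i, 0 ≤ t (i + 1) - t i := fun i => sub_nonneg.2 (ht.monotone (Nat.le_succ i))
    refine add_le_add (le_of_eq ?_)
      (Finset.sum_le_sum fun i hi => mul_le_mul_of_nonneg_left ?_ (d0 i))
    · congr 2
      exact Finset.sum_congr rfl fun i hi => by rw [a2 l i hi]
    rw [a2 j i hi]
    exact add_le_add le_rfl (Finset.sum_le_sum fun i' hi' =>
      mul_le_mul_of_nonneg_left (a3 l j i' hi' i hi) (d0 i'))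
  · rw [pr fun z => ψ (F z.1 j z.2) * if z.2 a then 1 else 0]
    have sm : Monotone fun b : Bool => if b then (1:ℝ) else 0 := fun b c h => by
      revert h; cases b <;> cases c <;> simp
    have sm' : Monotone fun σ : V → Bool => if σ a then (1:ℝ) else 0 := fun _ _ h => sm (h a)
    have e1 := lin (range p ×ˢ univ) (fun z => q z.1 * w z.2) (fun z => if z.2 a then 1 else 0) m
      (ψ (t 0)) (fun i => ψ (t (i + 1)) - ψ (t i)) (B j)
    have e2 := lin univ w' (fun σ => if σ a then 1 else 0) m (ψ (t 0))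
      (fun i => ψ (t (i + 1)) - ψ (t i)) (g j)
    simp only [← eF, ← ef] at e1 e2
    rw [e1, e2, a0 fun σ => if σ a then 1 else 0, ← hT.mass _ sm', hT.fix a _ sm]
    refine add_le_add le_rfl (Finset.sum_le_sum fun i hi => mul_le_mul_of_nonneg_left ?_
      (sub_nonneg.2 (hψ (ht.monotone (Nat.le_succ i)))))
    have s0 : ∀ σ : V → Bool, (0:ℝ) ≤ if σ a then 1 else 0 := fun σ => by split_ifs <;> simp
    have s1 : ∀ σ : V → Bool, (if σ a then 1 else 0) ≤ (1:ℝ) := fun σ => by split_ifs <;> simp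
    have mm : Monotone fun σ => g j i σ * if σ a then 1 else 0 := (gm j i).mul sm' (g0 j i) s0
    rw [a1 j i hi fun σ => if σ a then 1 else 0, ← hT.mass _ mm]
    refine Finset.sum_le_sum fun σ _ => mul_le_mul_of_nonneg_left ?_ (hw σ).le
    have c1 := hT.ord _ _ mm (gm j i) (fun σ => mul_le_of_le_one_right (g0 j i σ) (s1 σ)) σ
    have c2 := hT.ord _ _ mm sm' (fun σ => mul_le_of_le_one_left (s0 σ) (g1 j i σ)) σ
    rw [hT.fix a _ sm] at c2
    by_cases c : σ a = true
    · simpa [c] using c1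
    · simpa [c] using c2

end Pool.Agent.Lib.MP_e532e2_pr
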