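import Mathlib
import Pool.Agent.Lib.MP_e532e2_pr.Round
import Pool.Agent.Lib.MP_e532e2_pr.MonoP

set_option autoImplicit false
set_option linter.unusedSectionVars false

namespace Pool.Agent.Lib.MP_e532e2_pr
open Function Classical Finset

variable {V : Type} [Fintype V] [DecidableEq V]

/-- number of plus spins -/
noncomputable def cnt (σ : V → Bool) : ℝ := ∑ a, if σ a then 1 else 0

theorem cnt_neg (σ : V → Bool) : cnt (neg σ) = Fintype.card V - cnt σ := by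
  have : (Fintype.card V : ℝ) = ∑ _a : V, (1:ℝ) := by simp
  rw [this, cnt, cnt, ← Finset.sum_sub_distrib]
  refine Finset.sum_congr rfl fun a _ => ?_
  cases h : σ a <;> simp [neg, h]

theorem cnt_nonneg (σ : V → Bool) : 0 ≤ cnt σ :=
  Finset.sum_nonneg fun a _ => by split_ifs <;> simp

theorem cnt_le (σ : V → Bool) : cnt σ ≤ Fintype.card V := by
  have := cnt_nonneg (neg σ); rw [cnt_neg] at this; linarith

theorem cnt_mean (w : (V → Bool) → ℝ) (hs : ∀ σ, w (neg σ) = w σ) (h1 : ∑ σ, w σ = 1) :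
    ∑ σ, w σ * cnt σ = Fintype.card V / 2 := by
  have := sum_neg' fun σ => w σ * cnt σ
  simp only [hs, cnt_neg, mul_sub, Finset.sum_sub_distrib, ← Finset.sum_mul, h1] at this
  linarith

theorem cnt_step (σ τ : V → Bool) (h : σ ≤ τ) (hne : σ ≠ τ) : cnt σ + 1 ≤ cnt τ := by
  obtain ⟨y, hy⟩ := Function.ne_iff.1 hne
  have : ∑ x, (if x = y then (1:ℝ) else 0) ≤
      ∑ x, ((if τ x then (1:ℝ) else 0) - (if σ x then (1:ℝ) else 0)) := by
    refine Finset.sum_le_sum fun x _ => ?_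
    have hx := h x
    by_cases hxy : x = y
    · subst hxy
      revert hx hy
      cases σ x <;> cases τ x <;> simp
    · revert hx
      cases σ x <;> cases τ x <;> simp [hxy]
  rw [Finset.sum_sub_distrib] at this
  simp only [Finset.sum_ite_eq', Finset.mem_univ, if_true] at this
  unfold cnt; linarith

theorem newman_set (w : (V → Bool) → ℝ) (hw : ∀ σ, 0 < w σ) (hs : ∀ σ, w (neg σ) = w σ)
    (h1 : ∑ σ, w σ = 1) (hl : ∀ σ τ, w σ * w τ ≤ w (σ ⊓ τ) * w (σ ⊔ τ))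
    (g : (V → Bool) → ℝ) (hg : Monotone g) (h01 : ∀ σ, g σ = 0 ∨ g σ = 1) :
    ∑ σ, w σ * |g σ - ∑ τ, w τ * g τ| ≤
      2 * ∑ σ, w σ * (g σ * (cnt σ - Fintype.card V / 2)) := by
  have g0 : ∀ σ, 0 ≤ g σ := fun σ => by rcases h01 σ with h | h <;> simp [h]
  have g1 : ∀ σ, g σ ≤ 1 := fun σ => by rcases h01 σ with h | h <;> simp [h]
  have km : Monotone fun σ => cnt σ + 1 - g σ := by
    intro σ τ h
    by_cases e : σ = τ
    · rw [e]
    · have := cnt_step σ τ h e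
      have := g0 σ; have := g1 τ
      simp only; linarith
  have k := fkg g (fun σ => cnt σ + 1 - g σ) w (fun σ => (hw σ).le) g0
    (fun σ => by have := cnt_nonneg σ; have := g1 σ; simp only [Pi.zero_apply]; linarith) hg km hl
  set m := ∑ τ, w τ * g τ with hm
  have m0 : 0 ≤ m := Finset.sum_nonneg fun σ _ => mul_nonneg (hw σ).le (g0 σ)
  have m1 : m ≤ 1 := h1 ▸ Finset.sum_le_sum fun σ _ => mul_le_of_le_one_right (hw σ).le (g1 σ)
  have e1 : ∑ σ, w σ * |g σ - m| = ∑ σ, (m * w σ + (1 - 2 * m) * (w σ * g σ)) := by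
    refine Finset.sum_congr rfl fun σ _ => ?_
    rcases h01 σ with h | h <;> rw [h]
    · rw [abs_of_nonpos (by linarith)]; ring
    · rw [abs_of_nonneg (by linarith)]; ring
  have e2 : ∑ σ, w σ * (g σ * (cnt σ + 1 - g σ)) = ∑ σ, w σ * (g σ * cnt σ) := by
    refine Finset.sum_congr rfl fun σ _ => ?_
    rcases h01 σ with h | h <;> rw [h] <;> ring
  have e3 : ∑ σ, w σ * (g σ * (cnt σ - Fintype.card V / 2)) =
      ∑ σ, w σ * (g σ * cnt σ) - Fintype.card V / 2 * m := by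
    rw [hm, Finset.mul_sum, ← Finset.sum_sub_distrib]
    exact Finset.sum_congr rfl fun σ _ => by ring
  rw [e2] at k
  simp only [mul_sub, mul_add, Finset.sum_sub_distrib, Finset.sum_add_distrib, mul_one, h1,
    cnt_mean w hs h1, ← hm] at k
  rw [e1, e3, Finset.sum_add_distrib, ← Finset.mul_sum, ← Finset.mul_sum, h1, ← hm]
  nlinarith

theorem newman (w : (V → Bool) → ℝ) (hw : ∀ σ, 0 < w σ) (hs : ∀ σ, w (neg σ) = w σ)
    (h1 : ∑ σ, w σ = 1) (hl : ∀ σ τ, w σ * w τ ≤ w (σ ⊓ τ) * w (σ ⊔ τ))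
    (h : (V → Bool) → ℝ) (hh : Monotone h) :
    ∑ σ, w σ * |h σ - ∑ τ, w τ * h τ| ≤
      2 * ∑ σ, w σ * (h σ * (cnt σ - Fintype.card V / 2)) := by
  obtain ⟨m, t, ht, -, -, hk⟩ := grid (univ.image h) (Finset.univ_nonempty.image _)
  let g : ℕ → (V → Bool) → ℝ := fun i σ => if t i < h σ then 1 else 0
  have gm : ∀ i, Monotone (g i) := fun i σ τ e => by
    simp only [g]
    by_cases a : t i < h σ
    · simp [a, a.trans_le (hh e)]
    · simp only [a, if_false]; split_ifs <;> simp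
  have ef : ∀ σ, h σ = t 0 + ∑ i ∈ range m, (t (i + 1) - t i) * g i σ := by
    intro σ
    obtain ⟨k, hk, e⟩ := hk (h σ) (Finset.mem_image.2 ⟨σ, Finset.mem_univ _, rfl⟩)
    simp only [g, e, ht.lt_iff_lt]
    exact tele t k m hk
  have d0 : ∀ i, 0 ≤ t (i + 1) - t i := fun i => sub_nonneg.2 (ht.monotone (Nat.le_succ i))
  have e1 := lin univ w (fun _ => 1) m (t 0) (fun i => t (i + 1) - t i) g
  have e2 := lin univ w (fun σ => cnt σ - Fintype.card V / 2) m (t 0) (fun i => t (i + 1) - t i) g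
  have e3 := lin univ w (fun _ => 1) m 0 (fun i => t (i + 1) - t i)
    (fun i σ => |g i σ - ∑ τ, w τ * g i τ|)
  have e4 : ∑ σ, w σ * (cnt σ - Fintype.card V / 2) = 0 := by
    simp only [mul_sub, Finset.sum_sub_distrib, ← Finset.sum_mul, h1, cnt_mean w hs h1]; ring
  simp only [← ef, mul_one, h1, e4, mul_zero, zero_add] at e1 e2 e3
  rw [e2, Finset.mul_sum]
  refine le_trans ?_ (Finset.sum_le_sum fun i _ => (mul_le_mul_of_nonneg_left
    (newman_set w hw hs h1 hl (g i) (gm i) fun σ => by simp only [g]; split_ifs <;> simp)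
    (d0 i)).trans (le_of_eq (by ring)))
  rw [← e3]
  refine Finset.sum_le_sum fun σ _ => mul_le_mul_of_nonneg_left ?_ (hw σ).le
  rw [e1, ef σ, add_sub_add_left_eq_sub, ← Finset.sum_sub_distrib]
  refine (Finset.abs_sum_le_sum_abs _ _).trans (le_of_eq (Finset.sum_congr rfl fun i _ => ?_))
  rw [← mul_sub, abs_mul, abs_of_nonneg (d0 i)]

theorem phi_mono : Monotone fun t : ℝ => t * |t| := by
  intro a b h
  simp only
  rcases le_total 0 a with h1 | h1 <;> rcases le_total 0 b with h2 | h2 <;>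
    simp only [abs_of_nonneg, abs_of_nonpos, h1, h2] <;> nlinarith

theorem phi_bd (a c n s : ℝ) (hn : 0 ≤ n) (h1 : -(n / 2) ≤ s) (h2 : s ≤ n / 2) :
    2 * ((a * |a| - c * |c|) * s) ≤ 2 * n ^ 2 * (a - c) ^ 2 + (a ^ 2 + c ^ 2) / 4 := by
  have e1 : abs (a * |a| - c * |c|) ≤ |a - c| * (|a| + |c|) := by
    rcases le_total 0 a with h1 | h1 <;> rcases le_total 0 c with h2 | h2
    · rw [abs_of_nonneg h1, abs_of_nonneg h2, ← abs_of_nonneg (add_nonneg h1 h2), ← abs_mul]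
      exact le_of_eq (by congr 1; ring)
    · rw [abs_of_nonneg h1, abs_of_nonpos h2, abs_of_nonneg (by nlinarith),
        abs_of_nonneg (by linarith)]
      nlinarith
    · rw [abs_of_nonpos h1, abs_of_nonneg h2, abs_of_nonpos (by nlinarith),
        abs_of_nonpos (by linarith)]
      nlinarith
    · rw [abs_of_nonpos h1, abs_of_nonpos h2,
        ← abs_of_nonneg (show 0 ≤ -a + -c by linarith), ← abs_mul]
      exact le_of_eq (by congr 1; ring)
  have e2 : (a * |a| - c * |c|) * s ≤ abs (a * |a| - c * |c|) * (n / 2) :=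
    (le_abs_self _).trans (by
      rw [abs_mul]; exact mul_le_mul_of_nonneg_left (abs_le.2 ⟨h1, h2⟩) (abs_nonneg _))
  have e3 := mul_le_mul_of_nonneg_right e1 (show 0 ≤ n / 2 by linarith)
  rw [← sq_abs (a - c), ← sq_abs a, ← sq_abs c]
  nlinarith [sq_nonneg (4 * n * |a - c| - (|a| + |c|)), sq_nonneg (|a| - |c|)]

theorem var_bd (w : (V → Bool) → ℝ) (hw : ∀ σ, 0 < w σ) (hs : ∀ σ, w (neg σ) = w σ)
    (h1 : ∑ σ, w σ = 1) (F : (V → Bool) → ℝ) :
    2 * ∑ σ, w σ * (F σ * |F σ| * (cnt σ - Fintype.card V / 2)) ≤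
      2 * (Fintype.card V : ℝ) ^ 2 * ∑ σ, w σ * (F σ - ∑ τ, w τ * F τ) ^ 2 +
        (∑ σ, w σ * F σ ^ 2) / 2 := by
  set c := ∑ τ, w τ * F τ with hc
  set n : ℝ := (Fintype.card V : ℝ) with hn
  have e4 : ∑ σ, w σ * (cnt σ - n / 2) = 0 := by
    simp only [mul_sub, Finset.sum_sub_distrib, ← Finset.sum_mul, h1, cnt_mean w hs h1]; ring
  have e1 : ∑ σ, w σ * (2 * ((F σ * |F σ| - c * |c|) * (cnt σ - n / 2))) =
      2 * ∑ σ, w σ * (F σ * |F σ| * (cnt σ - n / 2)) -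
        2 * (c * |c|) * ∑ σ, w σ * (cnt σ - n / 2) := by
    rw [Finset.mul_sum, Finset.mul_sum, ← Finset.sum_sub_distrib]
    exact Finset.sum_congr rfl fun σ _ => by ring
  have e2 : ∑ σ, w σ * (2 * n ^ 2 * (F σ - c) ^ 2 + (F σ ^ 2 + c ^ 2) / 4) =
      2 * n ^ 2 * ∑ σ, w σ * (F σ - c) ^ 2 + (∑ σ, w σ * F σ ^ 2) / 4 + c ^ 2 / 4 * ∑ σ, w σ := by
    rw [Finset.mul_sum, Finset.mul_sum, Finset.sum_div, ← Finset.sum_add_distrib,
      ← Finset.sum_add_distrib]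
    exact Finset.sum_congr rfl fun σ _ => by ring
  have e3 : ∑ σ, w σ * (F σ - c) ^ 2 = ∑ σ, w σ * F σ ^ 2 - 2 * c * c + c ^ 2 * ∑ σ, w σ := by
    nth_rewrite 3 [hc]
    rw [Finset.mul_sum _ _ (2 * c), Finset.mul_sum _ _ (c ^ 2), ← Finset.sum_sub_distrib,
      ← Finset.sum_add_distrib]
    exact Finset.sum_congr rfl fun σ _ => by ring
  have e5 : 0 ≤ ∑ σ, w σ * (F σ - c) ^ 2 :=
    Finset.sum_nonneg fun σ _ => mul_nonneg (hw σ).le (sq_nonneg _)
  have e6 := Finset.sum_le_sum fun σ (_ : σ ∈ univ) => mul_le_mul_of_nonneg_left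
    (phi_bd (F σ) c n (cnt σ - n / 2) (Nat.cast_nonneg _) (by have := cnt_nonneg σ; linarith)
      (by have := cnt_le σ; linarith)) (hw σ).le
  rw [e1, e2, e4, h1] at e6
  rw [h1] at e3
  nlinarith

theorem phi_bd2 (a c n s : ℝ) (h1 : -(n / 2) ≤ s) (h2 : s ≤ n / 2) :
    2 * ((a * |a| - c * |c|) * s) ≤ 4 * |c| * ((a - c) * s) + n * (a - c) ^ 2 := by
  have e1 : abs (a * |a| - c * |c| - 2 * |c| * (a - c)) ≤ (a - c) ^ 2 := by
    rw [abs_le]
    rcases le_total 0 a with h1 | h1 <;> rcases le_total 0 c with h2 | h2 <;>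
      simp only [abs_of_nonneg, abs_of_nonpos, h1, h2] <;> constructor <;> nlinarith
  have e2 : (a * |a| - c * |c| - 2 * |c| * (a - c)) * s ≤ (a - c) ^ 2 * (n / 2) :=
    (le_abs_self _).trans (by
      rw [abs_mul]
      exact mul_le_mul e1 (abs_le.2 ⟨h1, h2⟩) (abs_nonneg _) (sq_nonneg _))
  nlinarith

theorem var_bd2 (w : (V → Bool) → ℝ) (hw : ∀ σ, 0 < w σ) (hs : ∀ σ, w (neg σ) = w σ)
    (h1 : ∑ σ, w σ = 1) (F : (V → Bool) → ℝ) :
    2 * ∑ σ, w σ * (F σ * |F σ| * (cnt σ - Fintype.card V / 2)) ≤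
      (2 * ∑ σ, w σ * (2 * cnt σ - Fintype.card V) ^ 2 + Fintype.card V) *
        ∑ σ, w σ * (F σ - ∑ τ, w τ * F τ) ^ 2 + (∑ σ, w σ * F σ ^ 2) / 2 := by
  set c := ∑ τ, w τ * F τ with hc
  set n : ℝ := (Fintype.card V : ℝ) with hn
  have e4 : ∑ σ, w σ * (cnt σ - n / 2) = 0 := by
    simp only [mul_sub, Finset.sum_sub_distrib, ← Finset.sum_mul, h1, cnt_mean w hs h1]; ring
  have e1 : ∑ σ, w σ * (2 * ((F σ * |F σ| - c * |c|) * (cnt σ - n / 2))) =
      2 * ∑ σ, w σ * (F σ * |F σ| * (cnt σ - n / 2)) -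
        2 * (c * |c|) * ∑ σ, w σ * (cnt σ - n / 2) := by
    rw [Finset.mul_sum, Finset.mul_sum, ← Finset.sum_sub_distrib]
    exact Finset.sum_congr rfl fun σ _ => by ring
  have e2 : ∑ σ, w σ * (4 * |c| * ((F σ - c) * (cnt σ - n / 2)) + n * (F σ - c) ^ 2) =
      2 * |c| * ∑ σ, w σ * ((F σ - c) * (2 * cnt σ - n)) + n * ∑ σ, w σ * (F σ - c) ^ 2 := by
    rw [Finset.mul_sum, Finset.mul_sum, ← Finset.sum_add_distrib]
    exact Finset.sum_congr rfl fun σ _ => by ring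
  have e3 : ∑ σ, w σ * (F σ - c) ^ 2 = ∑ σ, w σ * F σ ^ 2 - 2 * c * c + c ^ 2 * ∑ σ, w σ := by
    nth_rewrite 3 [hc]
    rw [Finset.mul_sum _ _ (2 * c), Finset.mul_sum _ _ (c ^ 2), ← Finset.sum_sub_distrib,
      ← Finset.sum_add_distrib]
    exact Finset.sum_congr rfl fun σ _ => by ring
  have e5 : 0 ≤ ∑ σ, w σ * (F σ - c) ^ 2 :=
    Finset.sum_nonneg fun σ _ => mul_nonneg (hw σ).le (sq_nonneg _)
  have e6 := Finset.sum_le_sum fun σ (_ : σ ∈ univ) => mul_le_mul_of_nonneg_left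
    (phi_bd2 (F σ) c n (cnt σ - n / 2) (by have := cnt_nonneg σ; linarith)
      (by have := cnt_le σ; linarith)) (hw σ).le
  have e7 := cs (ip w) (ip_symm w) (ip_nonneg w hw) (fun σ => F σ - c) (fun σ => 2 * cnt σ - n)
  simp only [ip_apply, ← sq] at e7
  rw [e1, e2, e4] at e6
  rw [h1] at e3
  have e8 := sq_abs c
  generalize ∑ σ, w σ * ((F σ - c) * (2 * cnt σ - n)) = X at *
  generalize ∑ σ, w σ * (2 * cnt σ - n) ^ 2 = Y at *
  generalize ∑ σ, w σ * (F σ - c) ^ 2 = Z at *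
  nlinarith [sq_nonneg (|c| - 2 * X)]

theorem poly_mp {w w' : (V → Bool) → ℝ} (hw : ∀ σ, 0 < w σ)
    (h1 : ∑ σ, w σ = 1) (hw' : ∀ σ, 0 < w' σ) (hs' : ∀ σ, w' (neg σ) = w' σ)
    (h1' : ∑ σ, w' σ = 1) (hl : ∀ σ τ, w' σ * w' τ ≤ w' (σ ⊓ τ) * w' (σ ⊔ τ))
    (hm : ∀ x σ τ, σ ≤ τ → w' (update σ x true) * w' (update τ x false) ≤
      w' (update τ x true) * w' (update σ x false))
    {T : ((V → Bool) → ℝ) → (V → Bool) → ℝ} (hT : Tr w w' T) (x₀ : V) (c : ℝ) (hc : 0 ≤ c)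
    (K : ℝ) (hK : 0 < K) (hb2 : ∀ F : (V → Bool) → ℝ,
      2 * ∑ σ, w σ * (F σ * |F σ| * (cnt σ - Fintype.card V / 2)) ≤
      K / 2 * ∑ σ, w σ * (F σ - ∑ τ, w τ * F τ) ^ 2 + (∑ σ, w σ * F σ ^ 2) / 2)
    (h : ∀ f : (V → Bool) → ℝ, c * ∑ σ, w σ * (f σ - ∑ τ, w τ * f τ) ^ 2 ≤
      ∑ x, ∑ σ, w σ * (f σ - Px w x f σ) ^ 2)
    (u : (V → Bool) → ℝ) (hu : ∀ σ, u (neg σ) = - u σ) (hmo : Monotone u) :
    c / K * ∑ σ, w' σ * u σ ^ 2 ≤
      ∑ x, ∑ σ, w' σ * (u σ - Px w' x u σ) ^ 2 := by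
  obtain ⟨p, q, F, q0, q1, hb, hlaw, hpair, hsp⟩ := round hw h1 h1' hT x₀
    (fun j : Option V => j.elim u fun x => Px w' x u)
    (fun j => by cases j; exacts [hmo, Px_mono w' hw' hm _ u hmo])
  set n : ℝ := (Fintype.card V : ℝ) with hn
  have sqe : ∀ (v a b : (V → Bool) → ℝ), ∑ σ, v σ * (a σ - b σ) ^ 2 =
      ∑ σ, v σ * a σ ^ 2 + ∑ σ, v σ * b σ ^ 2 - 2 * ∑ σ, v σ * (a σ * b σ) := by
    intro v a b
    rw [Finset.mul_sum, ← Finset.sum_add_distrib, ← Finset.sum_sub_distrib]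
    exact Finset.sum_congr rfl fun σ _ => by ring
  have s1 : c * ∑ r ∈ range p, q r * ∑ σ, w σ * (F r none σ - ∑ τ, w τ * F r none τ) ^ 2 ≤
      ∑ x, ∑ σ, w' σ * (u σ - Px w' x u σ) ^ 2 := by
    have a1 : ∀ x, ∑ r ∈ range p, q r * ∑ σ, w σ * (F r none σ - F r (some x) σ) ^ 2 ≤
        ∑ σ, w' σ * (u σ - Px w' x u σ) ^ 2 := by
      intro x
      have b1 := hlaw none fun t => t ^ 2
      have b2 := hlaw (some x) fun t => t ^ 2
      have b3 := hpair none (some x)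
      simp only [Option.elim] at b1 b2 b3
      simp only [sqe, mul_sub, mul_add, Finset.sum_sub_distrib, Finset.sum_add_distrib,
        mul_left_comm (q _) 2, ← Finset.mul_sum]
      linarith
    refine le_trans ?_ (Finset.sum_le_sum fun x _ => a1 x)
    rw [Finset.sum_comm, Finset.mul_sum]
    refine Finset.sum_le_sum fun r _ => ?_
    rw [← Finset.mul_sum, mul_left_comm]
    exact mul_le_mul_of_nonneg_left ((h _).trans (Finset.sum_le_sum fun x _ =>
      team w hw x _ _ (hb r (some x) x fun σ b => Px_update w' x u σ b))) (q0 r)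
  have ce : ∀ (v a : (V → Bool) → ℝ), ∑ σ, v σ * (a σ * (cnt σ - n / 2)) =
      ∑ x, ∑ σ, v σ * (a σ * if σ x then 1 else 0) - n / 2 * ∑ σ, v σ * a σ := by
    intro v a
    rw [Finset.sum_comm, Finset.mul_sum, ← Finset.sum_sub_distrib]
    refine Finset.sum_congr rfl fun σ _ => ?_
    rw [← Finset.mul_sum, ← Finset.mul_sum, cnt]; ring
  have s2 : ∑ σ, w' σ * u σ ^ 2 ≤ 2 * ∑ σ, w' σ * (u σ * |u σ| * (cnt σ - n / 2)) := by
    have a1 := newman w' hw' hs' h1' hl (fun σ => u σ * |u σ|) (phi_mono.comp hmo)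
    have a2 : ∑ τ, w' τ * (u τ * |u τ|) = 0 := by
      have := sum_neg' fun σ => w' σ * (u σ * |u σ|)
      simp only [hs', hu, abs_neg, neg_mul, mul_neg, Finset.sum_neg_distrib] at this
      linarith
    simp only [a2, sub_zero, abs_mul, abs_abs, ← sq, sq_abs] at a1
    exact a1
  have s3 : ∑ σ, w' σ * (u σ * |u σ| * (cnt σ - n / 2)) ≤
      ∑ r ∈ range p, q r * ∑ σ, w σ * (F r none σ * |F r none σ| * (cnt σ - n / 2)) := by
    have b1 := hlaw none fun t => t * |t|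
    have b2 := Finset.sum_le_sum fun x (_ : x ∈ univ) => hsp none (fun t => t * |t|) x phi_mono
    simp only [Option.elim] at b1 b2
    rw [Finset.sum_comm (s := univ) (t := range p)] at b2
    simp only [← Finset.mul_sum] at b2
    rw [ce w' fun σ => u σ * |u σ|]
    simp only [fun r => ce w fun σ => F r none σ * |F r none σ|]
    simp only [mul_sub, Finset.sum_sub_distrib, mul_left_comm (q _) (n / 2), ← Finset.mul_sum, b1]
    linarith
  have s4 := Finset.sum_le_sum fun r (_ : r ∈ range p) =>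
    mul_le_mul_of_nonneg_left (hb2 (F r none)) (q0 r)
  have b1 := hlaw none fun t => t ^ 2
  simp only [Option.elim] at b1
  simp only [mul_add, Finset.sum_add_distrib, mul_left_comm (q _) 2, mul_left_comm (q _) (K / 2),
    ← Finset.mul_sum] at s4
  simp only [← mul_div_assoc, ← Finset.sum_div, b1] at s4
  refine le_trans ?_ s1
  rw [div_mul_eq_mul_div, mul_div_assoc]
  refine mul_le_mul_of_nonneg_left ?_ hc
  rw [div_le_iff₀ hK]
  linarith

theorem poly (J J' : V × V → ℝ) (h0 : ∀ e, 0 ≤ J' e) (hle : ∀ e, J' e ≤ J e) (c : ℝ)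
    (hc : 0 ≤ c) (x₀ : V)
    (h : ∀ f : (V → Bool) → ℝ, c * ∑ σ, gb J σ * (f σ - ∑ τ, gb J τ * f τ) ^ 2 ≤
      ∑ x, ∑ σ, gb J σ * (f σ - Px (gb J) x f σ) ^ 2) (f : (V → Bool) → ℝ) :
    c / (4 * (Fintype.card V : ℝ) ^ 2) * ∑ σ, gb J' σ * (f σ - ∑ τ, gb J' τ * f τ) ^ 2 ≤
      ∑ x, ∑ σ, gb J' σ * (f σ - Px (gb J') x f σ) ^ 2 ∧
    c / (4 * ∑ σ, gb J σ * (2 * cnt σ - Fintype.card V) ^ 2 + 2 * Fintype.card V) *
      ∑ σ, gb J' σ * (f σ - ∑ τ, gb J' τ * f τ) ^ 2 ≤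
      ∑ x, ∑ σ, gb J' σ * (f σ - Px (gb J') x f σ) ^ 2 := by
  have n0 : (0 : ℝ) < Fintype.card V := by exact_mod_cast Fintype.card_pos_iff.2 ⟨x₀⟩
  have p0 : 0 ≤ ∑ σ, gb J σ * (2 * cnt σ - Fintype.card V) ^ 2 :=
    Finset.sum_nonneg fun σ _ => mul_nonneg (gb_pos J σ).le (sq_nonneg _)
  obtain ⟨T, hT⟩ := tr_all J J' h0 hle
  constructor
  · exact poincare_of_MP _ (gb_pos J') (gb_neg J') (gb_sum J') (gb_hm J' h0) _
      (poly_mp (gb_pos J) (gb_sum J) (gb_pos J') (gb_neg J') (gb_sum J') (gb_lat J' h0)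
        (gb_hm J' h0) hT x₀ c hc _ (by positivity) (fun F => by
          have := var_bd _ (gb_pos J) (gb_neg J) (gb_sum J) F; linarith) h) f
  · exact poincare_of_MP _ (gb_pos J') (gb_neg J') (gb_sum J') (gb_hm J' h0) _
      (poly_mp (gb_pos J) (gb_sum J) (gb_pos J') (gb_neg J') (gb_sum J') (gb_lat J' h0)
        (gb_hm J' h0) hT x₀ c hc _ (by positivity) (fun F => by
          have := var_bd2 _ (gb_pos J) (gb_neg J) (gb_sum J) F; linarith) h) f

theorem mag_eq (σ : V → Bool) :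
    ∑ v, (if σ v then (1:ℝ) else -1) = 2 * cnt σ - Fintype.card V := by
  have : (Fintype.card V : ℝ) = ∑ _a : V, (1:ℝ) := by simp
  rw [this, cnt, Finset.mul_sum, ← Finset.sum_sub_distrib]
  exact Finset.sum_congr rfl fun a _ => by split_ifs <;> norm_num

theorem mag_mean (w : (V → Bool) → ℝ) (hs : ∀ σ, w (neg σ) = w σ) (h1 : ∑ σ, w σ = 1) :
    ∑ σ, w σ * (2 * cnt σ - Fintype.card V) = 0 := by
  simp only [mul_sub, Finset.sum_sub_distrib, ← Finset.sum_mul, h1, mul_left_comm (w _) 2,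
    ← Finset.mul_sum, cnt_mean w hs h1]
  ring

theorem lin_bd (w : (V → Bool) → ℝ) (hw : ∀ σ, 0 < w σ) (hs : ∀ σ, w (neg σ) = w σ)
    (h1 : ∑ σ, w σ = 1) (c : ℝ) (x₀ : V)
    (h : ∀ f : (V → Bool) → ℝ, c * ∑ σ, w σ * (f σ - ∑ τ, w τ * f τ) ^ 2 ≤
      ∑ x, ∑ σ, w σ * (f σ - Px w x f σ) ^ 2) :
    c ≤ 1 ∧ c * ∑ σ, w σ * (2 * cnt σ - Fintype.card V) ^ 2 ≤ Fintype.card V := by
  constructor
  · have a1 := h fun σ => if σ x₀ then 1 else -1
    have a2 : ∑ τ, w τ * (if τ x₀ then (1:ℝ) else -1) = 0 := by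
      have := sum_neg' fun τ => w τ * (if τ x₀ then (1:ℝ) else -1)
      have e : ∀ τ : V → Bool, (if neg τ x₀ then (1:ℝ) else -1) = -(if τ x₀ then 1 else -1) :=
        fun τ => by cases h : τ x₀ <;> simp [neg, h]
      simp only [hs, e, mul_neg, Finset.sum_neg_distrib] at this
      linarith
    have a3 : ∀ σ : V → Bool, (if σ x₀ then (1:ℝ) else -1) ^ 2 = 1 :=
      fun σ => by split_ifs <;> norm_num
    simp only [a2, sub_zero, a3, mul_one, h1] at a1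
    refine a1.trans ((Finset.sum_le_sum (g := fun x => if x = x₀ then (1:ℝ) else 0)
      fun x _ => ?_).trans (by simp))
    split_ifs with e
    · refine (team w hw x _ (fun _ => 0) fun _ _ => rfl).trans ?_
      simp only [sub_zero, a3, mul_one, h1, le_refl]
    · refine (team w hw x _ (fun σ => if σ x₀ then 1 else -1) fun σ b => ?_).trans (by simp)
      simp only [update_of_ne (Ne.symm e)]
  · have a1 := h fun σ => 2 * cnt σ - Fintype.card V
    simp only [mag_mean w hs h1, sub_zero] at a1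
    refine a1.trans ((Finset.sum_le_sum (g := fun _ => (1:ℝ)) fun x _ => ?_).trans (by simp))
    refine (team w hw x _ (fun σ => ∑ v ∈ univ.erase x, if σ v then (1:ℝ) else -1)
      fun σ b => Finset.sum_congr rfl fun v hv => by
        rw [update_of_ne (Finset.ne_of_mem_erase hv)]).trans (le_of_eq ?_)
    refine Eq.trans (Finset.sum_congr rfl fun σ _ => ?_) h1
    rw [← mag_eq, ← Finset.add_sum_erase _ _ (Finset.mem_univ x), add_sub_cancel_right]
    split_ifs <;> norm_num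

end Pool.Agent.Lib.MP_e532e2_pr
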